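import Mathlib
import Pool.Agent.TH461.SST.Main

/-!
# Counting the visits of `u ^ i * v ^ j * z` to a thin annulus about `0`, uniformly in `z`
-/

set_option autoImplicit false

open Finset

namespace Pool.Agent.Q190.SV

open Pool.Agent.TH461.SST

/-- the logarithm of `u ^ m * v ^ n` -/
noncomputable def lev (u v m n : ℕ) : ℝ := (m : ℝ) * Real.log u + (n : ℝ) * Real.log v

/-- the cluster inequality for a finite set of rational numbers of any size -/
lemma cluster_finset {u v : ℕ} (hcl : ClusterStmt u v) {η : ℝ} (hη : 0 < η) :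
    ∃ N0 : ℝ, 1 ≤ N0 ∧ ∀ N : ℝ, N0 ≤ N → ∀ θ : ℝ, 1 ≤ θ → θ < 2 → ∀ V : Finset ℚ,
      ∀ (a : ℚ → ℤ) (m n : ℚ → ℕ) (h : ℚ → ℝ),
      (∀ r ∈ V, (r : ℝ) = (a r : ℝ) / ((u : ℝ) ^ (m r) * (v : ℝ) ^ (n r)) ∧
        (m r = 0 ∨ ¬ (u : ℤ) ∣ a r) ∧ h r ≤ N ∧ |θ - (r : ℝ)| ≤ Real.exp (-(h r)) ∧
        lev u v (m r) (n r) + η * N ≤ h r) →
      ∑ r ∈ V, (h r - lev u v (m r) (n r)) ≤ 2 * N := by
  classical
  set k0 : ℕ := ⌊2 / η⌋₊ + 1 with hk0
  have hk0' : 2 / η < k0 := by
    rw [hk0]; push_cast; exact Nat.lt_floor_add_one _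
  choose N1 hN1 using fun k : ℕ => hcl k η hη
  have hne : (Finset.range (k0 + 1)).Nonempty := ⟨0, by simp⟩
  set N0 : ℝ := max 1 ((Finset.range (k0 + 1)).sup' hne N1) with hN0
  refine ⟨N0, le_max_left _ _, fun N hN θ h1 h2 V a m n h hV => ?_⟩
  have hNpos : 0 < N := lt_of_lt_of_le one_pos ((le_max_left _ _).trans hN)
  -- the small case
  have small : ∀ W : Finset ℚ, W ⊆ V → W.card ≤ k0 →
      ∑ r ∈ W, (h r - lev u v (m r) (n r)) ≤ 2 * N := by
    intro W hW hc
    have hNk : N1 W.card ≤ N := by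
      refine le_trans ?_ hN
      refine le_trans ?_ (le_max_right _ _)
      exact Finset.le_sup' N1 (Finset.mem_range.2 (by omega))
    set e : Fin W.card ≃ W := W.equivFin.symm with he
    have key := hN1 W.card N hNk θ h1 h2 (fun i => a (e i)) (fun i => m (e i))
      (fun i => n (e i)) (fun i => h (e i))
      (fun i => (hV _ (hW (e i).2)).2.1) (fun i => (hV _ (hW (e i).2)).2.2.1)
      (fun i => by rw [← (hV _ (hW (e i).2)).1]; exact (hV _ (hW (e i).2)).2.2.2.1)
      (fun i => by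
        have := (hV _ (hW (e i).2)).2.2.2.2
        unfold lev at this
        exact this)
      (fun i j hij => by
        rw [← (hV _ (hW (e i).2)).1, ← (hV _ (hW (e j).2)).1]
        intro hcon
        apply hij
        apply e.injective
        apply Subtype.ext
        exact_mod_cast hcon)
    have hsum : ∑ r ∈ W, (h r - lev u v (m r) (n r)) =
        ∑ i, (h (e i) - (m (e i) : ℝ) * Real.log u - (n (e i) : ℝ) * Real.log v) := by
      rw [← Finset.sum_coe_sort W]
      rw [← e.sum_comp]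
      refine Finset.sum_congr rfl fun i _ => ?_
      unfold lev
      ring
    rw [hsum]
    exact key
  by_cases hc : V.card ≤ k0
  · exact small V (Finset.Subset.refl _) hc
  · exfalso
    push Not at hc
    obtain ⟨W, hWV, hWc⟩ := Finset.exists_subset_card_eq hc.le
    have h3 := small W hWV hWc.le
    have h4 : (k0 : ℝ) * (η * N) ≤ ∑ r ∈ W, (h r - lev u v (m r) (n r)) := by
      rw [← hWc, ← nsmul_eq_mul, ← Finset.sum_const]
      refine Finset.sum_le_sum fun r hr => ?_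
      have := (hV r (hWV hr)).2.2.2.2
      linarith
    have h5 : 2 * N < (k0 : ℝ) * (η * N) := by
      rw [div_lt_iff₀ hη] at hk0'
      nlinarith
    linarith

/-- the smallest exponents of a denominator -/
lemma corner {u v : ℕ} (hu : 2 ≤ u) (hv : 2 ≤ v) (huv : Nat.Coprime u v) (r : ℚ)
    (hr : ∃ i j : ℕ, r.den ∣ u ^ i * v ^ j) :
    ∃ (m n : ℕ) (a : ℤ), (r : ℝ) = (a : ℝ) / ((u : ℝ) ^ m * (v : ℝ) ^ n) ∧
      (m = 0 ∨ ¬ (u : ℤ) ∣ a) ∧ ∀ i j : ℕ, r.den ∣ u ^ i * v ^ j → m ≤ i ∧ n ≤ j := by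
  classical
  obtain ⟨i0, j0, h0⟩ := hr
  have hP : ∃ m, ∃ j, r.den ∣ u ^ m * v ^ j := ⟨i0, j0, h0⟩
  have hQ : ∃ n, ∃ i, r.den ∣ u ^ i * v ^ n := ⟨j0, i0, h0⟩
  set m := Nat.find hP with hm
  set n := Nat.find hQ with hn
  obtain ⟨j1, hj1⟩ := Nat.find_spec hP
  obtain ⟨i1, hi1⟩ := Nat.find_spec hQ
  rw [← hm] at hj1
  rw [← hn] at hi1
  have hD : r.den ∣ u ^ m * v ^ n := by
    set M := m + n + i1 + j1 with hM
    have d1 : r.den ∣ u ^ m * v ^ M := hj1.trans (mul_dvd_mul_left _ (pow_dvd_pow _ (by omega)))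
    have d2 : r.den ∣ u ^ M * v ^ n := hi1.trans (mul_dvd_mul_right (pow_dvd_pow _ (by omega)) _)
    have e1 : u ^ m * v ^ M = (u ^ m * v ^ n) * v ^ (M - n) := by
      rw [mul_assoc, ← pow_add]; congr 2; omega
    have e2 : u ^ M * v ^ n = (u ^ m * v ^ n) * u ^ (M - m) := by
      have : u ^ M = u ^ m * u ^ (M - m) := by rw [← pow_add]; congr 1; omega
      rw [this]; ring
    have d3 := Nat.dvd_gcd d1 d2
    rw [e1, e2, Nat.gcd_mul_left,
      Nat.Coprime.gcd_eq_one (Nat.Coprime.pow _ _ huv.symm), mul_one] at d3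
    exact d3
  obtain ⟨t, ht⟩ := hD
  have hden : (r.den : ℝ) ≠ 0 := by exact_mod_cast r.den_ne_zero
  have hE : ((u : ℝ) ^ m * (v : ℝ) ^ n) = r.den * t := by exact_mod_cast ht
  have ht0 : (t : ℝ) ≠ 0 := by
    intro h
    rw [h, mul_zero] at hE
    have : (0 : ℝ) < (u : ℝ) ^ m * (v : ℝ) ^ n := by
      have : (0 : ℝ) < u := by exact_mod_cast (by omega : 0 < u)
      have : (0 : ℝ) < v := by exact_mod_cast (by omega : 0 < v)
      positivity
    linarith
  refine ⟨m, n, r.num * t, ?_, ?_, ?_⟩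
  · rw [hE, Rat.cast_def]
    push_cast
    field_simp
  · by_cases hm0 : m = 0
    · exact Or.inl hm0
    · right
      rintro ⟨b, hb⟩
      have hlt : m - 1 < m := by omega
      refine Nat.find_min hP hlt ⟨n, ?_⟩
      -- r = b / (u^(m-1) v^n)
      have hu0 : (u : ℚ) ≠ 0 := by exact_mod_cast (by omega : u ≠ 0)
      have hv0 : (v : ℚ) ≠ 0 := by exact_mod_cast (by omega : v ≠ 0)
      have htq : (t : ℚ) ≠ 0 := by exact_mod_cast ht0
      have hdq : (r.den : ℚ) ≠ 0 := by exact_mod_cast r.den_ne_zero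
      have hEq : ((u : ℚ) ^ m * (v : ℚ) ^ n) = r.den * t := by exact_mod_cast ht
      have hbq : (r.num : ℚ) * t = u * b := by exact_mod_cast hb
      have hum : (u : ℚ) ^ m = u ^ (m - 1) * u := by
        rw [← pow_succ]; congr 1; omega
      have e : r = (b : ℚ) / ((((u ^ (m - 1) * v ^ n : ℕ) : ℤ)) : ℚ) := by
        push_cast
        rw [eq_div_iff (by positivity)]
        conv_lhs => rw [← Rat.num_div_den r]
        have h3 : (r.num : ℚ) * ((u : ℚ) ^ (m - 1) * (v : ℚ) ^ n) * u * t= b * r.den * u * t := by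
          calc (r.num : ℚ) * ((u : ℚ) ^ (m - 1) * (v : ℚ) ^ n) * u * t
              = (r.num * t) * ((u ^ (m - 1) * u) * (v : ℚ) ^ n) := by ring
            _ = (u * b) * (r.den * t) := by rw [← hum, hEq, hbq]
            _ = b * r.den * u * t := by ring
        have h4 := mul_right_cancel₀ htq h3
        have h5 := mul_right_cancel₀ hu0 h4
        field_simp
        linarith
      have h6 := Rat.den_dvd (b : ℤ) ((u ^ (m - 1) * v ^ n : ℕ) : ℤ)
      rw [Rat.divInt_eq_div, ← e] at h6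
      exact_mod_cast h6
  · intro i j hij
    exact ⟨Nat.find_le ⟨j, hij⟩, Nat.find_le ⟨i, hij⟩⟩

/-- the lattice points of a triangle in a strip along the hypotenuse -/
lemma strip {l w : ℝ} (hl : 0 < l) (hw : 0 < w) (m n : ℕ) {A B : ℝ} (hAB : A ≤ B)
    (hB : (m : ℝ) * l + (n : ℝ) * w ≤ B) (S : Finset (ℕ × ℕ))
    (hS : ∀ c ∈ S, m ≤ c.1 ∧ n ≤ c.2 ∧ A ≤ (c.1 : ℝ) * l + (c.2 : ℝ) * w ∧
      (c.1 : ℝ) * l + (c.2 : ℝ) * w ≤ B) :
    (S.card : ℝ) ≤ ((B - ((m : ℝ) * l + (n : ℝ) * w)) / l + 1) * ((B - A) / w + 1) := by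
  classical
  set W : ℝ := B - ((m : ℝ) * l + (n : ℝ) * w) with hW
  have hW0 : 0 ≤ W := by rw [hW]; linarith
  set a : ℕ := ⌊W / l⌋₊ + 1 with ha
  set b : ℕ := ⌊(B - A) / w⌋₊ + 1 with hb
  have hBA : 0 ≤ (B - A) / w := div_nonneg (by linarith) hw.le
  -- the first coordinate takes at most `a` values
  have h1 : S.card ≤ b * (S.image Prod.fst).card := by
    refine Finset.card_le_mul_card_image S b fun x _ => ?_
    -- the fiber has at most `b` elements
    set T := {c ∈ S | c.1 = x} with hT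
    rcases T.eq_empty_or_nonempty with h0 | hne
    · rw [h0]; simp
    · have hinj : Set.InjOn Prod.snd (T : Set (ℕ × ℕ)) := by
        intro c hc d hd hcd
        rw [Finset.mem_coe, hT, Finset.mem_filter] at hc hd
        exact Prod.ext (hc.2.trans hd.2.symm) hcd
      rw [← Finset.card_image_of_injOn hinj]
      set U := T.image Prod.snd with hU
      have hUne : U.Nonempty := hne.image _
      set y0 := U.min' hUne with hy0
      have hsub : U ⊆ Finset.Ico y0 (y0 + b) := by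
        intro y hy
        rw [Finset.mem_Ico]
        refine ⟨U.min'_le y hy, ?_⟩
        obtain ⟨c, hc, rfl⟩ := Finset.mem_image.1 hy
        obtain ⟨d, hd, hd2⟩ := Finset.mem_image.1 (U.min'_mem hUne)
        rw [hT, Finset.mem_filter] at hc hd
        have hc' := hS c hc.1
        have hd' := hS d hd.1
        have e1 : (c.1 : ℝ) = x := by rw [hc.2]
        have e2 : (d.1 : ℝ) = x := by rw [hd.2]
        have e3 : (d.2 : ℝ) = y0 := by rw [hd2, hy0]
        have h3 : ((c.2 : ℝ) - y0) * w ≤ B - A := by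
          have := hc'.2.2.2
          have := hd'.2.2.1
          rw [e1] at *
          rw [e2] at *
          rw [e3] at *
          linarith
        have h4 : ((c.2 : ℝ) - y0) ≤ (B - A) / w := by rwa [le_div_iff₀ hw]
        have h5 : (c.2 : ℝ) < y0 + b := by
          have := Nat.lt_floor_add_one ((B - A) / w)
          rw [hb]; push_cast; linarith
        exact_mod_cast h5
      calc U.card ≤ (Finset.Ico y0 (y0 + b)).card := Finset.card_le_card hsub
        _ = b := by simp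
  have h2 : (S.image Prod.fst).card ≤ a := by
    have hsub : S.image Prod.fst ⊆ Finset.Ico m (m + a) := by
      intro x hx
      obtain ⟨c, hc, rfl⟩ := Finset.mem_image.1 hx
      have hc' := hS c hc
      rw [Finset.mem_Ico]
      refine ⟨hc'.1, ?_⟩
      have h3 : ((c.1 : ℝ) - m) * l ≤ W := by
        have h4 : (n : ℝ) * w ≤ (c.2 : ℝ) * w :=
          mul_le_mul_of_nonneg_right (by exact_mod_cast hc'.2.1) hw.le
        have := hc'.2.2.2
        rw [hW]; linarith
      have h4 : ((c.1 : ℝ) - m) ≤ W / l := by rwa [le_div_iff₀ hl]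
      have h5 : (c.1 : ℝ) < m + a := by
        have := Nat.lt_floor_add_one (W / l)
        rw [ha]; push_cast; linarith
      exact_mod_cast h5
    calc (S.image Prod.fst).card ≤ (Finset.Ico m (m + a)).card := Finset.card_le_card hsub
      _ = a := by simp
  have h3 : S.card ≤ b * a := h1.trans (Nat.mul_le_mul_left _ h2)
  have ha' : (a : ℝ) ≤ W / l + 1 := by
    rw [ha]; push_cast
    have := Nat.floor_le (div_nonneg hW0 hl.le)
    linarith
  have hb' : (b : ℝ) ≤ (B - A) / w + 1 := by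
    rw [hb]; push_cast
    have := Nat.floor_le hBA
    linarith
  calc (S.card : ℝ) ≤ ((b * a : ℕ) : ℝ) := by exact_mod_cast h3
    _ = a * b := by push_cast; ring
    _ ≤ (W / l + 1) * ((B - A) / w + 1) := by
        apply mul_le_mul ha' hb' (by positivity)
        have := div_nonneg hW0 hl.le
        linarith

/-- a lift to `[1, 2)` -/
lemma exists_lift (z : UnitAddCircle) : ∃ θ : ℝ, 1 ≤ θ ∧ θ < 2 ∧ (θ : UnitAddCircle) = z := by
  have : Fact ((0 : ℝ) < 1) := ⟨one_pos⟩
  obtain ⟨θ, hθ, rfl⟩ := (AddCircle.coe_image_Ico_eq (p := (1 : ℝ)) (a := 1)).ge (Set.mem_univ z)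
  exact ⟨θ, hθ.1, by have := hθ.2; linarith, rfl⟩

/-- The visits of `u ^ i * v ^ j * z` to the annulus `exp (-C s) ≤ ‖x‖ ≤ exp (-s)` in the triangle
`i log u + j log v ≤ R`. -/
theorem count {u v : ℕ} (hu : 2 ≤ u) (hv : 2 ≤ v) (huv : Nat.Coprime u v) {C : ℝ} (hC : 1 ≤ C) :
    ∃ K : ℝ, 0 < K ∧ ∀ η : ℝ, 0 < η → ∃ R0 : ℝ, 1 ≤ R0 ∧ ∀ R s : ℝ, R0 ≤ R → η * R ≤ s →
      1 ≤ s → s ≤ R → ∀ z : UnitAddCircle, ∀ S : Finset (ℕ × ℕ),
      (∀ c ∈ S, lev u v c.1 c.2 ≤ R ∧ Real.exp (-(C * s)) ≤ ‖(u ^ c.1 * v ^ c.2) • z‖ ∧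
        ‖(u ^ c.1 * v ^ c.2) • z‖ ≤ Real.exp (-s)) → (S.card : ℝ) ≤ K * s * R := by
  classical
  have hlu : 0 < Real.log u := Real.log_pos (by exact_mod_cast (by omega : 1 < u))
  have hlv : 0 < Real.log v := Real.log_pos (by exact_mod_cast (by omega : 1 < v))
  set K1 : ℝ := (1 / Real.log u + 1) * ((C - 1) / Real.log v + 1) with hK1
  have hK1p : 0 < K1 := by
    have : 0 ≤ (C - 1) / Real.log v := div_nonneg (by linarith) hlv.le
    positivity
  refine ⟨K1 * (2 * (1 + C)), by positivity, fun η hη => ?_⟩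
  set η' : ℝ := η / (1 + C * η) with hη'
  have hη'p : 0 < η' := by positivity
  obtain ⟨N0, hN01, hN0⟩ := cluster_finset (Main.cluster hu hv huv) hη'p
  refine ⟨N0, hN01, fun R s hR hs hs1 hsR z S hS => ?_⟩
  obtain ⟨θ, hθ1, hθ2, rfl⟩ := exists_lift z
  set N : ℝ := R + C * s with hN
  have hNN0 : N0 ≤ N := by
    have : 0 ≤ C * s := by positivity
    linarith
  have hηN : η' * N ≤ s := by
    rw [hη', div_mul_eq_mul_div, div_le_iff₀ (by positivity), hN]
    nlinarith
  have hu0 : (0 : ℝ) < u := by exact_mod_cast (by omega : 0 < u)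
  have hv0 : (0 : ℝ) < v := by exact_mod_cast (by omega : 0 < v)
  -- the product
  set P : ℕ × ℕ → ℝ := fun c => (u : ℝ) ^ c.1 * (v : ℝ) ^ c.2 with hP
  have hPpos : ∀ c, 0 < P c := fun c => by positivity
  have hPlog : ∀ c, Real.log (P c) = lev u v c.1 c.2 := fun c => by
    rw [hP, lev]
    simp only
    rw [Real.log_mul (by positivity) (by positivity), Real.log_pow, Real.log_pow]
  -- the approximants
  set b : ℕ × ℕ → ℤ := fun c => round (P c * θ) with hb
  set r : ℕ × ℕ → ℚ := fun c => (b c : ℚ) / ((((u ^ c.1 * v ^ c.2 : ℕ)) : ℤ) : ℚ) with hr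
  have hrR : ∀ c, (r c : ℝ) = (b c : ℝ) / P c := fun c => by
    rw [hr, hP]; push_cast; ring
  have hden : ∀ c, (r c).den ∣ u ^ c.1 * v ^ c.2 := fun c => by
    have h6 := Rat.den_dvd (b c : ℤ) ((u ^ c.1 * v ^ c.2 : ℕ) : ℤ)
    rw [Rat.divInt_eq_div] at h6
    have h7 : (((r c).den : ℕ) : ℤ) ∣ ((u ^ c.1 * v ^ c.2 : ℕ) : ℤ) := h6
    exact Int.natCast_dvd_natCast.1 h7
  have hnorm : ∀ c : ℕ × ℕ, ‖(u ^ c.1 * v ^ c.2) • (θ : UnitAddCircle)‖ = P c * |θ - (r c : ℝ)| := by
    intro c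
    have e1 : (u ^ c.1 * v ^ c.2) • (θ : UnitAddCircle) = ((P c * θ : ℝ) : UnitAddCircle) := by
      rw [hP]
      have := (AddCircle.coe_nsmul (p := (1 : ℝ)) (n := u ^ c.1 * v ^ c.2) (x := θ)).symm
      rw [this]
      congr 1
      rw [nsmul_eq_mul]; push_cast; ring
    rw [e1, UnitAddCircle.norm_eq, hrR c]
    have hp := hPpos c
    have e2 : P c * θ - (b c : ℝ) = P c * (θ - (b c : ℝ) / P c) := by
      field_simp
    change |P c * θ - (b c : ℝ)| = _
    rw [e2, abs_mul, abs_of_pos hp]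
  set h : ℚ → ℝ := fun t => -Real.log |θ - (t : ℝ)| with hh
  -- for the visits
  have hvis : ∀ c ∈ S, 0 < |θ - (r c : ℝ)| ∧ s ≤ h (r c) - lev u v c.1 c.2 ∧
      h (r c) - lev u v c.1 c.2 ≤ C * s := by
    intro c hc
    obtain ⟨-, h2, h3⟩ := hS c hc
    rw [hnorm c] at h2 h3
    have hpos : 0 < P c * |θ - (r c : ℝ)| := lt_of_lt_of_le (Real.exp_pos _) h2
    have hpos2 : 0 < |θ - (r c : ℝ)| := by
      by_contra hcon
      have := mul_nonpos_of_nonneg_of_nonpos (hPpos c).le (not_lt.1 hcon)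
      linarith
    have elog : Real.log (P c * |θ - (r c : ℝ)|) = lev u v c.1 c.2 - h (r c) := by
      rw [Real.log_mul (hPpos c).ne' hpos2.ne', hPlog c, hh]; ring
    refine ⟨hpos2, ?_, ?_⟩
    · have := Real.log_le_log hpos h3
      rw [elog, Real.log_exp] at this
      linarith
    · have := Real.log_le_log (Real.exp_pos _) h2
      rw [elog, Real.log_exp] at this
      linarith
  set V : Finset ℚ := S.image r with hV
  -- the corners
  have hcor : ∀ t : ℚ, ∃ (m n : ℕ) (a : ℤ), t ∈ V → ((t : ℝ) = (a : ℝ) / ((u : ℝ) ^ m * (v : ℝ) ^ n) ∧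
      (m = 0 ∨ ¬ (u : ℤ) ∣ a) ∧ ∀ i j : ℕ, t.den ∣ u ^ i * v ^ j → m ≤ i ∧ n ≤ j) := by
    intro t
    by_cases ht : t ∈ V
    · obtain ⟨c, -, hct⟩ := Finset.mem_image.1 ht
      obtain ⟨m, n, a, hh⟩ := corner hu hv huv t ⟨c.1, c.2, by rw [← hct]; exact hden c⟩
      exact ⟨m, n, a, fun _ => hh⟩
    · exact ⟨0, 0, 0, fun h => absurd h ht⟩
  choose m n a hmna using hcor
  have hlev : ∀ c ∈ S, lev u v (m (r c)) (n (r c)) ≤ lev u v c.1 c.2 := by
    intro c hc
    have hrc : r c ∈ V := Finset.mem_image_of_mem _ hc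
    obtain ⟨h1, h2⟩ := (hmna (r c) hrc).2.2 c.1 c.2 (hden c)
    unfold lev
    have h3 : (m (r c) : ℝ) ≤ c.1 := by exact_mod_cast h1
    have h4 : (n (r c) : ℝ) ≤ c.2 := by exact_mod_cast h2
    nlinarith
  have hsum : ∑ t ∈ V, (h t - lev u v (m t) (n t)) ≤ 2 * N := by
    refine hN0 N hNN0 θ hθ1 hθ2 V a m n h fun t ht => ?_
    obtain ⟨c, hc, rfl⟩ := Finset.mem_image.1 ht
    obtain ⟨h1, h2, -⟩ := hmna _ ht
    obtain ⟨g1, g2, g3⟩ := hvis c hc
    refine ⟨h1, h2, ?_, ?_, ?_⟩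
    · have := (hS c hc).1
      rw [hN]; linarith
    · rw [hh]
      simp only [neg_neg]
      rw [Real.exp_log g1]
    · have := hlev c hc
      linarith
  -- the visits of one approximant
  have hfib : ∀ t ∈ V, (((S.filter (fun c => r c = t)).card : ℕ) : ℝ) ≤
      K1 * s * (h t - lev u v (m t) (n t)) := by
    intro t ht
    obtain ⟨c0, hc0, hc0t⟩ := Finset.mem_image.1 ht
    have hB0 : lev u v (m t) (n t) ≤ h t - s := by
      obtain ⟨g1, g2, g3⟩ := hvis c0 hc0
      have := hlev c0 hc0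
      rw [hc0t] at this g2
      linarith
    have hst := strip hlu hlv (m t) (n t) (A := h t - C * s) (B := h t - s) (by nlinarith)
      (by unfold lev at hB0; exact hB0) (S.filter (fun c => r c = t)) (by
        intro c hc
        rw [Finset.mem_filter] at hc
        obtain ⟨hcS, hct⟩ := hc
        obtain ⟨g1, g2, g3⟩ := hvis c hcS
        obtain ⟨e1, e2⟩ := (hmna t ht).2.2 c.1 c.2 (by rw [← hct]; exact hden c)
        rw [hct] at g2 g3
        unfold lev at g2 g3
        exact ⟨e1, e2, by linarith, by linarith⟩)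
    refine hst.trans ?_
    set X : ℝ := h t - lev u v (m t) (n t) with hX
    have hXs : s ≤ X := by rw [hX]; linarith
    have e1 : (h t - s - ((m t : ℝ) * Real.log u + (n t : ℝ) * Real.log v)) / Real.log u + 1 ≤
        (1 / Real.log u + 1) * X := by
      have : (h t - s - ((m t : ℝ) * Real.log u + (n t : ℝ) * Real.log v)) ≤ X := by
        rw [hX]; unfold lev; linarith
      have h2 := div_le_div_of_nonneg_right this hlu.le
      have h3 : (1 / Real.log u + 1) * X = X / Real.log u + X := by ring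
      rw [h3]; linarith
    have e2 : (h t - s - (h t - C * s)) / Real.log v + 1 ≤ ((C - 1) / Real.log v + 1) * s := by
      have h2 : (h t - s - (h t - C * s)) / Real.log v = ((C - 1) / Real.log v) * s := by
        field_simp; ring
      rw [h2, add_mul]; linarith
    calc ((h t - s - ((m t : ℝ) * Real.log u + (n t : ℝ) * Real.log v)) / Real.log u + 1) *
          ((h t - s - (h t - C * s)) / Real.log v + 1)
        ≤ ((1 / Real.log u + 1) * X) * (((C - 1) / Real.log v + 1) * s) := by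
          apply mul_le_mul e1 e2
          · have : 0 ≤ (h t - s - (h t - C * s)) / Real.log v :=
              div_nonneg (by nlinarith) hlv.le
            linarith
          · have : 0 ≤ X := by linarith
            positivity
      _ = K1 * s * X := by rw [hK1]; ring
  have hcard : (S.card : ℝ) = ∑ t ∈ V, (((S.filter (fun c => r c = t)).card : ℕ) : ℝ) := by
    rw [Finset.card_eq_sum_card_image r S]
    push_cast
    rfl
  rw [hcard]
  calc ∑ t ∈ V, (((S.filter (fun c => r c = t)).card : ℕ) : ℝ)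
      ≤ ∑ t ∈ V, K1 * s * (h t - lev u v (m t) (n t)) := Finset.sum_le_sum hfib
    _ = K1 * s * ∑ t ∈ V, (h t - lev u v (m t) (n t)) := by rw [Finset.mul_sum]
    _ ≤ K1 * s * (2 * N) := mul_le_mul_of_nonneg_left hsum (by positivity)
    _ ≤ K1 * s * (2 * ((1 + C) * R)) := by
        apply mul_le_mul_of_nonneg_left _ (by positivity)
        rw [hN]; nlinarith
    _ = K1 * (2 * (1 + C)) * s * R := by ring

end Pool.Agent.Q190.SV
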