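import Mathlib
import Pool.Agent.Q190.SV.Count
import Pool.Agent.TH461.FGK.Two

/-!
# The mass of an annulus, uniformly in the invariant measure
-/

set_option autoImplicit false

open MeasureTheory Finset

namespace Pool.Agent.Q190.SV

open Pool.Agent.H819 (TwoGen)

/-- invariance under `x ↦ p x` and `x ↦ q x` -/
def Inv (p q : ℕ) (μ : Measure UnitAddCircle) : Prop :=
  MeasurePreserving (fun x : UnitAddCircle => p • x) μ μ ∧
    MeasurePreserving (fun x : UnitAddCircle => q • x) μ μ

lemma pres_pow {p : ℕ} {μ : Measure UnitAddCircle}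
    (h : MeasurePreserving (fun x : UnitAddCircle => p • x) μ μ) (i : ℕ) :
    MeasurePreserving (fun x : UnitAddCircle => p ^ i • x) μ μ := by
  induction i with
  | zero =>
    simp only [pow_zero, one_smul]
    exact MeasurePreserving.id μ
  | succ i ih =>
    have := h.comp ih
    have e : (fun x : UnitAddCircle => p ^ (i + 1) • x) =
        (fun x : UnitAddCircle => p • x) ∘ (fun x : UnitAddCircle => p ^ i • x) := by
      funext x
      simp only [Function.comp_apply]
      rw [smul_smul, pow_succ, mul_comm]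
    rw [e]
    exact this

lemma Inv.pres {p q : ℕ} {μ : Measure UnitAddCircle} (h : Inv p q μ) (i j : ℕ) :
    MeasurePreserving (fun x : UnitAddCircle => (p ^ i * q ^ j) • x) μ μ := by
  have := (pres_pow h.1 i).comp (pres_pow h.2 j)
  have e : (fun x : UnitAddCircle => (p ^ i * q ^ j) • x) =
      (fun x : UnitAddCircle => p ^ i • x) ∘ (fun x : UnitAddCircle => q ^ j • x) := by
    funext x
    simp only [Function.comp_apply]
    rw [smul_smul]
  rw [e]
  exact this

/-- a uniform bound for the number of visits bounds the measure -/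
lemma measure_le {p q : ℕ} {μ : Measure UnitAddCircle} [IsProbabilityMeasure μ] (h : Inv p q μ)
    {A : Set UnitAddCircle} (hA : MeasurableSet A) (n : ℕ) {B : ℝ}
    (hB : ∀ x : UnitAddCircle, ∀ S : Finset (ℕ × ℕ), S ⊆ range n ×ˢ range n →
      (∀ c ∈ S, (p ^ c.1 * q ^ c.2) • x ∈ A) → (S.card : ℝ) ≤ B) :
    (n : ℝ) ^ 2 * μ.real A ≤ B := by
  classical
  have h1 : ∀ c : ℕ × ℕ, ∫ x, ((fun x : UnitAddCircle => (p ^ c.1 * q ^ c.2) • x) ⁻¹' A).indicator
      (1 : UnitAddCircle → ℝ) x ∂μ = μ.real A := by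
    intro c
    rw [integral_indicator_one ((h.pres c.1 c.2).measurable hA)]
    exact (h.pres c.1 c.2).measureReal_preimage hA.nullMeasurableSet
  have h2 : ∫ x, ∑ c ∈ range n ×ˢ range n,
      ((fun x : UnitAddCircle => (p ^ c.1 * q ^ c.2) • x) ⁻¹' A).indicator
      (1 : UnitAddCircle → ℝ) x ∂μ = (n : ℝ) ^ 2 * μ.real A := by
    rw [integral_finsetSum]
    · rw [Finset.sum_congr rfl (fun c _ => h1 c), Finset.sum_const, card_product, card_range,
        nsmul_eq_mul]
      push_cast; ring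
    · intro c _
      exact (integrable_const (1 : ℝ)).indicator ((h.pres c.1 c.2).measurable hA)
  rw [← h2]
  have h3 : ∀ x, ∑ c ∈ range n ×ˢ range n,
      ((fun x : UnitAddCircle => (p ^ c.1 * q ^ c.2) • x) ⁻¹' A).indicator
      (1 : UnitAddCircle → ℝ) x ≤ B := by
    intro x
    have e : ∑ c ∈ range n ×ˢ range n,
      ((fun x : UnitAddCircle => (p ^ c.1 * q ^ c.2) • x) ⁻¹' A).indicator
      (1 : UnitAddCircle → ℝ) x =
        (((range n ×ˢ range n).filter (fun c => (p ^ c.1 * q ^ c.2) • x ∈ A)).card : ℝ) := by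
      rw [Finset.card_filter]
      push_cast
      refine Finset.sum_congr rfl fun c _ => ?_
      simp only [Set.indicator_apply, Set.mem_preimage, Pi.one_apply]
    rw [e]
    exact hB x _ (Finset.filter_subset _ _) fun c hc => (Finset.mem_filter.1 hc).2
  calc (∫ x, ∑ c ∈ range n ×ˢ range n,
      ((fun x : UnitAddCircle => (p ^ c.1 * q ^ c.2) • x) ⁻¹' A).indicator
      (1 : UnitAddCircle → ℝ) x ∂μ) ≤ ∫ _, B ∂μ := by
        refine integral_mono ?_ (integrable_const B) h3
        refine integrable_finsetSum _ fun c _ => ?_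
        exact (integrable_const (1 : ℝ)).indicator ((h.pres c.1 c.2).measurable hA)
    _ = B := by simp

lemma closed_ge (a : ℝ) : MeasurableSet {x : UnitAddCircle | a ≤ ‖x‖} :=
  (isClosed_le continuous_const continuous_norm).measurableSet

lemma closed_le (a : ℝ) : MeasurableSet {x : UnitAddCircle | ‖x‖ ≤ a} :=
  (isClosed_le continuous_norm continuous_const).measurableSet

lemma open_lt (a : ℝ) : MeasurableSet {x : UnitAddCircle | ‖x‖ < a} :=
  (isOpen_lt continuous_norm continuous_const).measurableSet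

/-- visits of an orbit of `×p, ×q` to an annulus, in a square window -/
theorem visits {p q : ℕ} (h : TwoGen p q) {C : ℝ} (hC : 1 ≤ C) :
    ∃ K : ℝ, 0 < K ∧ ∀ η : ℝ, 0 < η → ∃ R0 : ℝ, 1 ≤ R0 ∧ ∀ (n : ℕ) (s : ℝ), R0 ≤ n →
      η * n ≤ s → 1 ≤ s → s ≤ n → ∀ z : UnitAddCircle, ∀ S : Finset (ℕ × ℕ),
      S ⊆ range n ×ˢ range n →
      (∀ c ∈ S, Real.exp (-(C * s)) ≤ ‖(p ^ c.1 * q ^ c.2) • z‖ ∧
        ‖(p ^ c.1 * q ^ c.2) • z‖ ≤ Real.exp (-s)) → (S.card : ℝ) ≤ K * s * n := by
  classical
  have hp := h.two_le_left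
  have hq := h.two_le_right
  obtain ⟨u, v, a, b, c, d, hu, hv, huv, hpe, hqe, hne⟩ := h
  have hlp : 0 < Real.log p := Real.log_pos (by exact_mod_cast (by omega : 1 < p))
  have hlq : 0 < Real.log q := Real.log_pos (by exact_mod_cast (by omega : 1 < q))
  have hu0 : (0 : ℝ) < u := by exact_mod_cast (by omega : 0 < u)
  have hv0 : (0 : ℝ) < v := by exact_mod_cast (by omega : 0 < v)
  have elp : Real.log p = a * Real.log u + b * Real.log v := by
    rw [hpe]; push_cast
    rw [Real.log_mul (by positivity) (by positivity), Real.log_pow, Real.log_pow]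
  have elq : Real.log q = c * Real.log u + d * Real.log v := by
    rw [hqe]; push_cast
    rw [Real.log_mul (by positivity) (by positivity), Real.log_pow, Real.log_pow]
  obtain ⟨K, hK, hcount⟩ := count hu hv huv hC
  set L : ℝ := Real.log p + Real.log q + 1 with hL
  have hL1 : 1 ≤ L := by rw [hL]; linarith
  refine ⟨K * L, by positivity, fun η hη => ?_⟩
  obtain ⟨R0, hR01, hR0⟩ := hcount (η / L) (by positivity)
  refine ⟨R0, hR01, fun n s hn hs hs1 hsn z S hS hS2 => ?_⟩
  have hn0 : (0 : ℝ) < n := lt_of_lt_of_le one_pos (hR01.trans hn)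
  set g : ℕ × ℕ → ℕ × ℕ := fun x => (a * x.1 + c * x.2, b * x.1 + d * x.2) with hg
  have ginj : Function.Injective g := by
    intro x y hxy
    rw [hg] at hxy
    simp only [Prod.mk.injEq] at hxy
    obtain ⟨h1, h2⟩ := hxy
    have h1' : (a : ℤ) * (x.1 - y.1) + c * (x.2 - y.2) = 0 := by
      have : (a : ℤ) * x.1 + c * x.2 = a * y.1 + c * y.2 := by exact_mod_cast h1
      linarith
    have h2' : (b : ℤ) * (x.1 - y.1) + d * (x.2 - y.2) = 0 := by
      have : (b : ℤ) * x.1 + d * x.2 = b * y.1 + d * y.2 := by exact_mod_cast h2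
      linarith
    have hne' : (a : ℤ) * d - b * c ≠ 0 := by
      intro h0
      apply hne
      have : (a : ℤ) * d = b * c := by linarith
      exact_mod_cast this
    have e1 : ((a : ℤ) * d - b * c) * (x.1 - y.1) = 0 := by
      have : ((a : ℤ) * d - b * c) * (x.1 - y.1) =
          d * ((a : ℤ) * (x.1 - y.1) + c * (x.2 - y.2)) -
          c * ((b : ℤ) * (x.1 - y.1) + d * (x.2 - y.2)) := by ring
      rw [this, h1', h2']; ring
    have e2 : ((a : ℤ) * d - b * c) * (x.2 - y.2) = 0 := by
      have : ((a : ℤ) * d - b * c) * (x.2 - y.2) =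
          a * ((b : ℤ) * (x.1 - y.1) + d * (x.2 - y.2)) -
          b * ((a : ℤ) * (x.1 - y.1) + c * (x.2 - y.2)) := by ring
      rw [this, h1', h2']; ring
    have f1 := (mul_eq_zero.1 e1).resolve_left hne'
    have f2 := (mul_eq_zero.1 e2).resolve_left hne'
    exact Prod.ext (by omega) (by omega)
  have hgp : ∀ x : ℕ × ℕ, u ^ (g x).1 * v ^ (g x).2 = p ^ x.1 * q ^ x.2 := by
    intro x
    rw [hg, hpe, hqe]
    simp only
    rw [mul_pow, mul_pow, pow_add, pow_add, ← pow_mul, ← pow_mul, ← pow_mul, ← pow_mul]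
    ring
  have key := hR0 (n * L) s (by nlinarith) (by
      have : η / L * (n * L) = η * n := by field_simp
      rw [this]; exact hs) hs1 (by nlinarith) z (S.image g) (by
      intro y hy
      obtain ⟨x, hx, rfl⟩ := Finset.mem_image.1 hy
      obtain ⟨h1, h2⟩ := hS2 x hx
      have hxS := hS hx
      rw [Finset.mem_product, Finset.mem_range, Finset.mem_range] at hxS
      refine ⟨?_, ?_, ?_⟩
      · have e : lev u v (g x).1 (g x).2 = x.1 * Real.log p + x.2 * Real.log q := by
          rw [lev, hg, elp, elq]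
          push_cast
          ring
        rw [e, hL]
        have h3 : (x.1 : ℝ) ≤ n := by exact_mod_cast hxS.1.le
        have h4 : (x.2 : ℝ) ≤ n := by exact_mod_cast hxS.2.le
        nlinarith
      · rw [hgp]; exact h1
      · rw [hgp]; exact h2)
  rw [Finset.card_image_of_injective _ ginj] at key
  calc (S.card : ℝ) ≤ K * s * (n * L) := key
    _ = K * L * s * n := by ring

/-- **The mass of an annulus**, uniformly in the invariant measure. -/
theorem band {p q : ℕ} (h : TwoGen p q) {C ε : ℝ} (hC : 1 ≤ C) (hε : 0 < ε) :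
    ∃ s0 : ℝ, 1 ≤ s0 ∧ ∀ s : ℝ, s0 ≤ s → ∀ μ : Measure UnitAddCircle, IsProbabilityMeasure μ →
      Inv p q μ → μ.real {x | Real.exp (-(C * s)) ≤ ‖x‖ ∧ ‖x‖ ≤ Real.exp (-s)} ≤ ε := by
  obtain ⟨K, hK, hv⟩ := visits h hC
  set H : ℝ := K / ε + 1 with hH
  have hH1 : 1 ≤ H := by
    have : 0 < K / ε := by positivity
    rw [hH]; linarith
  obtain ⟨R0, hR01, hR0⟩ := hv (1 / (H + 1)) (by positivity)
  refine ⟨R0, hR01, fun s hs μ hμ hinv => ?_⟩
  set n : ℕ := ⌈H * s⌉₊ with hn
  have hs1 : 1 ≤ s := hR01.trans hs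
  have hn1 : H * s ≤ n := Nat.le_ceil _
  have hn2 : (n : ℝ) < H * s + 1 := Nat.ceil_lt_add_one (by positivity)
  have hsn : s ≤ n := by nlinarith
  have hnpos : (0 : ℝ) < n := by linarith
  have hA : MeasurableSet {x : UnitAddCircle | Real.exp (-(C * s)) ≤ ‖x‖ ∧ ‖x‖ ≤ Real.exp (-s)} :=
    (closed_ge _).inter (closed_le _)
  have key := measure_le hinv hA n (B := K * s * n) (fun x S hS hS2 =>
    hR0 n s (hs.trans hsn) (by
      rw [one_div, inv_mul_le_iff₀ (by positivity)]
      nlinarith) hs1 hsn x S hS hS2)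
  set M := μ.real {x : UnitAddCircle | Real.exp (-(C * s)) ≤ ‖x‖ ∧ ‖x‖ ≤ Real.exp (-s)} with hM
  have h1 : (n : ℝ) * M ≤ K * s := by
    have : (n : ℝ) * (n * M) ≤ n * (K * s) := by nlinarith
    exact le_of_mul_le_mul_left this hnpos
  have hM0 : 0 ≤ M := measureReal_nonneg
  have h2 : H * s * M ≤ K * s := (mul_le_mul_of_nonneg_right hn1 hM0).trans h1
  have h3 : H * M ≤ K := by
    have : s * (H * M) ≤ s * K := by nlinarith
    exact le_of_mul_le_mul_left this (by linarith)
  have h4 : K / ε * M ≤ K := by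
    have : K / ε * M ≤ H * M := mul_le_mul_of_nonneg_right (by rw [hH]; linarith) hM0
    linarith
  have h5 : K * M ≤ K * ε := by
    have := mul_le_mul_of_nonneg_right h4 hε.le
    have e : K / ε * M * ε = K * M := by field_simp
    rw [e] at this
    exact this
  exact le_of_mul_le_mul_left h5 hK

end Pool.Agent.Q190.SV
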