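import Mathlib
import Pool.Agent.Q190.SV.Band

/-!
# Sums of independent copies
-/

set_option autoImplicit false

open MeasureTheory Finset

namespace Pool.Agent.Q190.SV


/-- the truncated norm -/
noncomputable def phi (τ : ℝ) (x : UnitAddCircle) : ℝ := {x : UnitAddCircle | ‖x‖ < τ}.indicator (fun x => ‖x‖) x

lemma phi_nonneg (τ : ℝ) (x : UnitAddCircle) : 0 ≤ phi τ x :=
  Set.indicator_nonneg (fun _ _ => norm_nonneg _) x

lemma phi_le (τ : ℝ) (x : UnitAddCircle) : phi τ x ≤ ‖x‖ := by
  unfold phi
  exact Set.indicator_le_self' (fun _ _ => norm_nonneg _) x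

lemma phi_of_lt {τ : ℝ} {x : UnitAddCircle} (h : ‖x‖ < τ) : phi τ x = ‖x‖ := by
  unfold phi
  exact Set.indicator_of_mem (s := {x : UnitAddCircle | ‖x‖ < τ}) h _

lemma norm_le_one (x : UnitAddCircle) : ‖x‖ ≤ 1 := by
  have := AddCircle.norm_le_half_period (1 : ℝ) (x := x) one_ne_zero
  rw [abs_one] at this
  linarith

lemma phi_int (τ : ℝ) (μ : Measure UnitAddCircle) [IsProbabilityMeasure μ] : Integrable (phi τ) μ := by
  refine Integrable.indicator ?_ (open_lt τ)
  refine Integrable.of_bound (C := 1) continuous_norm.aestronglyMeasurable ?_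
  exact Filter.Eventually.of_forall fun x => by
    rw [norm_norm]; exact norm_le_one x

/-- the law of the sum of `m` independent copies -/
noncomputable def convPow (μ : Measure UnitAddCircle) (m : ℕ) : Measure UnitAddCircle :=
  (Measure.pi (fun _ : Fin m => μ)).map (fun x => ∑ i, x i)

lemma sum_meas (m : ℕ) : Measurable (fun x : Fin m → UnitAddCircle => ∑ i, x i) :=
  Finset.measurable_sum _ fun i _ => measurable_pi_apply i

instance convPow_prob (μ : Measure UnitAddCircle) [IsProbabilityMeasure μ] (m : ℕ) :
    IsProbabilityMeasure (convPow μ m) :=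
  Measure.isProbabilityMeasure_map (sum_meas m).aemeasurable

lemma convPow_pres {p : ℕ} {μ : Measure UnitAddCircle} [IsProbabilityMeasure μ]
    (h : MeasurePreserving (fun x : UnitAddCircle => p • x) μ μ) (m : ℕ) :
    MeasurePreserving (fun x : UnitAddCircle => p • x) (convPow μ m) (convPow μ m) := by
  have h1 : MeasurePreserving (fun (x : Fin m → UnitAddCircle) i => p • x i)
      (Measure.pi (fun _ : Fin m => μ)) (Measure.pi (fun _ : Fin m => μ)) :=
    measurePreserving_pi (fun _ => μ) (fun _ => μ) (fun _ => h)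
  refine ⟨h.measurable, ?_⟩
  unfold convPow
  rw [Measure.map_map h.measurable (sum_meas m)]
  have e : (fun x : UnitAddCircle => p • x) ∘ (fun x : Fin m → UnitAddCircle => ∑ i, x i) =
      (fun x : Fin m → UnitAddCircle => ∑ i, x i) ∘ (fun (x : Fin m → UnitAddCircle) i => p • x i) := by
    funext x
    simp only [Function.comp_apply, Finset.smul_sum]
  rw [e, ← Measure.map_map (sum_meas m) h1.measurable, h1.map_eq]

lemma convPow_inv {p q : ℕ} {μ : Measure UnitAddCircle} [IsProbabilityMeasure μ] (h : Inv p q μ) (m : ℕ) :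
    Inv p q (convPow μ m) :=
  ⟨convPow_pres h.1 m, convPow_pres h.2 m⟩

/-- one large summand, the others small -/
theorem conv_lower (μ : Measure UnitAddCircle) [IsProbabilityMeasure μ] (m : ℕ) {α β τ : ℝ} (hβ : 0 < β)
    (hτ : τ ≤ β) :
    (m : ℝ) * (μ.real {x | β ≤ ‖x‖ ∧ ‖x‖ < α}) *
      ((1 - μ.real {x | τ ≤ ‖x‖}) ^ (m - 1) - 2 / β * ((m - 1 : ℕ) : ℝ) * ∫ x, phi τ x ∂μ) ≤
    (convPow μ m).real {z | β / 2 ≤ ‖z‖ ∧ ‖z‖ ≤ α + β / 2} := by
  classical
  set B : Set UnitAddCircle := {x | β ≤ ‖x‖ ∧ ‖x‖ < α} with hB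
  set S : Set UnitAddCircle := {x | ‖x‖ < τ} with hS
  have hBm : MeasurableSet B := (closed_ge _).inter (open_lt _)
  have hSm : MeasurableSet S := open_lt _
  set A : Set UnitAddCircle := {z | β / 2 ≤ ‖z‖ ∧ ‖z‖ ≤ α + β / 2} with hA
  have hAm : MeasurableSet A := (closed_ge _).inter (closed_le _)
  set π := Measure.pi (fun _ : Fin m => μ) with hπ
  -- the functions of the coordinates
  set f1 : Fin m → Fin m → UnitAddCircle → ℝ := fun i k =>
    if k = i then B.indicator 1 else S.indicator 1 with hf1
  set f2 : Fin m → Fin m → Fin m → UnitAddCircle → ℝ := fun i j k =>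
    if k = i then B.indicator 1 else if k = j then phi τ else fun _ => 1 with hf2
  have hSreal : μ.real S = 1 - μ.real {x | τ ≤ ‖x‖} := by
    have e : {x : UnitAddCircle | τ ≤ ‖x‖} = Sᶜ := by
      ext x; simp [hS, not_lt]
    rw [e, probReal_compl_eq_one_sub hSm]; ring
  have i1 : ∫ x, B.indicator (1 : UnitAddCircle → ℝ) x ∂μ = μ.real B := integral_indicator_one hBm
  have i2 : ∫ x, S.indicator (1 : UnitAddCircle → ℝ) x ∂μ = μ.real S := integral_indicator_one hSm
  have int1 : ∀ i k, Integrable (f1 i k) μ := by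
    intro i k
    rw [hf1]
    simp only
    split_ifs
    · exact (integrable_const (1 : ℝ)).indicator hBm
    · exact (integrable_const (1 : ℝ)).indicator hSm
  have int2 : ∀ i j k, Integrable (f2 i j k) μ := by
    intro i j k
    rw [hf2]
    simp only
    split_ifs
    · exact (integrable_const (1 : ℝ)).indicator hBm
    · exact phi_int τ μ
    · exact integrable_const _
  have I1 : ∀ i, ∫ x, ∏ k, f1 i k (x k) ∂π = μ.real B * μ.real S ^ (m - 1) := by
    intro i
    rw [hπ, integral_fintype_prod_eq_prod (fun k => f1 i k)]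
    rw [← Finset.mul_prod_erase univ _ (Finset.mem_univ i)]
    have e1 : ∫ x, f1 i i x ∂μ = μ.real B := by
      rw [hf1]; simp only [if_true]; exact i1
    have e2 : ∀ k ∈ univ.erase i, ∫ x, f1 i k x ∂μ = μ.real S := by
      intro k hk
      rw [hf1]; simp only [if_neg (Finset.ne_of_mem_erase hk)]; exact i2
    rw [e1, Finset.prod_congr rfl e2, Finset.prod_const, Finset.card_erase_of_mem (mem_univ i),
      card_univ, Fintype.card_fin]
  have I2 : ∀ i j, j ≠ i → ∫ x, ∏ k, f2 i j k (x k) ∂π = μ.real B * ∫ x, phi τ x ∂μ := by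
    intro i j hji
    rw [hπ, integral_fintype_prod_eq_prod (fun k => f2 i j k)]
    rw [← Finset.mul_prod_erase univ _ (Finset.mem_univ i),
      ← Finset.mul_prod_erase (univ.erase i) _ (Finset.mem_erase.2 ⟨hji, Finset.mem_univ j⟩)]
    have e1 : ∫ x, f2 i j i x ∂μ = μ.real B := by
      rw [hf2]; simp only [if_true]; exact i1
    have e2 : ∫ x, f2 i j j x ∂μ = ∫ x, phi τ x ∂μ := by
      rw [hf2]; simp only [if_neg hji, if_true]
    have e3 : ∀ k ∈ (univ.erase i).erase j, ∫ x, f2 i j k x ∂μ = 1 := by
      intro k hk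
      have hkj := Finset.ne_of_mem_erase hk
      have hki := Finset.ne_of_mem_erase (Finset.mem_of_mem_erase hk)
      rw [hf2]; simp only [if_neg hki, if_neg hkj]; simp
    rw [e1, e2, Finset.prod_congr rfl e3, Finset.prod_const_one, mul_one]
  have J1 : ∀ i, Integrable (fun x : Fin m → UnitAddCircle => ∏ k, f1 i k (x k)) π := fun i =>
    Integrable.fintype_prod (fun k => int1 i k)
  have J2 : ∀ i j, Integrable (fun x : Fin m → UnitAddCircle => ∏ k, f2 i j k (x k)) π := fun i j =>
    Integrable.fintype_prod (fun k => int2 i j k)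
  -- the lower function
  set g : (Fin m → UnitAddCircle) → ℝ := fun x => ∑ i, (∏ k, f1 i k (x k) -
    2 / β * ∑ j ∈ univ.erase i, ∏ k, f2 i j k (x k)) with hg
  have hgint : Integrable g π := by
    refine integrable_finsetSum _ fun i _ => ?_
    exact (J1 i).sub ((integrable_finsetSum _ fun j _ => J2 i j).const_mul _)
  have hgval : ∫ x, g x ∂π = (m : ℝ) * μ.real B *
      ((1 - μ.real {x | τ ≤ ‖x‖}) ^ (m - 1) - 2 / β * ((m - 1 : ℕ) : ℝ) * ∫ x, phi τ x ∂μ) := by
    rw [hg, integral_finsetSum]
    · have e : ∀ i ∈ (univ : Finset (Fin m)), ∫ x, (∏ k, f1 i k (x k) -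
          2 / β * ∑ j ∈ univ.erase i, ∏ k, f2 i j k (x k)) ∂π =
          μ.real B * ((1 - μ.real {x | τ ≤ ‖x‖}) ^ (m - 1) -
            2 / β * ((m - 1 : ℕ) : ℝ) * ∫ x, phi τ x ∂μ) := by
        intro i _
        rw [integral_sub (J1 i) ((integrable_finsetSum _ fun j _ => J2 i j).const_mul _), I1 i,
          integral_const_mul, integral_finsetSum _ (fun j _ => J2 i j),
          Finset.sum_congr rfl (fun j hj => I2 i j (Finset.ne_of_mem_erase hj)),
          Finset.sum_const, Finset.card_erase_of_mem (mem_univ i), card_univ, Fintype.card_fin,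
          hSreal, nsmul_eq_mul]
        ring
      rw [Finset.sum_congr rfl e, Finset.sum_const, card_univ, Fintype.card_fin, nsmul_eq_mul]
      ring
    · intro i _
      exact (J1 i).sub ((integrable_finsetSum _ fun j _ => J2 i j).const_mul _)
  -- products in terms of the coordinates
  have prod2 : ∀ i j, j ≠ i → ∀ x : Fin m → UnitAddCircle, ∏ k, f2 i j k (x k) =
      B.indicator 1 (x i) * phi τ (x j) := by
    intro i j hji x
    rw [← Finset.mul_prod_erase univ _ (Finset.mem_univ i),
      ← Finset.mul_prod_erase (univ.erase i) _ (Finset.mem_erase.2 ⟨hji, Finset.mem_univ j⟩)]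
    have e3 : ∀ k ∈ (univ.erase i).erase j, f2 i j k (x k) = 1 := by
      intro k hk
      have hkj := Finset.ne_of_mem_erase hk
      have hki := Finset.ne_of_mem_erase (Finset.mem_of_mem_erase hk)
      rw [hf2]; simp only [if_neg hki, if_neg hkj]
    rw [Finset.prod_congr rfl e3, Finset.prod_const_one, mul_one, hf2]
    simp only [if_true, if_neg hji]
  have ind01 : ∀ (E : Set UnitAddCircle) (y : UnitAddCircle), 0 ≤ E.indicator (1 : UnitAddCircle → ℝ) y ∧
      E.indicator (1 : UnitAddCircle → ℝ) y ≤ 1 := by
    intro E y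
    by_cases hy : y ∈ E
    · rw [Set.indicator_of_mem hy]; simp
    · rw [Set.indicator_of_notMem hy]; simp
  have f101 : ∀ i k (y : UnitAddCircle), 0 ≤ f1 i k y ∧ f1 i k y ≤ 1 := by
    intro i k y
    rw [hf1]
    simp only
    split_ifs
    · exact ind01 B y
    · exact ind01 S y
  -- the pointwise inequality
  have hpt : ∀ x, g x ≤ A.indicator (1 : UnitAddCircle → ℝ) (∑ i, x i) := by
    intro x
    by_cases hc : ∃ i, x i ∈ B ∧ (∀ j, j ≠ i → x j ∈ S) ∧ ∑ j ∈ univ.erase i, ‖x j‖ ≤ β / 2
    · obtain ⟨i, hi, hj, hsum⟩ := hc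
      have hsplit : ∑ k, x k = x i + ∑ k ∈ univ.erase i, x k :=
        (Finset.add_sum_erase univ x (Finset.mem_univ i)).symm
      have hrest : ‖∑ k ∈ univ.erase i, x k‖ ≤ β / 2 := (norm_sum_le _ _).trans hsum
      have hmem : (∑ k, x k) ∈ A := by
        rw [hsplit]
        constructor
        · have h1 := norm_sub_norm_le (x i) (-(∑ k ∈ univ.erase i, x k))
          rw [norm_neg, sub_neg_eq_add] at h1
          have := hi.1
          linarith
        · have h1 := norm_add_le (x i) (∑ k ∈ univ.erase i, x k)
          have := hi.2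
          linarith
      rw [Set.indicator_of_mem hmem, Pi.one_apply]
      have hothers : ∀ k ∈ univ.erase i, (∏ l, f1 k l (x l) -
          2 / β * ∑ j ∈ univ.erase k, ∏ l, f2 k j l (x l)) = 0 := by
        intro k hk
        have hki := Finset.ne_of_mem_erase hk
        have hkB : x k ∉ B := by
          intro hcon
          have h1 := hj k hki
          have h2 := hcon.1
          simp only [hS, Set.mem_ofPred_eq] at h1
          linarith
        have e1 : ∏ l, f1 k l (x l) = 0 := by
          refine Finset.prod_eq_zero (Finset.mem_univ k) ?_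
          rw [hf1]
          simp only [if_true]
          exact Set.indicator_of_notMem hkB _
        have e2 : ∑ j ∈ univ.erase k, ∏ l, f2 k j l (x l) = 0 := by
          refine Finset.sum_eq_zero fun j hj' => ?_
          rw [prod2 k j (Finset.ne_of_mem_erase hj') x, Set.indicator_of_notMem hkB, zero_mul]
        rw [e1, e2]; ring
      have hgx : g x = (∏ l, f1 i l (x l) -
          2 / β * ∑ j ∈ univ.erase i, ∏ l, f2 i j l (x l)) := by
        rw [hg]
        simp only
        rw [← Finset.add_sum_erase univ _ (Finset.mem_univ i), Finset.sum_eq_zero hothers, add_zero]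
      rw [hgx]
      have h1 : ∏ l, f1 i l (x l) ≤ 1 :=
        Finset.prod_le_one (fun l _ => (f101 i l (x l)).1) (fun l _ => (f101 i l (x l)).2)
      have h2 : 0 ≤ ∑ j ∈ univ.erase i, ∏ l, f2 i j l (x l) := by
        refine Finset.sum_nonneg fun j hj' => ?_
        rw [prod2 i j (Finset.ne_of_mem_erase hj') x]
        exact mul_nonneg (ind01 B _).1 (phi_nonneg _ _)
      have h3 : 0 ≤ 2 / β * ∑ j ∈ univ.erase i, ∏ l, f2 i j l (x l) := by positivity
      linarith
    · push Not at hc
      have hle : g x ≤ 0 := by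
        rw [hg]
        refine Finset.sum_nonpos fun i _ => ?_
        have hsumeq : ∑ j ∈ univ.erase i, ∏ l, f2 i j l (x l) =
            B.indicator 1 (x i) * ∑ j ∈ univ.erase i, phi τ (x j) := by
          rw [Finset.mul_sum]
          exact Finset.sum_congr rfl fun j hj' => prod2 i j (Finset.ne_of_mem_erase hj') x
        rw [hsumeq]
        by_cases hiB : x i ∈ B
        · by_cases hall : ∀ j, j ≠ i → x j ∈ S
          · have h1 := hc i hiB hall
            have e : ∑ j ∈ univ.erase i, phi τ (x j) = ∑ j ∈ univ.erase i, ‖x j‖ :=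
              Finset.sum_congr rfl fun j hj' => phi_of_lt (hall j (Finset.ne_of_mem_erase hj'))
            rw [e, Set.indicator_of_mem hiB, Pi.one_apply, one_mul]
            have h2 : ∏ l, f1 i l (x l) ≤ 1 :=
              Finset.prod_le_one (fun l _ => (f101 i l (x l)).1) (fun l _ => (f101 i l (x l)).2)
            have h3 : 1 < 2 / β * ∑ j ∈ univ.erase i, ‖x j‖ := by
              rw [div_mul_eq_mul_div, lt_div_iff₀ hβ]; linarith
            linarith
          · push Not at hall
            obtain ⟨j, hji, hjS⟩ := hall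
            have e1 : ∏ l, f1 i l (x l) = 0 := by
              refine Finset.prod_eq_zero (Finset.mem_univ j) ?_
              rw [hf1]
              simp only [if_neg hji]
              exact Set.indicator_of_notMem hjS _
            rw [e1]
            have h3 : 0 ≤ 2 / β * (B.indicator (1 : UnitAddCircle → ℝ) (x i) *
                ∑ j ∈ univ.erase i, phi τ (x j)) :=
              mul_nonneg (by positivity) (mul_nonneg (ind01 B _).1
                (Finset.sum_nonneg fun j _ => phi_nonneg _ _))
            linarith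
        · have e1 : ∏ l, f1 i l (x l) = 0 := by
            refine Finset.prod_eq_zero (Finset.mem_univ i) ?_
            rw [hf1]
            simp only [if_true]
            exact Set.indicator_of_notMem hiB _
          rw [e1, Set.indicator_of_notMem hiB]
          simp
      exact hle.trans (ind01 A _).1
  rw [← hgval]
  have hfin : (convPow μ m).real A = ∫ x, A.indicator (1 : UnitAddCircle → ℝ) (∑ i, x i) ∂π := by
    rw [← integral_indicator_one hAm]
    unfold convPow
    rw [integral_map (sum_meas m).aemeasurable]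
    exact ((measurable_one.indicator hAm)).aestronglyMeasurable
  rw [hfin]
  refine integral_mono hgint ?_ hpt
  refine Integrable.of_bound (C := 1) ?_ ?_
  · exact ((measurable_one.indicator hAm).comp (sum_meas m)).aestronglyMeasurable
  · exact Filter.Eventually.of_forall fun x => by
      rw [Real.norm_eq_abs, abs_le]
      have := ind01 A (∑ i, x i)
      constructor <;> linarith [this.1, this.2]

end Pool.Agent.Q190.SV
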