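import Mathlib
import Pool.Agent.Q190.SV.Conv

/-!
# Slow variation, uniformly in the invariant measure
-/

set_option autoImplicit false

open MeasureTheory Finset Filter Topology

namespace Pool.Agent.Q190.SV

open Pool.Agent.H819 (TwoGen)


/-- the tail function -/
noncomputable def F (μ : Measure UnitAddCircle) (s : ℝ) : ℝ := μ.real {x | Real.exp (-s) ≤ ‖x‖}

lemma F_nonneg (μ : Measure UnitAddCircle) (s : ℝ) : 0 ≤ F μ s := measureReal_nonneg

lemma F_le_one (μ : Measure UnitAddCircle) [IsProbabilityMeasure μ] (s : ℝ) : F μ s ≤ 1 := measureReal_le_one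

lemma F_mono (μ : Measure UnitAddCircle) [IsProbabilityMeasure μ] {s t : ℝ} (h : s ≤ t) : F μ s ≤ F μ t :=
  measureReal_mono fun x (hx : Real.exp (-s) ≤ ‖x‖) =>
    (Real.exp_le_exp.2 (by linarith)).trans hx

/-- polynomial growth of the tail function -/
lemma growth1 {p q : ℕ} (h : TwoGen p q) : ∃ s1 K : ℝ, 1 ≤ s1 ∧ 0 < K ∧ ∀ μ : Measure UnitAddCircle,
    IsProbabilityMeasure μ → Inv p q μ → ∀ t : ℝ, 1 ≤ t → F μ t ≤ K * t * F μ s1 := by
  obtain ⟨r, r', c0, hr', hrp, hc, hG⟩ := h.growth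
  obtain ⟨D, hD⟩ := Pool.Agent.H819.main_of_growth h.two_le_left h.two_le_right hrp le_rfl hc.le hG
  refine ⟨max 1 (-Real.log r'), |D| + 1, le_max_left _ _, by positivity, fun μ hμ hinv t ht => ?_⟩
  have h1 := hD μ hμ hinv.1 hinv.2 t ht
  have hρ : μ.real {x : UnitAddCircle | r' ≤ ‖x‖} ≤ F μ (max 1 (-Real.log r')) := by
    refine measureReal_mono fun x (hx : r' ≤ ‖x‖) => ?_
    change Real.exp (-(max 1 (-Real.log r'))) ≤ ‖x‖
    refine le_trans ?_ hx
    calc Real.exp (-(max 1 (-Real.log r'))) ≤ Real.exp (Real.log r') := by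
          apply Real.exp_le_exp.2
          have := le_max_right 1 (-Real.log r')
          linarith
      _ = r' := Real.exp_log hr'
  have h2 : t ^ (2 - Real.log ((2 : ℕ) + 1 : ℝ) / Real.log (2 : ℕ)) ≤ t := by
    conv_rhs => rw [← Real.rpow_one t]
    apply Real.rpow_le_rpow_of_exponent_le ht
    have h3 : 1 ≤ Real.log ((2 : ℕ) + 1 : ℝ) / Real.log (2 : ℕ) := by
      have hl2 : 0 < Real.log ((2 : ℕ) : ℝ) := Real.log_pos (by norm_num)
      rw [le_div_iff₀ hl2, one_mul]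
      exact Real.log_le_log (by norm_num) (by norm_num)
    linarith
  have h4 : 0 ≤ t ^ (2 - Real.log ((2 : ℕ) + 1 : ℝ) / Real.log (2 : ℕ)) :=
    Real.rpow_nonneg (by linarith) _
  have h5 : 0 ≤ μ.real {x : UnitAddCircle | r' ≤ ‖x‖} := measureReal_nonneg
  have h6 := F_nonneg μ (max 1 (-Real.log r'))
  calc F μ t ≤ D * t ^ (2 - Real.log ((2 : ℕ) + 1 : ℝ) / Real.log (2 : ℕ)) *
        μ.real {x : UnitAddCircle | r' ≤ ‖x‖} := h1
    _ ≤ (|D| + 1) * t * F μ (max 1 (-Real.log r')) := by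
        have e1 : D * t ^ (2 - Real.log ((2 : ℕ) + 1 : ℝ) / Real.log (2 : ℕ)) ≤ (|D| + 1) * t := by
          have := le_abs_self D
          nlinarith [abs_nonneg D]
        calc D * t ^ (2 - Real.log ((2 : ℕ) + 1 : ℝ) / Real.log (2 : ℕ)) *
              μ.real {x : UnitAddCircle | r' ≤ ‖x‖} ≤ (|D| + 1) * t * μ.real {x : UnitAddCircle | r' ≤ ‖x‖} :=
              mul_le_mul_of_nonneg_right e1 h5
          _ ≤ _ := mul_le_mul_of_nonneg_left hρ (by positivity)

lemma mul_exp_neg_le (x : ℝ) (hx : 0 ≤ x) : x * Real.exp (-x) ≤ Real.exp (-(x / 2)) := by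
  have h1 : x ≤ Real.exp (x / 2) := by
    have h2 := Real.add_one_le_exp (x / 4)
    have h3 : Real.exp (x / 2) = Real.exp (x / 4) ^ 2 := by
      rw [← Real.exp_nat_mul]; congr 1; push_cast; ring
    rw [h3]
    nlinarith [sq_nonneg (x / 4 - 1)]
  have h4 : Real.exp (-x) = Real.exp (-(x / 2)) * Real.exp (-(x / 2)) := by
    rw [← Real.exp_add]; congr 1; ring
  have h5 : Real.exp (x / 2) * Real.exp (-(x / 2)) = 1 := by
    rw [← Real.exp_add]; simp
  have h6 : 0 < Real.exp (-(x / 2)) := Real.exp_pos _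
  calc x * Real.exp (-x) ≤ Real.exp (x / 2) * Real.exp (-x) :=
        mul_le_mul_of_nonneg_right h1 (Real.exp_pos _).le
    _ = (Real.exp (x / 2) * Real.exp (-(x / 2))) * Real.exp (-(x / 2)) := by rw [h4]; ring
    _ = Real.exp (-(x / 2)) := by rw [h5, one_mul]

/-- the truncated norm is a sum over the scales -/
lemma phi_scales (t : ℝ) (x : UnitAddCircle) (M : ℕ) :
    phi (Real.exp (-t)) x ≤ ∑ k ∈ range M, Real.exp (-(t + k)) *
      {x : UnitAddCircle | Real.exp (-(t + k + 1)) ≤ ‖x‖}.indicator (1 : UnitAddCircle → ℝ) x + Real.exp (-(t + M)) := by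
  by_cases hx : ‖x‖ < Real.exp (-t)
  · rw [phi_of_lt hx]
    induction M with
    | zero => simpa using hx.le
    | succ M ih =>
      rw [Finset.sum_range_succ]
      by_cases hM : Real.exp (-(t + M + 1)) ≤ ‖x‖
      · rw [Set.indicator_of_mem (s := {x : UnitAddCircle | Real.exp (-(t + M + 1)) ≤ ‖x‖}) hM, Pi.one_apply,
          mul_one]
        have : 0 < Real.exp (-(t + ((M + 1 : ℕ) : ℝ))) := Real.exp_pos _
        linarith
      · push Not at hM
        have h1 : 0 ≤ ∑ k ∈ range M, Real.exp (-(t + k)) *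
            {x : UnitAddCircle | Real.exp (-(t + k + 1)) ≤ ‖x‖}.indicator (1 : UnitAddCircle → ℝ) x :=
          Finset.sum_nonneg fun k _ => mul_nonneg (Real.exp_pos _).le
            (Set.indicator_nonneg (fun _ _ => (zero_le_one : (0 : ℝ) ≤ 1)) _)
        have h2 : 0 ≤ Real.exp (-(t + M)) *
            {x : UnitAddCircle | Real.exp (-(t + M + 1)) ≤ ‖x‖}.indicator (1 : UnitAddCircle → ℝ) x :=
          mul_nonneg (Real.exp_pos _).le (Set.indicator_nonneg (fun _ _ => (zero_le_one : (0 : ℝ) ≤ 1)) _)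
        have h3 : Real.exp (-(t + ((M + 1 : ℕ) : ℝ))) = Real.exp (-(t + M + 1)) := by
          congr 1; push_cast; ring
        rw [h3]
        linarith
  · have : phi (Real.exp (-t)) x = 0 := by
      unfold phi
      exact Set.indicator_of_notMem (s := {x : UnitAddCircle | ‖x‖ < Real.exp (-t)}) hx _
    rw [this]
    have h1 : 0 ≤ ∑ k ∈ range M, Real.exp (-(t + k)) *
        {x : UnitAddCircle | Real.exp (-(t + k + 1)) ≤ ‖x‖}.indicator (1 : UnitAddCircle → ℝ) x :=
      Finset.sum_nonneg fun k _ => mul_nonneg (Real.exp_pos _).le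
        (Set.indicator_nonneg (fun _ _ => (zero_le_one : (0 : ℝ) ≤ 1)) _)
    have := Real.exp_pos (-(t + M))
    linarith

lemma geom_le (M : ℕ) : ∑ k ∈ range M, Real.exp (-((k : ℝ) + 1) / 2) ≤ 2 := by
  have h1 : ∀ k : ℕ, Real.exp (-((k : ℝ) + 1) / 2) = Real.exp (-(1 / 2)) * Real.exp (-(1 / 2)) ^ k := by
    intro k
    rw [← Real.exp_nat_mul, ← Real.exp_add]
    congr 1; ring
  rw [Finset.sum_congr rfl (fun k _ => h1 k), ← Finset.mul_sum]
  set r := Real.exp (-(1 / 2)) with hr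
  have hr0 : 0 < r := Real.exp_pos _
  have hr1 : r ≤ 2 / 3 := by
    have h2 := Real.add_one_le_exp (1 / 2 : ℝ)
    have h3 : r * Real.exp (1 / 2) = 1 := by
      rw [hr, ← Real.exp_add]; simp
    have h4 : 0 < Real.exp (1 / 2 : ℝ) := Real.exp_pos _
    nlinarith
  have h5 : (1 - r) * ∑ k ∈ range M, r ^ k = 1 - r ^ M := by
    have := mul_neg_geom_sum r M
    linarith
  have h6 : 0 ≤ ∑ k ∈ range M, r ^ k := Finset.sum_nonneg fun k _ => by positivity
  have h7 : 0 ≤ r ^ M := by positivity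
  nlinarith

/-- the first moment of the truncated norm -/
lemma first_moment {p q : ℕ} (h : TwoGen p q) : ∃ t0 B : ℝ, 1 ≤ t0 ∧ 0 < B ∧ ∀ μ : Measure UnitAddCircle,
    IsProbabilityMeasure μ → Inv p q μ → ∀ t : ℝ, t0 ≤ t →
      ∫ x, phi (Real.exp (-t)) x ∂μ ≤ B * Real.exp (-(t / 2)) * F μ t := by
  obtain ⟨s1, K, hs1, hK, hgr⟩ := growth1 h
  refine ⟨s1, Real.exp 1 * K * 2, hs1, by positivity, fun μ hμ hinv t ht => ?_⟩
  have ht1 : 1 ≤ t := hs1.trans ht
  have hbound : ∀ M : ℕ, ∫ x, phi (Real.exp (-t)) x ∂μ ≤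
      Real.exp 1 * K * 2 * Real.exp (-(t / 2)) * F μ t + Real.exp (-(t + M)) := by
    intro M
    have hint : ∀ k ∈ range M, Integrable (fun x : UnitAddCircle => Real.exp (-(t + k)) *
        {x : UnitAddCircle | Real.exp (-(t + k + 1)) ≤ ‖x‖}.indicator (1 : UnitAddCircle → ℝ) x) μ := fun k _ =>
      ((integrable_const (1 : ℝ)).indicator (closed_ge _)).const_mul _
    have h1 : ∫ x, phi (Real.exp (-t)) x ∂μ ≤ ∫ x, (∑ k ∈ range M, Real.exp (-(t + k)) *
        {x : UnitAddCircle | Real.exp (-(t + k + 1)) ≤ ‖x‖}.indicator (1 : UnitAddCircle → ℝ) x +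
          Real.exp (-(t + M))) ∂μ := by
      refine integral_mono (phi_int _ μ) ?_ (fun x => phi_scales t x M)
      exact (integrable_finsetSum _ hint).add (integrable_const _)
    have h2 : ∫ x, (∑ k ∈ range M, Real.exp (-(t + k)) *
        {x : UnitAddCircle | Real.exp (-(t + k + 1)) ≤ ‖x‖}.indicator (1 : UnitAddCircle → ℝ) x +
          Real.exp (-(t + M))) ∂μ =
        ∑ k ∈ range M, Real.exp (-(t + k)) * F μ (t + k + 1) + Real.exp (-(t + M)) := by
      rw [integral_add (integrable_finsetSum _ hint) (integrable_const _), integral_finsetSum _ hint]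
      simp only [integral_const, probReal_univ, smul_eq_mul, one_mul]
      congr 1
      refine Finset.sum_congr rfl fun k _ => ?_
      rw [integral_const_mul, integral_indicator_one (closed_ge _)]
      rfl
    have h3 : ∑ k ∈ range M, Real.exp (-(t + k)) * F μ (t + k + 1) ≤
        ∑ k ∈ range M, (Real.exp 1 * K * Real.exp (-(t / 2)) * F μ t) *
          Real.exp (-((k : ℝ) + 1) / 2) := by
      refine Finset.sum_le_sum fun k _ => ?_
      have hk0 : (0 : ℝ) ≤ k := Nat.cast_nonneg k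
      have g1 : F μ (t + k + 1) ≤ K * (t + k + 1) * F μ t :=
        (hgr μ hμ hinv _ (by linarith)).trans
          (mul_le_mul_of_nonneg_left (F_mono μ ht) (by positivity))
      have g2 := mul_exp_neg_le (t + k + 1) (by linarith)
      have g3 : Real.exp (-(t + k)) = Real.exp 1 * Real.exp (-(t + k + 1)) := by
        rw [← Real.exp_add]; congr 1; ring
      have g4 : Real.exp (-((t + k + 1) / 2)) = Real.exp (-(t / 2)) * Real.exp (-((k : ℝ) + 1) / 2) := by
        rw [← Real.exp_add]; congr 1; ring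
      have hF := F_nonneg μ t
      calc Real.exp (-(t + k)) * F μ (t + k + 1)
          ≤ Real.exp (-(t + k)) * (K * (t + k + 1) * F μ t) :=
            mul_le_mul_of_nonneg_left g1 (Real.exp_pos _).le
        _ = Real.exp 1 * K * F μ t * ((t + k + 1) * Real.exp (-(t + k + 1))) := by rw [g3]; ring
        _ ≤ Real.exp 1 * K * F μ t * Real.exp (-((t + k + 1) / 2)) :=
            mul_le_mul_of_nonneg_left g2 (by positivity)
        _ = _ := by rw [g4]; ring
    rw [← Finset.mul_sum] at h3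
    have h4 : (Real.exp 1 * K * Real.exp (-(t / 2)) * F μ t) *
        ∑ k ∈ range M, Real.exp (-((k : ℝ) + 1) / 2) ≤
        (Real.exp 1 * K * Real.exp (-(t / 2)) * F μ t) * 2 :=
      mul_le_mul_of_nonneg_left (geom_le M) (by have := F_nonneg μ t; positivity)
    rw [h2] at h1
    linarith
  have hlim : Tendsto (fun M : ℕ => Real.exp 1 * K * 2 * Real.exp (-(t / 2)) * F μ t +
      Real.exp (-(t + M))) atTop (𝓝 (Real.exp 1 * K * 2 * Real.exp (-(t / 2)) * F μ t + 0)) := by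
    refine tendsto_const_nhds.add ?_
    refine Real.tendsto_exp_neg_atTop_nhds_zero.comp ?_
    exact tendsto_atTop_add_const_left _ _ tendsto_natCast_atTop_atTop
  rw [add_zero] at hlim
  exact ge_of_tendsto' hlim hbound

/-- the relative bound for the mass of an annulus -/
theorem rel {p q : ℕ} (h : TwoGen p q) {C ε : ℝ} (hC : 3 ≤ C) (hε : 0 < ε) :
    ∃ s0 : ℝ, 1 ≤ s0 ∧ ∀ s : ℝ, s0 ≤ s → ∀ μ : Measure UnitAddCircle, IsProbabilityMeasure μ →
      Inv p q μ → F μ (C * s) - F μ s ≤ ε * F μ (C ^ 2 * s) := by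
  obtain ⟨s1, hs1, hband⟩ := band h (C := C + 2) (ε := ε / 8) (by linarith) (by positivity)
  obtain ⟨t0, B, ht0, hB, hmom⟩ := first_moment h
  -- `B exp (-C s / 2) ≤ 1 / 8` for large `s`
  have hlim : Tendsto (fun s : ℝ => B * Real.exp (-s)) atTop (𝓝 0) := by
    have := Real.tendsto_exp_neg_atTop_nhds_zero.const_mul B
    rwa [mul_zero] at this
  obtain ⟨s2, hs2⟩ := eventually_atTop.1 (hlim.eventually_le_const (show (0 : ℝ) < 1 / 8 by norm_num))
  refine ⟨max (max (s1 + 1) (C + 3)) (max t0 s2), ?_, fun s hs μ hμ hinv => ?_⟩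
  · exact le_max_of_le_left (le_max_of_le_right (by linarith))
  have hsa : s1 + 1 ≤ s := (le_max_left _ _).trans ((le_max_left _ _).trans hs)
  have hsb : C + 3 ≤ s := (le_max_right _ _).trans ((le_max_left _ _).trans hs)
  have hsc : t0 ≤ s := (le_max_left _ _).trans ((le_max_right _ _).trans hs)
  have hsd : s2 ≤ s := (le_max_right _ _).trans ((le_max_right _ _).trans hs)
  have hs0 : 0 < s := by linarith
  set F1 := F μ (C ^ 2 * s) with hF1
  have hF10 : 0 ≤ F1 := F_nonneg _ _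
  have hCC : C ≤ C ^ 2 := by nlinarith
  have hCs : C * s ≤ C ^ 2 * s := mul_le_mul_of_nonneg_right hCC hs0.le
  have hmono : F μ (C * s) ≤ F1 := F_mono μ hCs
  rcases hF10.eq_or_lt with h0 | hF1pos
  · rw [← h0] at hmono ⊢
    have := F_nonneg μ s
    linarith
  -- the number of copies
  set m : ℕ := ⌈1 / (2 * F1)⌉₊ with hm
  have hm1 : 1 / (2 * F1) ≤ m := Nat.le_ceil _
  have hm2 : (m : ℝ) < 1 / (2 * F1) + 1 := Nat.ceil_lt_add_one (by positivity)
  have hmpos : 0 < m := by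
    have : (0 : ℝ) < m := lt_of_lt_of_le (by positivity) hm1
    exact_mod_cast this
  have hm1' : ((m - 1 : ℕ) : ℝ) ≤ 1 / (2 * F1) := by
    rw [Nat.cast_sub (by omega)]; push_cast; linarith
  -- the mass of the band
  set W := μ.real {x : UnitAddCircle | Real.exp (-(C * s)) ≤ ‖x‖ ∧ ‖x‖ < Real.exp (-s)} with hW
  have hW0 : 0 ≤ W := measureReal_nonneg
  have hWF : F μ (C * s) - F μ s = W := by
    have hsub : {x : UnitAddCircle | Real.exp (-s) ≤ ‖x‖} ⊆ {x : UnitAddCircle | Real.exp (-(C * s)) ≤ ‖x‖} :=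
      fun x (hx : Real.exp (-s) ≤ ‖x‖) => (Real.exp_le_exp.2 (by nlinarith)).trans hx
    have e : {x : UnitAddCircle | Real.exp (-(C * s)) ≤ ‖x‖ ∧ ‖x‖ < Real.exp (-s)} =
        {x : UnitAddCircle | Real.exp (-(C * s)) ≤ ‖x‖} \ {x : UnitAddCircle | Real.exp (-s) ≤ ‖x‖} := by
      ext x
      simp only [Set.mem_sdiff, Set.mem_ofPred_eq, not_le]
    rw [hW, e, measureReal_sdiff hsub (closed_ge _)]
    rfl
  rw [hWF]
  have hτ : Real.exp (-(C ^ 2 * s)) ≤ Real.exp (-(C * s)) := Real.exp_le_exp.2 (by linarith)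
  have key := conv_lower μ m (α := Real.exp (-s)) (β := Real.exp (-(C * s)))
    (τ := Real.exp (-(C ^ 2 * s))) (Real.exp_pos _) hτ
  rw [← hW] at key
  have hFeq : μ.real {x : UnitAddCircle | Real.exp (-(C ^ 2 * s)) ≤ ‖x‖} = F1 := rfl
  rw [hFeq] at key
  -- the upper bound
  have hup : (convPow μ m).real {z : UnitAddCircle | Real.exp (-(C * s)) / 2 ≤ ‖z‖ ∧
      ‖z‖ ≤ Real.exp (-s) + Real.exp (-(C * s)) / 2} ≤ ε / 8 := by
    refine le_trans (measureReal_mono ?_) (hband (s - 1) (by linarith) (convPow μ m) inferInstance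
      (convPow_inv hinv m))
    rintro z ⟨hz1, hz2⟩
    constructor
    · refine le_trans ?_ hz1
      have e1 : Real.exp (-((C + 2) * (s - 1))) ≤ Real.exp (-(C * s) - 1) :=
        Real.exp_le_exp.2 (by nlinarith)
      have e2 : Real.exp (-(C * s) - 1) ≤ Real.exp (-(C * s)) / 2 := by
        rw [Real.exp_sub]
        have h2 := Real.add_one_le_exp (1 : ℝ)
        exact div_le_div_of_nonneg_left (Real.exp_pos _).le (by norm_num) (by linarith)
      linarith
    · refine hz2.trans ?_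
      have e1 : Real.exp (-(C * s)) ≤ Real.exp (-s) := Real.exp_le_exp.2 (by nlinarith)
      have e2 : Real.exp (-(s - 1)) = Real.exp (-s) * Real.exp 1 := by
        rw [← Real.exp_add]; congr 1; ring
      rw [e2]
      have h2 := Real.add_one_le_exp (1 : ℝ)
      have h3 := Real.exp_pos (-s)
      nlinarith
  -- the lower bound
  have hpow : 1 / 2 ≤ (1 - F1) ^ (m - 1) := by
    have hF11 : F1 ≤ 1 := F_le_one _ _
    have h2 := one_add_mul_le_pow (a := -F1) (by linarith) (m - 1)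
    have h3 : ((m - 1 : ℕ) : ℝ) * F1 ≤ 1 / 2 := by
      calc ((m - 1 : ℕ) : ℝ) * F1 ≤ 1 / (2 * F1) * F1 := mul_le_mul_of_nonneg_right hm1' hF10
        _ = 1 / 2 := by field_simp
    have e : 1 + -F1 = 1 - F1 := by ring
    rw [e] at h2
    linarith
  have hsmall : 2 / Real.exp (-(C * s)) * ((m - 1 : ℕ) : ℝ) *
      ∫ x, phi (Real.exp (-(C ^ 2 * s))) x ∂μ ≤ 1 / 4 := by
    have h1 := hmom μ hμ hinv (C ^ 2 * s) (by nlinarith)
    rw [← hF1] at h1
    have hphi0 : 0 ≤ ∫ x, phi (Real.exp (-(C ^ 2 * s))) x ∂μ :=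
      integral_nonneg fun x => phi_nonneg _ x
    have e1 : 2 / Real.exp (-(C * s)) = 2 * Real.exp (C * s) := by
      rw [Real.exp_neg]; field_simp
    rw [e1]
    have h2 : ((m - 1 : ℕ) : ℝ) * ∫ x, phi (Real.exp (-(C ^ 2 * s))) x ∂μ ≤
        B * Real.exp (-(C ^ 2 * s / 2)) / 2 := by
      calc ((m - 1 : ℕ) : ℝ) * ∫ x, phi (Real.exp (-(C ^ 2 * s))) x ∂μ
          ≤ 1 / (2 * F1) * (B * Real.exp (-(C ^ 2 * s / 2)) * F1) :=
            mul_le_mul hm1' h1 hphi0 (by positivity)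
        _ = B * Real.exp (-(C ^ 2 * s / 2)) / 2 := by field_simp
    have h3 : B * Real.exp (C * s - C ^ 2 * s / 2) ≤ 1 / 8 := by
      refine le_trans ?_ (hs2 s hsd)
      refine mul_le_mul_of_nonneg_left (Real.exp_le_exp.2 ?_) hB.le
      have hq : C + 1 ≤ C ^ 2 / 2 := by nlinarith
      have hq2 := mul_le_mul_of_nonneg_right hq hs0.le
      linarith
    calc 2 * Real.exp (C * s) * ((m - 1 : ℕ) : ℝ) * ∫ x, phi (Real.exp (-(C ^ 2 * s))) x ∂μ
        = 2 * Real.exp (C * s) * (((m - 1 : ℕ) : ℝ) *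
            ∫ x, phi (Real.exp (-(C ^ 2 * s))) x ∂μ) := by ring
      _ ≤ 2 * Real.exp (C * s) * (B * Real.exp (-(C ^ 2 * s / 2)) / 2) :=
          mul_le_mul_of_nonneg_left h2 (by positivity)
      _ = B * Real.exp (C * s - C ^ 2 * s / 2) := by
          rw [sub_eq_add_neg, Real.exp_add]; ring
      _ ≤ 1 / 4 := by linarith
  have h5 : (m : ℝ) * W * (1 / 4) ≤ ε / 8 := by
    refine le_trans ?_ (key.trans hup)
    refine mul_le_mul_of_nonneg_left ?_ (by positivity)
    linarith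
  have h6 : 1 / (2 * F1) * W ≤ m * W := mul_le_mul_of_nonneg_right hm1 hW0
  have h7 : 1 / (2 * F1) * W ≤ ε / 2 := by linarith
  have h8 : W = 2 * F1 * (1 / (2 * F1) * W) := by field_simp
  rw [h8]
  calc 2 * F1 * (1 / (2 * F1) * W) ≤ 2 * F1 * (ε / 2) := mul_le_mul_of_nonneg_left h7 (by positivity)
    _ = ε * F1 := by ring

/-- the bootstrap -/
lemma bootstrap {a : ℕ → ℝ} {ε : ℝ} (hε : 0 < ε) (hε4 : ε ≤ 1 / 4) (h0 : ∀ k, 0 ≤ a k)
    (h1 : ∀ k, a k ≤ 1) (h : ∀ k, a (k + 1) - a k ≤ ε * a (k + 2)) :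
    (1 - 2 * ε) * a 1 ≤ a 0 := by
  by_contra hcon
  push Not at hcon
  -- failure propagates
  have hP : ∀ k, a k < (1 - 2 * ε) * a (k + 1) ∧ (2 : ℝ) ^ k * a 1 ≤ a (k + 1) := by
    intro k
    induction k with
    | zero => exact ⟨by simpa using hcon, by simp⟩
    | succ k ih =>
      obtain ⟨i1, i2⟩ := ih
      have g1 := h k
      have g2 : 2 * ε * a (k + 1) < ε * a (k + 2) := by linarith
      have g3 : 2 * a (k + 1) < a (k + 2) := by
        have : ε * (2 * a (k + 1)) < ε * a (k + 2) := by linarith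
        exact lt_of_mul_lt_mul_left this hε.le
      have g4 := h0 (k + 1)
      refine ⟨?_, ?_⟩
      · have : a (k + 1) < 1 / 2 * a (k + 2) := by linarith
        nlinarith
      · rw [pow_succ]
        nlinarith
  have hpos : 0 < a 1 := by
    have g1 := (hP 0).1
    have g2 := h0 0
    have g3 : 0 < (1 - 2 * ε) * a 1 := by
      have : a 0 < (1 - 2 * ε) * a (0 + 1) := g1
      simpa using lt_of_le_of_lt g2 this
    by_contra hc
    have : (1 - 2 * ε) * a 1 ≤ 0 := mul_nonpos_of_nonneg_of_nonpos (by linarith) (not_lt.1 hc)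
    linarith
  obtain ⟨k, hk⟩ := pow_unbounded_of_one_lt (1 / a 1) (one_lt_two : (1 : ℝ) < 2)
  have g1 := (hP k).2
  have g2 := h1 (k + 1)
  have g3 : 1 < (2 : ℝ) ^ k * a 1 := by
    rwa [div_lt_iff₀ hpos] at hk
  linarith

/-- **Slow variation of the tail function**, uniformly in the invariant measure. -/
theorem slow {p q : ℕ} (h : TwoGen p q) (C : ℝ) {δ : ℝ} (hδ : 0 < δ) :
    ∃ s0 : ℝ, 1 ≤ s0 ∧ ∀ s : ℝ, s0 ≤ s → ∀ μ : Measure UnitAddCircle, IsProbabilityMeasure μ →
      Inv p q μ → F μ (C * s) ≤ (1 + δ) * F μ s := by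
  set C' : ℝ := max C 3 with hC'
  have hC3 : 3 ≤ C' := le_max_right _ _
  set ε : ℝ := min (1 / 8) (δ / 4) with hε
  have hεpos : 0 < ε := lt_min (by norm_num) (by positivity)
  have hε1 : ε ≤ 1 / 8 := min_le_left _ _
  have hε2 : ε ≤ δ / 4 := min_le_right _ _
  obtain ⟨s0, hs0, hrel⟩ := rel h hC3 hεpos
  refine ⟨s0, hs0, fun s hs μ hμ hinv => ?_⟩
  have hboot := bootstrap (a := fun k => F μ (C' ^ k * s)) hεpos (by linarith)
    (fun k => F_nonneg _ _) (fun k => F_le_one _ _) (fun k => by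
      have h1 : s0 ≤ C' ^ k * s := by
        have : 1 ≤ C' ^ k := one_le_pow₀ (by linarith)
        nlinarith
      have h2 := hrel (C' ^ k * s) h1 μ hμ hinv
      have e1 : C' * (C' ^ k * s) = C' ^ (k + 1) * s := by ring
      have e2 : C' ^ 2 * (C' ^ k * s) = C' ^ (k + 2) * s := by ring
      rw [e1, e2] at h2
      exact h2)
  simp only [pow_one, pow_zero, one_mul] at hboot
  have h1 : F μ (C * s) ≤ F μ (C' * s) := by
    refine F_mono μ ?_
    exact mul_le_mul_of_nonneg_right (le_max_left _ _) (by linarith)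
  have h2 := F_nonneg μ (C' * s)
  have h3 := F_nonneg μ s
  have h4 : F μ (C' * s) ≤ (1 + 4 * ε) * F μ s := by
    have e : (1 + 4 * ε) * ((1 - 2 * ε) * F μ (C' * s)) ≤ (1 + 4 * ε) * F μ s :=
      mul_le_mul_of_nonneg_left hboot (by linarith)
    have e2 : F μ (C' * s) ≤ (1 + 4 * ε) * ((1 - 2 * ε) * F μ (C' * s)) := by
      have : 1 ≤ (1 + 4 * ε) * (1 - 2 * ε) := by nlinarith
      nlinarith
    linarith
  have h5 : (1 + 4 * ε) * F μ s ≤ (1 + δ) * F μ s := mul_le_mul_of_nonneg_right (by linarith) h3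
  linarith

end Pool.Agent.Q190.SV
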