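import Mathlib
import Pool.Agent.Q190.SV.Slow

/-!
# The local form of slow variation
-/

set_option autoImplicit false

open MeasureTheory Finset Filter Topology

namespace Pool.Agent.Q190.SV

open Pool.Agent.H819 (TwoGen)


lemma exists_rep (x : UnitAddCircle) : ∃ t : ℝ, (t : UnitAddCircle) = x ∧ |t| = ‖x‖ := by
  obtain ⟨y, rfl⟩ := QuotientAddGroup.mk_surjective x
  refine ⟨y - round y, ?_, ?_⟩
  · have h : ((round y : ℝ) : UnitAddCircle) = 0 := by
      rw [AddCircle.coe_eq_zero_iff]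
      exact ⟨round y, by simp⟩
    change (((y - round y : ℝ)) : UnitAddCircle) = (y : UnitAddCircle)
    rw [AddCircle.coe_sub, h, sub_zero]
  · exact (UnitAddCircle.norm_eq (x := y)).symm

lemma norm_nsmul {x : UnitAddCircle} {p : ℕ} (h : (p : ℝ) * ‖x‖ ≤ 1 / 2) : ‖p • x‖ = p * ‖x‖ := by
  obtain ⟨t, rfl, ht⟩ := exists_rep x
  rw [← ht] at h ⊢
  have e : p • (t : UnitAddCircle) = ((p * t : ℝ) : UnitAddCircle) := by
    rw [← AddCircle.coe_nsmul, nsmul_eq_mul]
  rw [e, (AddCircle.norm_coe_eq_abs_iff (1 : ℝ) one_ne_zero).2, abs_mul, Nat.abs_cast]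
  rw [abs_mul, Nat.abs_cast, abs_one]
  exact h

/-- the increments of the tail function decrease along the multiples of `log p` -/
lemma incr_step {p : ℕ} (hp : 2 ≤ p) {μ : Measure UnitAddCircle} [IsProbabilityMeasure μ]
    (h : MeasurePreserving (fun x : UnitAddCircle => p • x) μ μ) {b t : ℝ} (hb : 0 ≤ b) (ht : 1 ≤ t) :
    F μ (t + Real.log p + b) - F μ (t + Real.log p) ≤ F μ (t + b) - F μ t := by
  have hp0 : (0 : ℝ) < p := by exact_mod_cast (by omega : 0 < p)
  have hinc : ∀ t : ℝ, F μ (t + b) - F μ t =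
      μ.real {x : UnitAddCircle | Real.exp (-(t + b)) ≤ ‖x‖ ∧ ‖x‖ < Real.exp (-t)} := by
    intro t
    have hsub : {x : UnitAddCircle | Real.exp (-t) ≤ ‖x‖} ⊆ {x : UnitAddCircle | Real.exp (-(t + b)) ≤ ‖x‖} :=
      fun x (hx : Real.exp (-t) ≤ ‖x‖) => (Real.exp_le_exp.2 (by linarith)).trans hx
    have e : {x : UnitAddCircle | Real.exp (-(t + b)) ≤ ‖x‖ ∧ ‖x‖ < Real.exp (-t)} =
        {x : UnitAddCircle | Real.exp (-(t + b)) ≤ ‖x‖} \ {x : UnitAddCircle | Real.exp (-t) ≤ ‖x‖} := by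
      ext x
      simp only [Set.mem_sdiff, Set.mem_ofPred_eq, not_le]
    rw [e, measureReal_sdiff hsub (closed_ge _)]
    rfl
  rw [hinc, hinc]
  have hA : MeasurableSet {x : UnitAddCircle | Real.exp (-(t + b)) ≤ ‖x‖ ∧ ‖x‖ < Real.exp (-t)} :=
    (closed_ge _).inter (open_lt _)
  rw [← h.measureReal_preimage hA.nullMeasurableSet]
  refine measureReal_mono ?_
  rintro x ⟨h1, h2⟩
  have e1 : Real.exp (-(t + Real.log p + b)) * p = Real.exp (-(t + b)) := by
    have : -(t + Real.log p + b) = -(t + b) - Real.log p := by ring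
    rw [this, Real.exp_sub, Real.exp_log hp0]
    field_simp
  have e2 : Real.exp (-(t + Real.log p)) * p = Real.exp (-t) := by
    have : -(t + Real.log p) = -t - Real.log p := by ring
    rw [this, Real.exp_sub, Real.exp_log hp0]
    field_simp
  have h3 : (p : ℝ) * ‖x‖ < Real.exp (-t) := by
    rw [← e2, mul_comm]
    exact mul_lt_mul_of_pos_right h2 hp0
  have h4 : Real.exp (-t) ≤ 1 / 2 := by
    have g1 : Real.exp (-t) ≤ Real.exp (-1) := Real.exp_le_exp.2 (by linarith)
    have g2 : Real.exp (-1) * Real.exp 1 = 1 := by rw [← Real.exp_add]; simp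
    have g3 := Real.add_one_le_exp (1 : ℝ)
    have g4 := Real.exp_pos (-1 : ℝ)
    nlinarith
  have h5 := norm_nsmul (x := x) (p := p) (by linarith)
  change Real.exp (-(t + b)) ≤ ‖p • x‖ ∧ ‖p • x‖ < Real.exp (-t)
  rw [h5]
  refine ⟨?_, h3⟩
  rw [← e1, mul_comm]
  exact mul_le_mul_of_nonneg_left h1 hp0.le

lemma incr_mul {p : ℕ} (hp : 2 ≤ p) {μ : Measure UnitAddCircle} [IsProbabilityMeasure μ]
    (h : MeasurePreserving (fun x : UnitAddCircle => p • x) μ μ) {b : ℝ} (hb : 0 ≤ b) (i : ℕ) :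
    ∀ t : ℝ, 1 ≤ t →
    F μ (t + i * Real.log p + b) - F μ (t + i * Real.log p) ≤ F μ (t + b) - F μ t := by
  have hlp : 0 < Real.log p := Real.log_pos (by exact_mod_cast (by omega : 1 < p))
  induction i with
  | zero => intro t _; simp
  | succ i ih =>
    intro t ht
    have h0 : 0 ≤ (i : ℝ) * Real.log p := by positivity
    have h1 := incr_step hp h hb (t := t + i * Real.log p) (by linarith)
    have h2 := ih t ht
    have e : t + ((i + 1 : ℕ) : ℝ) * Real.log p = t + i * Real.log p + Real.log p := by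
      push_cast; ring
    rw [e]
    linarith

/-- **The local form**: the mass of an annulus of bounded ratio is at most `ε / log (1 / r)` times
the mass outside. -/
theorem localForm {p q : ℕ} (h : TwoGen p q) {b ε : ℝ} (hb : 0 ≤ b) (hε : 0 < ε) :
    ∃ s0 : ℝ, 1 ≤ s0 ∧ ∀ s : ℝ, s0 ≤ s → ∀ μ : Measure UnitAddCircle, IsProbabilityMeasure μ →
      Inv p q μ → s * (F μ (s + b) - F μ s) ≤ ε * F μ s := by
  have hp := h.two_le_left
  have hlp : 0 < Real.log p := Real.log_pos (by exact_mod_cast (by omega : 1 < p))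
  -- the step
  obtain ⟨m, hm⟩ := exists_nat_ge (b / Real.log p + 1)
  set M : ℝ := m * Real.log p with hM
  have hMb : b ≤ M := by
    have h1 : b / Real.log p ≤ m := by linarith
    rwa [div_le_iff₀ hlp] at h1
  have hMpos : 0 < M := by
    have h1 : (1 : ℝ) ≤ m := by
      have : 0 ≤ b / Real.log p := div_nonneg hb hlp.le
      linarith
    rw [hM]; positivity
  obtain ⟨s1, hs1, hslow⟩ := slow h 2 (δ := ε / (4 * M)) (div_pos hε (by positivity))
  refine ⟨max (2 * s1) (4 * M + 4), ?_, fun s hs μ hμ hinv => ?_⟩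
  · exact le_max_of_le_right (by linarith)
  have hsa : 2 * s1 ≤ s := (le_max_left _ _).trans hs
  have hsb : 4 * M + 4 ≤ s := (le_max_right _ _).trans hs
  have hs0 : 0 < s := by linarith
  set D : ℝ := F μ (s + b) - F μ s with hD
  have hD0 : 0 ≤ D := sub_nonneg.2 (F_mono μ (by linarith))
  set k : ℕ := ⌊s / (2 * M)⌋₊ with hk
  have hk1 : (k : ℝ) ≤ s / (2 * M) := Nat.floor_le (by positivity)
  have hk2 : s / (2 * M) < k + 1 := Nat.lt_floor_add_one _
  have hkM : k * M ≤ s / 2 := by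
    have := mul_le_mul_of_nonneg_right hk1 hMpos.le
    have e : s / (2 * M) * M = s / 2 := by field_simp
    rwa [e] at this
  have hk3 : s / (4 * M) ≤ k := by
    have h1 : 1 ≤ s / (4 * M) := by
      rw [le_div_iff₀ (by positivity)]; linarith
    have h2 : s / (2 * M) = 2 * (s / (4 * M)) := by field_simp; ring
    linarith
  -- the increments
  have hi : ∀ i ∈ range k, D ≤ F μ (s - i * M) - F μ (s - (i + 1 : ℕ) * M) := by
    intro i hi
    have hik : i + 1 ≤ k := Finset.mem_range.1 hi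
    have h1 : ((i + 1 : ℕ) : ℝ) * M ≤ s / 2 := by
      have : ((i + 1 : ℕ) : ℝ) ≤ k := by exact_mod_cast hik
      calc ((i + 1 : ℕ) : ℝ) * M ≤ k * M := mul_le_mul_of_nonneg_right this hMpos.le
        _ ≤ s / 2 := hkM
    have h2 := incr_mul hp hinv.1 hb ((i + 1) * m) (s - ((i + 1 : ℕ) : ℝ) * M) (by linarith)
    have e : s - ((i + 1 : ℕ) : ℝ) * M + (((i + 1) * m : ℕ) : ℝ) * Real.log p = s := by
      rw [hM]; push_cast; ring
    rw [e] at h2
    refine h2.trans ?_
    have h3 : F μ (s - ((i + 1 : ℕ) : ℝ) * M + b) ≤ F μ (s - i * M) := by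
      refine F_mono μ ?_
      push_cast
      linarith
    linarith
  have hsum : k * D ≤ F μ s - F μ (s - k * M) := by
    have h1 := Finset.sum_le_sum hi
    rw [Finset.sum_const, card_range, nsmul_eq_mul] at h1
    have h2 := Finset.sum_range_sub' (fun i : ℕ => F μ (s - i * M)) k
    simp only [Nat.cast_zero, zero_mul, sub_zero] at h2
    rw [h2] at h1
    exact h1
  have h3 : F μ (s / 2) ≤ F μ (s - k * M) := F_mono μ (by linarith)
  have h4 := hslow (s / 2) (by linarith) μ hμ hinv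
  have e4 : 2 * (s / 2) = s := by ring
  rw [e4] at h4
  have h5 : F μ (s / 2) ≤ F μ s := F_mono μ (by linarith)
  have h6 : k * D ≤ ε / (4 * M) * F μ s := by
    have h7 : ε / (4 * M) * F μ (s / 2) ≤ ε / (4 * M) * F μ s :=
      mul_le_mul_of_nonneg_left h5 (by positivity)
    nlinarith
  have h8 : s / (4 * M) * D ≤ ε / (4 * M) * F μ s := (mul_le_mul_of_nonneg_right hk3 hD0).trans h6
  have h9 := mul_le_mul_of_nonneg_left h8 (show 0 ≤ 4 * M by positivity)
  have e5 : 4 * M * (s / (4 * M) * D) = s * D := by field_simp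
  have e6 : 4 * M * (ε / (4 * M) * F μ s) = ε * F μ s := by field_simp
  rwa [e5, e6] at h9

end Pool.Agent.Q190.SV
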