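import Mathlib
import Pool.Agent.Q190.SV.Local

/-!
# Averages of cosines against invariant measures
-/

set_option autoImplicit false

open MeasureTheory Finset Filter Topology

namespace Pool.Agent.Q190.SV

open Pool.Agent.H819 (TwoGen)


/-- the cosine of frequency `m` -/
noncomputable def cosm (m : ℕ) (x : UnitAddCircle) : ℝ := (fourier (m : ℤ) x).re

lemma cosm_coe (m : ℕ) (t : ℝ) : cosm m (t : UnitAddCircle) = Real.cos (2 * Real.pi * m * t) := by
  unfold cosm
  rw [fourier_coe_apply]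
  have e : (2 * (Real.pi : ℂ) * Complex.I * (m : ℤ) * t / ((1 : ℝ) : ℂ)) =
      ((2 * Real.pi * m * t : ℝ) : ℂ) * Complex.I := by
    push_cast; ring
  rw [e, Complex.exp_ofReal_mul_I_re]

lemma cosm_abs (m : ℕ) (x : UnitAddCircle) : |cosm m x| ≤ 1 := by
  obtain ⟨t, rfl, _⟩ := exists_rep x
  rw [cosm_coe]
  exact Real.abs_cos_le_one _

lemma cosm_cont (m : ℕ) : Continuous (cosm m) :=
  Complex.continuous_re.comp (ContinuousMap.continuous _)

lemma cosm_sq (m : ℕ) (x : UnitAddCircle) : 1 - cosm m x ≤ 20 * (m : ℝ) ^ 2 * ‖x‖ ^ 2 := by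
  obtain ⟨t, rfl, ht⟩ := exists_rep x
  rw [cosm_coe]
  have h1 := Real.one_sub_sq_div_two_le_cos (x := 2 * Real.pi * m * t)
  have h2 : ‖(t : UnitAddCircle)‖ ^ 2 = t ^ 2 := by rw [← ht, sq_abs]
  rw [h2]
  have h3 : Real.pi ^ 2 ≤ 10 := by
    have := Real.pi_lt_d2
    have := Real.pi_pos
    nlinarith
  have h4 : 0 ≤ (m : ℝ) ^ 2 * t ^ 2 := by positivity
  nlinarith

lemma norm_fourier_sub (x : UnitAddCircle) : 4 * ‖x‖ ≤ ‖1 - fourier (1 : ℤ) x‖ := by
  obtain ⟨t, rfl, ht⟩ := exists_rep x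
  have hle : |t| ≤ 1 / 2 := by
    rw [ht]
    have := AddCircle.norm_le_half_period (1 : ℝ) (x := (t : UnitAddCircle)) one_ne_zero
    rwa [abs_one] at this
  rw [← ht, fourier_coe_apply]
  have e : (2 * (Real.pi : ℂ) * Complex.I * ((1 : ℤ) : ℂ) * t / ((1 : ℝ) : ℂ)) =
      Complex.I * ((2 * Real.pi * t : ℝ) : ℂ) := by
    push_cast; ring
  rw [e, norm_sub_rev, Complex.norm_exp_I_mul_ofReal_sub_one]
  have e2 : 2 * Real.pi * t / 2 = Real.pi * t := by ring
  rw [e2, norm_mul, Real.norm_eq_abs, Real.norm_eq_abs, abs_two]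
  have h1 : |Real.sin (Real.pi * t)| = Real.sin (Real.pi * |t|) := by
    have h0 : 0 ≤ Real.sin (Real.pi * |t|) := by
      apply Real.sin_nonneg_of_nonneg_of_le_pi (by positivity)
      have := Real.pi_pos
      nlinarith
    rcases abs_cases t with ⟨h, _⟩ | ⟨h, _⟩
    · rw [h] at h0 ⊢
      exact abs_of_nonneg h0
    · rw [h] at h0 ⊢
      rw [mul_neg, Real.sin_neg] at h0 ⊢
      rw [abs_of_nonpos (by linarith)]
  rw [h1]
  have h2 := Real.mul_le_sin (x := Real.pi * |t|) (by positivity) (by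
    have := Real.pi_pos
    nlinarith)
  have e3 : 2 / Real.pi * (Real.pi * |t|) = 2 * |t| := by
    field_simp
  rw [e3] at h2
  linarith

lemma fourier_pow (m : ℕ) (x : UnitAddCircle) : fourier (m : ℤ) x = (fourier (1 : ℤ) x) ^ m := by
  obtain ⟨t, rfl, _⟩ := exists_rep x
  rw [fourier_coe_apply, fourier_coe_apply, ← Complex.exp_nat_mul]
  congr 1
  push_cast; ring

/-- the average of the cosines -/
noncomputable def dir (N : ℕ) (x : UnitAddCircle) : ℝ := (1 / (N : ℝ)) * ∑ m ∈ Finset.range N, cosm (m + 1) x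

lemma dir_abs (N : ℕ) (x : UnitAddCircle) : |dir N x| ≤ 1 := by
  unfold dir
  rcases Nat.eq_zero_or_pos N with rfl | hN
  · simp
  have hN0 : (0 : ℝ) < N := by exact_mod_cast hN
  rw [abs_mul, abs_of_pos (by positivity : 0 < 1 / (N : ℝ)), one_div, inv_mul_le_iff₀ hN0, mul_one]
  calc |∑ m ∈ Finset.range N, cosm (m + 1) x| ≤ ∑ m ∈ Finset.range N, |cosm (m + 1) x| :=
        Finset.abs_sum_le_sum_abs _ _
    _ ≤ ∑ _m ∈ Finset.range N, (1 : ℝ) := Finset.sum_le_sum fun m _ => cosm_abs _ _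
    _ = N := by simp

lemma dir_bound {N : ℕ} (hN : 0 < N) (x : UnitAddCircle) : |dir N x| * (2 * N * ‖x‖) ≤ 1 := by
  have hN0 : (0 : ℝ) < N := by exact_mod_cast hN
  set z : ℂ := fourier (1 : ℤ) x with hz
  have hz1 : ‖z‖ = 1 := by rw [hz]; exact Circle.norm_coe _
  have e1 : ∑ m ∈ Finset.range N, cosm (m + 1) x = (∑ m ∈ Finset.range N, z ^ (m + 1)).re := by
    rw [Complex.re_sum]
    refine Finset.sum_congr rfl fun m _ => ?_
    unfold cosm
    rw [fourier_pow]
  have e2 : (∑ m ∈ Finset.range N, z ^ (m + 1)) * (1 - z) = z * (1 - z ^ N) := by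
    have h1 := geom_sum_mul_neg z N
    have h2 : ∑ m ∈ Finset.range N, z ^ (m + 1) = z * ∑ m ∈ Finset.range N, z ^ m := by
      rw [Finset.mul_sum]
      exact Finset.sum_congr rfl fun m _ => by ring
    rw [h2, mul_assoc, h1]
  have h3 : ‖∑ m ∈ Finset.range N, z ^ (m + 1)‖ * ‖1 - z‖ ≤ 2 := by
    rw [← norm_mul, e2, norm_mul, hz1, one_mul]
    calc ‖1 - z ^ N‖ ≤ ‖(1 : ℂ)‖ + ‖z ^ N‖ := norm_sub_le _ _
      _ = 2 := by rw [norm_one, norm_pow, hz1, one_pow]; norm_num
  have h4 : |∑ m ∈ Finset.range N, cosm (m + 1) x| ≤ ‖∑ m ∈ Finset.range N, z ^ (m + 1)‖ := by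
    rw [e1]; exact Complex.abs_re_le_norm _
  have h5 := norm_fourier_sub x
  rw [← hz] at h5
  have h6 : |∑ m ∈ Finset.range N, cosm (m + 1) x| * (4 * ‖x‖) ≤ 2 := by
    refine le_trans ?_ h3
    exact mul_le_mul h4 h5 (by positivity) (norm_nonneg _)
  unfold dir
  rw [abs_mul, abs_of_pos (by positivity : 0 < 1 / (N : ℝ))]
  have e5 : 1 / (N : ℝ) * |∑ m ∈ Finset.range N, cosm (m + 1) x| * (2 * N * ‖x‖) =
      |∑ m ∈ Finset.range N, cosm (m + 1) x| * (2 * ‖x‖) := by
    field_simp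
  rw [e5]
  linarith

lemma dir_cont (N : ℕ) : Continuous (dir N) :=
  (continuous_finsetSum _ fun _ _ => cosm_cont _).const_mul _

lemma dir_sq {N M : ℕ} (hNM : N ≤ M) (x : UnitAddCircle) : 1 - dir N x ≤ 20 * (M : ℝ) ^ 2 * ‖x‖ ^ 2 ∨ N = 0 := by
  rcases Nat.eq_zero_or_pos N with rfl | hN
  · right; rfl
  left
  have hN0 : (0 : ℝ) < N := by exact_mod_cast hN
  have e : 1 - dir N x = (1 / (N : ℝ)) * ∑ m ∈ Finset.range N, (1 - cosm (m + 1) x) := by
    unfold dir
    rw [Finset.sum_sub_distrib, mul_sub]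
    simp only [Finset.sum_const, Finset.card_range, nsmul_eq_mul, mul_one]
    field_simp
  rw [e, one_div, inv_mul_le_iff₀ hN0]
  calc ∑ m ∈ Finset.range N, (1 - cosm (m + 1) x) ≤
      ∑ _m ∈ Finset.range N, 20 * (M : ℝ) ^ 2 * ‖x‖ ^ 2 := by
        refine Finset.sum_le_sum fun m hm => ?_
        have h1 := cosm_sq (m + 1) x
        have h2 : ((m + 1 : ℕ) : ℝ) ≤ M := by
          exact_mod_cast (Nat.succ_le_of_lt (Finset.mem_range.1 hm)).trans hNM
        have h3 : ((m + 1 : ℕ) : ℝ) ^ 2 ≤ (M : ℝ) ^ 2 := by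
          have : (0 : ℝ) ≤ ((m + 1 : ℕ) : ℝ) := Nat.cast_nonneg _
          nlinarith
        have h4 : 0 ≤ ‖x‖ ^ 2 := by positivity
        nlinarith
    _ = N * (20 * (M : ℝ) ^ 2 * ‖x‖ ^ 2) := by
        rw [Finset.sum_const, Finset.card_range, nsmul_eq_mul]

/-- the integral of a function which is small near `0` is carried by the complement of the ball of
radius `exp (-s/2)` -/
theorem upper {p q : ℕ} (h : TwoGen p q) {C δ : ℝ} (hC : 1 ≤ C) (hδ : 0 < δ) :
    ∃ s0 : ℝ, 1 ≤ s0 ∧ ∀ s : ℝ, s0 ≤ s → ∀ μ : Measure UnitAddCircle, IsProbabilityMeasure μ →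
      Inv p q μ → ∀ g : UnitAddCircle → ℝ, Measurable g → (∀ x, 0 ≤ g x) → (∀ x, g x ≤ 2) →
      (∀ x, g x ≤ 20 * Real.exp (2 * C * s) * ‖x‖ ^ 2) →
      ∫ x, g x ∂μ ≤ ∫ x, {x : UnitAddCircle | Real.exp (-(s / 2)) ≤ ‖x‖}.indicator g x ∂μ +
        δ * F μ (s / 2) := by
  set δ' : ℝ := min 1 (δ / 4) with hδ'
  have hδ'0 : 0 < δ' := lt_min one_pos (by positivity)
  have hδ'1 : δ' ≤ 1 := min_le_left _ _
  have hδ'2 : δ' ≤ δ / 4 := min_le_right _ _
  obtain ⟨s1, hs1, hslow⟩ := slow h (4 * C) hδ'0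
  obtain ⟨t0, B, ht0, hB, hmom⟩ := first_moment h
  have hlim : Tendsto (fun s : ℝ => 40 * B * Real.exp (-s)) atTop (𝓝 0) := by
    have := Real.tendsto_exp_neg_atTop_nhds_zero.const_mul (40 * B)
    rwa [mul_zero] at this
  obtain ⟨s2, hs2⟩ := eventually_atTop.1 (hlim.eventually_le_const (show (0 : ℝ) < δ / 2 by positivity))
  refine ⟨max (2 * s1) (max t0 s2), le_max_of_le_left (by linarith), ?_⟩
  intro s hs μ hμ hinv g hgm hg0 hg2 hgx
  have hsa : 2 * s1 ≤ s := (le_max_left _ _).trans hs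
  have hsb : t0 ≤ s := (le_max_left _ _).trans ((le_max_right _ _).trans hs)
  have hsc : s2 ≤ s := (le_max_right _ _).trans ((le_max_right _ _).trans hs)
  have hs0 : 0 < s := by linarith
  set T : ℝ := 2 * C * s with hT
  have hTs : 2 * s ≤ T := by rw [hT]; nlinarith
  have hgi : Integrable g μ := by
    refine Integrable.of_bound (C := 2) hgm.aestronglyMeasurable ?_
    exact Eventually.of_forall fun x => by
      rw [Real.norm_eq_abs, abs_of_nonneg (hg0 x)]; exact hg2 x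
  set E : Set UnitAddCircle := {x : UnitAddCircle | Real.exp (-(s / 2)) ≤ ‖x‖} with hE
  set E2 : Set UnitAddCircle := {x : UnitAddCircle | Real.exp (-T) ≤ ‖x‖} with hE2
  have hEE : E ⊆ E2 := fun x (hx : Real.exp (-(s / 2)) ≤ ‖x‖) =>
    (Real.exp_le_exp.2 (by linarith)).trans hx
  have i1 : Integrable (E.indicator g) μ := hgi.indicator (closed_ge _)
  have i2 : Integrable (fun x => 2 * (E2.indicator (1 : UnitAddCircle → ℝ) x - E.indicator 1 x)) μ :=
    (((integrable_const (1 : ℝ)).indicator (closed_ge _)).sub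
      ((integrable_const (1 : ℝ)).indicator (closed_ge _))).const_mul _
  have i3 : Integrable (fun x => 20 * phi (Real.exp (-T)) x) μ := (phi_int _ μ).const_mul _
  have hpt : ∀ x, g x ≤ E.indicator g x + 2 * (E2.indicator (1 : UnitAddCircle → ℝ) x - E.indicator 1 x) +
      20 * phi (Real.exp (-T)) x := by
    intro x
    have hphi := phi_nonneg (Real.exp (-T)) x
    by_cases hx : x ∈ E
    · rw [Set.indicator_of_mem hx, Set.indicator_of_mem hx, Set.indicator_of_mem (hEE hx)]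
      simp only [Pi.one_apply, sub_self, mul_zero, add_zero]
      linarith
    · rw [Set.indicator_of_notMem hx, Set.indicator_of_notMem hx]
      by_cases hx2 : x ∈ E2
      · rw [Set.indicator_of_mem hx2]
        simp only [Pi.one_apply]
        linarith [hg2 x]
      · rw [Set.indicator_of_notMem hx2]
        have hx3 : ‖x‖ < Real.exp (-T) := not_le.1 hx2
        rw [phi_of_lt hx3]
        have h1 := hgx x
        have h2 : Real.exp (2 * C * s) * ‖x‖ ^ 2 ≤ ‖x‖ := by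
          have h3 : Real.exp (2 * C * s) * ‖x‖ ≤ 1 := by
            calc Real.exp (2 * C * s) * ‖x‖ ≤ Real.exp (2 * C * s) * Real.exp (-T) :=
                  mul_le_mul_of_nonneg_left hx3.le (Real.exp_pos _).le
              _ = 1 := by rw [hT, ← Real.exp_add]; simp
          nlinarith [norm_nonneg x]
        linarith
  have i12 : Integrable (fun x => E.indicator g x +
      2 * (E2.indicator (1 : UnitAddCircle → ℝ) x - E.indicator 1 x)) μ := i1.add i2
  have i4 : Integrable (fun x => E2.indicator (1 : UnitAddCircle → ℝ) x) μ :=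
    (integrable_const (1 : ℝ)).indicator (closed_ge _)
  have i5 : Integrable (fun x => E.indicator (1 : UnitAddCircle → ℝ) x) μ :=
    (integrable_const (1 : ℝ)).indicator (closed_ge _)
  have hint : ∫ x, g x ∂μ ≤ ∫ x, (E.indicator g x +
      2 * (E2.indicator (1 : UnitAddCircle → ℝ) x - E.indicator 1 x) + 20 * phi (Real.exp (-T)) x) ∂μ :=
    integral_mono hgi (i12.add i3) hpt
  rw [integral_add i12 i3, integral_add i1 i2, integral_const_mul, integral_const_mul,
    integral_sub i4 i5] at hint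
  have j1 : ∫ x, E2.indicator (1 : UnitAddCircle → ℝ) x ∂μ = F μ T := integral_indicator_one (closed_ge _)
  have j2 : ∫ x, E.indicator (1 : UnitAddCircle → ℝ) x ∂μ = F μ (s / 2) := integral_indicator_one (closed_ge _)
  have k1 := hslow (s / 2) (by linarith) μ hμ hinv
  have eT : 4 * C * (s / 2) = T := by rw [hT]; ring
  rw [eT] at k1
  have k2 := hmom μ hμ hinv T (by linarith)
  have hF0 := F_nonneg μ (s / 2)
  have hFT := F_nonneg μ T
  have k3 : Real.exp (-(T / 2)) ≤ Real.exp (-s) := Real.exp_le_exp.2 (by linarith)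
  have k4 : 20 * ∫ x, phi (Real.exp (-T)) x ∂μ ≤ δ / 2 * F μ (s / 2) := by
    have a1 : F μ T ≤ 2 * F μ (s / 2) := by
      have : (1 + δ') * F μ (s / 2) ≤ 2 * F μ (s / 2) := mul_le_mul_of_nonneg_right (by linarith) hF0
      linarith
    have a2 : B * Real.exp (-(T / 2)) * F μ T ≤ B * Real.exp (-s) * (2 * F μ (s / 2)) :=
      mul_le_mul (mul_le_mul_of_nonneg_left k3 hB.le) a1 hFT (by positivity)
    have a3 := hs2 s hsc
    have a4 : 40 * B * Real.exp (-s) * F μ (s / 2) ≤ δ / 2 * F μ (s / 2) :=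
      mul_le_mul_of_nonneg_right a3 hF0
    calc 20 * ∫ x, phi (Real.exp (-T)) x ∂μ ≤ 20 * (B * Real.exp (-s) * (2 * F μ (s / 2))) := by
          linarith
      _ = 40 * B * Real.exp (-s) * F μ (s / 2) := by ring
      _ ≤ _ := a4
  have k5 : 2 * (F μ T - F μ (s / 2)) ≤ δ / 2 * F μ (s / 2) := by
    have : 2 * (F μ T - F μ (s / 2)) ≤ 2 * (δ' * F μ (s / 2)) := by linarith
    have b2 : δ' * F μ (s / 2) ≤ δ / 4 * F μ (s / 2) := mul_le_mul_of_nonneg_right hδ'2 hF0
    linarith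
  have hfin : ∫ x, g x ∂μ ≤ ∫ x, E.indicator g x ∂μ + 2 * (F μ T - F μ (s / 2)) +
      20 * ∫ x, phi (Real.exp (-T)) x ∂μ := by
    rw [← j1, ← j2]
    exact hint
  linarith

end Pool.Agent.Q190.SV
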