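import Mathlib
import Pool.Agent.Q190.SV.Four

/-!
# Slow variation of the averages of the Fourier coefficients
-/

set_option autoImplicit false

open MeasureTheory Finset Filter Topology

namespace Pool.Agent.Q190.SV

open Pool.Agent.H819 (TwoGen)


lemma cosm_int (m : ℕ) (μ : Measure UnitAddCircle) [IsProbabilityMeasure μ] : Integrable (cosm m) μ := by
  refine Integrable.of_bound (C := 1) (cosm_cont m).aestronglyMeasurable ?_
  exact Eventually.of_forall fun x => by
    rw [Real.norm_eq_abs]; exact cosm_abs m x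

lemma dir_int (N : ℕ) (μ : Measure UnitAddCircle) [IsProbabilityMeasure μ] : Integrable (dir N) μ := by
  refine Integrable.of_bound (C := 1) (dir_cont N).aestronglyMeasurable ?_
  exact Eventually.of_forall fun x => by
    rw [Real.norm_eq_abs]; exact dir_abs N x

lemma one_sub_dir_integral {N : ℕ} (hN : 0 < N) (μ : Measure UnitAddCircle) [IsProbabilityMeasure μ] :
    ∫ x, (1 - dir N x) ∂μ = (1 / (N : ℝ)) * ∑ m ∈ Finset.range N, (1 - ∫ x, cosm (m + 1) x ∂μ) := by
  have hN0 : (0 : ℝ) < N := by exact_mod_cast hN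
  rw [integral_sub (integrable_const _) (dir_int N μ)]
  have e : ∫ x, dir N x ∂μ = (1 / (N : ℝ)) * ∑ m ∈ Finset.range N, ∫ x, cosm (m + 1) x ∂μ := by
    unfold dir
    rw [integral_const_mul, integral_finsetSum _ (fun m _ => cosm_int (m + 1) μ)]
  rw [e, Finset.sum_sub_distrib]
  simp only [integral_const, probReal_univ, smul_eq_mul, mul_one, Finset.sum_const,
    Finset.card_range, nsmul_eq_mul]
  field_simp

/-- the core: everything is compared with the tail function -/
theorem avg_core {p q : ℕ} (h : TwoGen p q) {C κ : ℝ} (hC : 1 ≤ C) (hκ : 0 < κ) :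
    ∃ N0 : ℕ, 2 ≤ N0 ∧ ∀ N : ℕ, N0 ≤ N → ∀ μ : Measure UnitAddCircle, IsProbabilityMeasure μ → Inv p q μ →
      (1 - κ) * F μ (Real.log N / 2) ≤ ∫ x, (1 - dir N x) ∂μ ∧
      (∀ M : ℕ, N ≤ M → (M : ℝ) ≤ (N : ℝ) ^ C →
        ∫ x, (1 - dir M x) ∂μ ≤ (1 + 2 * κ) * F μ (Real.log N / 2)) ∧
      (∀ n : ℕ, (n : ℝ) ≤ (N : ℝ) ^ C →
        1 - ∫ x, cosm n x ∂μ ≤ (2 + κ) * F μ (Real.log N / 2)) := by
  obtain ⟨s0, hs0, hup⟩ := upper h hC hκ
  have hlim : Tendsto (fun N : ℕ => Real.exp (-(Real.log N / 2)) / 2) atTop (𝓝 0) := by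
    have h1 : Tendsto (fun N : ℕ => Real.log N / 2) atTop atTop :=
      (Real.tendsto_log_atTop.comp tendsto_natCast_atTop_atTop).atTop_div_const (by norm_num)
    have h2 := (Real.tendsto_exp_neg_atTop_nhds_zero.comp h1).div_const 2
    rw [zero_div] at h2
    exact h2
  have hlog : Tendsto (fun N : ℕ => Real.log N) atTop atTop :=
    Real.tendsto_log_atTop.comp tendsto_natCast_atTop_atTop
  obtain ⟨N1, hN1⟩ := eventually_atTop.1 ((hlim.eventually_le_const hκ).and
    (hlog.eventually_ge_atTop s0))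
  refine ⟨max N1 2, le_max_right _ _, fun N hN μ hμ hinv => ?_⟩
  have hN2 : 2 ≤ N := (le_max_right _ _).trans hN
  obtain ⟨hk, hsN⟩ := hN1 N ((le_max_left _ _).trans hN)
  have hN0 : (0 : ℝ) < N := by exact_mod_cast (by omega : 0 < N)
  set s : ℝ := Real.log N with hs
  have hexp : Real.exp s = N := Real.exp_log hN0
  have hF0 := F_nonneg μ (s / 2)
  set E : Set UnitAddCircle := {x : UnitAddCircle | Real.exp (-(s / 2)) ≤ ‖x‖} with hE
  have hEm : MeasurableSet E := closed_ge _
  -- the bound for the averages outside of the ball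
  have hdir : ∀ M : ℕ, N ≤ M → ∀ x ∈ E, |dir M x| ≤ κ := by
    intro M hM x hx
    have hM0 : 0 < M := by omega
    have h1 := dir_bound hM0 x
    have hx' : Real.exp (-(s / 2)) ≤ ‖x‖ := hx
    have h2 : Real.exp (s / 2) ≤ M * ‖x‖ := by
      have h3 : (N : ℝ) ≤ M := by exact_mod_cast hM
      calc Real.exp (s / 2) = Real.exp s * Real.exp (-(s / 2)) := by
            rw [← Real.exp_add]; congr 1; ring
        _ ≤ M * ‖x‖ := by
            rw [hexp]
            exact mul_le_mul h3 hx' (Real.exp_pos _).le (by linarith)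
    have h4 : |dir M x| * (2 * Real.exp (s / 2)) ≤ 1 := by
      refine le_trans ?_ h1
      exact mul_le_mul_of_nonneg_left (by linarith) (abs_nonneg _)
    have h5 : |dir M x| ≤ Real.exp (-(s / 2)) / 2 := by
      have e : Real.exp (s / 2) * Real.exp (-(s / 2)) = 1 := by rw [← Real.exp_add]; simp
      have h6 := mul_le_mul_of_nonneg_right h4 (Real.exp_pos (-(s / 2))).le
      have e2 : |dir M x| * (2 * Real.exp (s / 2)) * Real.exp (-(s / 2)) =
          2 * |dir M x| * (Real.exp (s / 2) * Real.exp (-(s / 2))) := by ring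
      rw [e2, e] at h6
      linarith
    exact h5.trans hk
  have hone : ∀ M : ℕ, ∀ x, 0 ≤ 1 - dir M x ∧ 1 - dir M x ≤ 2 := by
    intro M x
    have := abs_le.1 (dir_abs M x)
    constructor <;> linarith [this.1, this.2]
  have hind : ∀ c : ℝ, ∫ x, E.indicator (fun _ => c) x ∂μ = c * F μ (s / 2) := by
    intro c
    rw [integral_indicator hEm, setIntegral_const, smul_eq_mul, mul_comm]
    rfl
  have hi : ∀ c : ℝ, Integrable (E.indicator (fun _ => c)) μ := fun c =>
    (integrable_const c).indicator hEm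
  refine ⟨?_, ?_, ?_⟩
  · rw [← hind (1 - κ)]
    refine integral_mono (hi _) ((integrable_const _).sub (dir_int N μ)) fun x => ?_
    by_cases hx : x ∈ E
    · rw [Set.indicator_of_mem hx]
      have := abs_le.1 (hdir N le_rfl x hx)
      change 1 - κ ≤ 1 - dir N x
      linarith [this.2]
    · rw [Set.indicator_of_notMem hx]
      exact (hone N x).1
  · intro M hM hMC
    have hM0 : 0 < M := by omega
    have key := hup s hsN μ hμ hinv (fun x => 1 - dir M x)
      ((continuous_const.sub (dir_cont M)).measurable) (fun x => (hone M x).1)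
      (fun x => (hone M x).2) (fun x => by
        rcases dir_sq (le_refl M) x with h1 | h1
        · refine h1.trans ?_
          have h2 : (M : ℝ) ^ 2 ≤ Real.exp (2 * C * s) := by
            have e : Real.exp (2 * C * s) = ((N : ℝ) ^ C) ^ 2 := by
              rw [← Real.rpow_natCast ((N : ℝ) ^ C) 2, ← Real.rpow_mul hN0.le,
                Real.rpow_def_of_pos hN0]
              congr 1; push_cast; ring
            rw [e]
            have : (0 : ℝ) ≤ M := Nat.cast_nonneg M
            nlinarith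
          have h3 : 0 ≤ ‖x‖ ^ 2 := by positivity
          nlinarith
        · omega)
    refine key.trans ?_
    have h1 : ∫ x, E.indicator (fun x => 1 - dir M x) x ∂μ ≤ (1 + κ) * F μ (s / 2) := by
      rw [← hind (1 + κ)]
      refine integral_mono (((integrable_const _).sub (dir_int M μ)).indicator hEm) (hi _)
        fun x => ?_
      by_cases hx : x ∈ E
      · rw [Set.indicator_of_mem hx, Set.indicator_of_mem hx]
        have := abs_le.1 (hdir M hM x hx)
        linarith [this.1]
      · rw [Set.indicator_of_notMem hx, Set.indicator_of_notMem hx]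
    have e : (1 + 2 * κ) * F μ (s / 2) = (1 + κ) * F μ (s / 2) + κ * F μ (s / 2) := by ring
    rw [e]
    linarith
  · intro n hn
    have hcn : ∀ x, 0 ≤ 1 - cosm n x ∧ 1 - cosm n x ≤ 2 := by
      intro x
      have := abs_le.1 (cosm_abs n x)
      constructor <;> linarith [this.1, this.2]
    have key := hup s hsN μ hμ hinv (fun x => 1 - cosm n x)
      ((continuous_const.sub (cosm_cont n)).measurable) (fun x => (hcn x).1)
      (fun x => (hcn x).2) (fun x => by
        refine (cosm_sq n x).trans ?_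
        have h2 : (n : ℝ) ^ 2 ≤ Real.exp (2 * C * s) := by
          have e : Real.exp (2 * C * s) = ((N : ℝ) ^ C) ^ 2 := by
            rw [← Real.rpow_natCast ((N : ℝ) ^ C) 2, ← Real.rpow_mul hN0.le,
              Real.rpow_def_of_pos hN0]
            congr 1; push_cast; ring
          rw [e]
          have : (0 : ℝ) ≤ n := Nat.cast_nonneg n
          nlinarith
        have h3 : 0 ≤ ‖x‖ ^ 2 := by positivity
        nlinarith)
    have e0 : 1 - ∫ x, cosm n x ∂μ = ∫ x, (1 - cosm n x) ∂μ := by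
      rw [integral_sub (integrable_const _) (cosm_int n μ)]
      simp
    rw [e0]
    refine key.trans ?_
    have h1 : ∫ x, E.indicator (fun x => 1 - cosm n x) x ∂μ ≤ 2 * F μ (s / 2) := by
      rw [← hind 2]
      refine integral_mono (((integrable_const _).sub (cosm_int n μ)).indicator hEm) (hi _)
        fun x => ?_
      by_cases hx : x ∈ E
      · rw [Set.indicator_of_mem hx, Set.indicator_of_mem hx]
        exact (hcn x).2
      · rw [Set.indicator_of_notMem hx, Set.indicator_of_notMem hx]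
    have e : (2 + κ) * F μ (s / 2) = 2 * F μ (s / 2) + κ * F μ (s / 2) := by ring
    rw [e]
    linarith

/-- **Slow variation of the averages of the Fourier coefficients.** -/
theorem avg {p q : ℕ} (h : TwoGen p q) {C ε : ℝ} (hC : 1 ≤ C) (hε : 0 < ε) :
    ∃ N0 : ℕ, 2 ≤ N0 ∧ ∀ N : ℕ, N0 ≤ N → ∀ μ : Measure UnitAddCircle, IsProbabilityMeasure μ → Inv p q μ →
      (∀ M : ℕ, N ≤ M → (M : ℝ) ≤ (N : ℝ) ^ C →
        (1 / (M : ℝ)) * ∑ m ∈ Finset.range M, (1 - ∫ x, cosm (m + 1) x ∂μ) ≤
          (1 + ε) * ((1 / (N : ℝ)) * ∑ m ∈ Finset.range N, (1 - ∫ x, cosm (m + 1) x ∂μ))) ∧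
      (∀ n : ℕ, (n : ℝ) ≤ (N : ℝ) ^ C →
        1 - ∫ x, cosm n x ∂μ ≤
          (2 + ε) * ((1 / (N : ℝ)) * ∑ m ∈ Finset.range N, (1 - ∫ x, cosm (m + 1) x ∂μ))) := by
  set ε' : ℝ := min 1 ε with hε'
  have hε'0 : 0 < ε' := lt_min one_pos hε
  have hε'1 : ε' ≤ 1 := min_le_left _ _
  have hε'2 : ε' ≤ ε := min_le_right _ _
  obtain ⟨N0, hN0, hcore⟩ := avg_core h hC (show 0 < ε' / 8 by positivity)
  refine ⟨N0, hN0, fun N hN μ hμ hinv => ?_⟩
  obtain ⟨h1, h2, h3⟩ := hcore N hN μ hμ hinv
  have hNpos : 0 < N := by omega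
  rw [← one_sub_dir_integral hNpos μ]
  have hF0 := F_nonneg μ (Real.log N / 2)
  set Fv := F μ (Real.log N / 2) with hFv
  have hA0 : 0 ≤ ∫ x, (1 - dir N x) ∂μ := by
    refine le_trans (mul_nonneg ?_ hF0) h1
    linarith
  constructor
  · intro M hM hMC
    rw [← one_sub_dir_integral (by omega : 0 < M) μ]
    have h4 := h2 M hM hMC
    have h5 : (1 + 2 * (ε' / 8)) * Fv ≤ (1 + ε') * ((1 - ε' / 8) * Fv) := by
      have : 1 + 2 * (ε' / 8) ≤ (1 + ε') * (1 - ε' / 8) := by nlinarith
      calc (1 + 2 * (ε' / 8)) * Fv ≤ ((1 + ε') * (1 - ε' / 8)) * Fv :=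
            mul_le_mul_of_nonneg_right this hF0
        _ = _ := by ring
    have h6 : (1 + ε') * ((1 - ε' / 8) * Fv) ≤ (1 + ε) * ∫ x, (1 - dir N x) ∂μ := by
      calc (1 + ε') * ((1 - ε' / 8) * Fv) ≤ (1 + ε') * ∫ x, (1 - dir N x) ∂μ :=
            mul_le_mul_of_nonneg_left h1 (by linarith)
        _ ≤ _ := mul_le_mul_of_nonneg_right (by linarith) hA0
    linarith
  · intro n hn
    have h4 := h3 n hn
    have h5 : (2 + ε' / 8) * Fv ≤ (2 + ε') * ((1 - ε' / 8) * Fv) := by
      have : 2 + ε' / 8 ≤ (2 + ε') * (1 - ε' / 8) := by nlinarith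
      calc (2 + ε' / 8) * Fv ≤ ((2 + ε') * (1 - ε' / 8)) * Fv :=
            mul_le_mul_of_nonneg_right this hF0
        _ = _ := by ring
    have h6 : (2 + ε') * ((1 - ε' / 8) * Fv) ≤ (2 + ε) * ∫ x, (1 - dir N x) ∂μ := by
      calc (2 + ε') * ((1 - ε' / 8) * Fv) ≤ (2 + ε') * ∫ x, (1 - dir N x) ∂μ :=
            mul_le_mul_of_nonneg_left h1 (by linarith)
        _ ≤ _ := mul_le_mul_of_nonneg_right (by linarith) hA0
    linarith

end Pool.Agent.Q190.SV
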