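import Mathlib
import Pool.Agent.Q190.SV.Avg
import Pool.Agent.Q123.CV.Ext
import Pool.Agent.H514R3.Herg

/-!
# Conditionally negative definite functions on the integers
-/

set_option autoImplicit false

open MeasureTheory Finset Filter Topology
open scoped Matrix

namespace Pool.Agent.Q190.SV

open Pool.Agent.H819 (TwoGen)
open Pool.Agent.H514R3 (PD lag herglotz)


lemma quad_nonneg {n : ℕ} {K : Matrix (Fin n) (Fin n) ℝ} (hK : K.PosSemidef) (x : Fin n → ℝ) :
    0 ≤ ∑ i, ∑ j, x i * x j * K i j := by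
  have h := hK.dotProduct_mulVec_nonneg x
  have e : star x ⬝ᵥ (K *ᵥ x) = ∑ i, ∑ j, x i * x j * K i j := by
    simp only [dotProduct, Matrix.mulVec, star_trivial, Finset.mul_sum]
    exact Finset.sum_congr rfl fun i _ => Finset.sum_congr rfl fun j _ => by ring
  rwa [e] at h

lemma psd_of_quad {n : ℕ} {K : Matrix (Fin n) (Fin n) ℝ} (hs : ∀ i j, K i j = K j i)
    (h : ∀ x : Fin n → ℝ, 0 ≤ ∑ i, ∑ j, x i * x j * K i j) : K.PosSemidef := by
  rw [Matrix.posSemidef_iff_dotProduct_mulVec]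
  refine ⟨?_, fun x => ?_⟩
  · ext i j
    simp [Matrix.conjTranspose_apply, hs i j]
  · have e : star x ⬝ᵥ (K *ᵥ x) = ∑ i, ∑ j, x i * x j * K i j := by
      simp only [dotProduct, Matrix.mulVec, star_trivial, Finset.mul_sum]
      exact Finset.sum_congr rfl fun i _ => Finset.sum_congr rfl fun j _ => by ring
    rw [e]; exact h x

lemma pow_psd {n : ℕ} {K : Matrix (Fin n) (Fin n) ℝ} (hK : K.PosSemidef) (m : ℕ) :
    (Matrix.of fun i j => K i j ^ m).PosSemidef := by
  induction m with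
  | zero =>
    refine psd_of_quad (fun i j => by simp) fun x => ?_
    have e : ∑ i, ∑ j, x i * x j * (Matrix.of fun i j => K i j ^ 0) i j = (∑ i, x i) ^ 2 := by
      simp only [Matrix.of_apply, pow_zero, mul_one]
      rw [sq, Finset.sum_mul_sum]
    rw [e]; positivity
  | succ m ih =>
    have h := ih.hadamard hK
    have e : (Matrix.of fun i j => K i j ^ (m + 1)) =
        Matrix.hadamard (Matrix.of fun i j => K i j ^ m) K := by
      ext i j
      simp [Matrix.hadamard_apply, pow_succ]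
    rw [e]; exact h

/-- **Schoenberg**: the entrywise exponential of a positive semidefinite matrix -/
lemma exp_quad {n : ℕ} {K : Matrix (Fin n) (Fin n) ℝ} (hK : K.PosSemidef) {t : ℝ} (ht : 0 ≤ t)
    (x : Fin n → ℝ) : 0 ≤ ∑ i, ∑ j, x i * x j * Real.exp (t * K i j) := by
  have h1 : ∀ y : ℝ, HasSum (fun m : ℕ => y ^ m / (m.factorial : ℝ)) (Real.exp y) := by
    intro y
    rw [Real.exp_eq_exp_ℝ]
    exact NormedSpace.expSeries_div_hasSum_exp y
  have h2 : HasSum (fun m : ℕ => ∑ i, ∑ j, x i * x j * ((t * K i j) ^ m / (m.factorial : ℝ)))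
      (∑ i, ∑ j, x i * x j * Real.exp (t * K i j)) :=
    hasSum_sum fun i _ => hasSum_sum fun j _ => (h1 (t * K i j)).mul_left _
  refine h2.nonneg fun m => ?_
  have h3 := quad_nonneg (pow_psd hK m) x
  have e : ∑ i, ∑ j, x i * x j * ((t * K i j) ^ m / (m.factorial : ℝ)) =
      t ^ m / (m.factorial : ℝ) * ∑ i, ∑ j, x i * x j * (Matrix.of fun i j => K i j ^ m) i j := by
    rw [Finset.mul_sum]
    refine Finset.sum_congr rfl fun i _ => ?_
    rw [Finset.mul_sum]
    refine Finset.sum_congr rfl fun j _ => ?_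
    simp only [Matrix.of_apply, mul_pow]
    ring
  rw [e]
  exact mul_nonneg (by positivity) h3

/-- conditionally negative definite functions on the integers, vanishing at `0` -/
def CND (ψ : ℤ → ℝ) : Prop :=
  ψ 0 = 0 ∧ (∀ n, ψ (-n) = ψ n) ∧ ∀ (S : Finset ℤ) (c : ℤ → ℝ), ∑ i ∈ S, c i = 0 →
    ∑ i ∈ S, ∑ j ∈ S, c i * c j * ψ (i - j) ≤ 0

lemma cnd_kernel {ψ : ℤ → ℝ} (h : CND ψ) (n : ℕ) :
    (Matrix.of fun i j : Fin n => ψ (i : ℕ) + ψ (j : ℕ) - ψ ((i : ℕ) - (j : ℕ) : ℤ)).PosSemidef := by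
  classical
  obtain ⟨h0, hsymm, hneg⟩ := h
  refine psd_of_quad ?_ fun x => ?_
  · intro i j
    simp only [Matrix.of_apply]
    have : ψ ((i : ℕ) - (j : ℕ) : ℤ) = ψ ((j : ℕ) - (i : ℕ) : ℤ) := by
      rw [← hsymm]; congr 1; ring
    rw [this]; ring
  · -- the coefficients
    set y : ℤ → ℝ := fun k => ∑ i : Fin n, if ((i : ℕ) : ℤ) = k then x i else 0 with hy
    set s : ℝ := ∑ i, x i with hs
    set c : ℤ → ℝ := fun k => y k - (if k = 0 then s else 0) with hc
    set S : Finset ℤ := insert 0 (univ.image fun i : Fin n => ((i : ℕ) : ℤ)) with hS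
    have hsum : ∀ f : ℤ → ℝ, ∑ k ∈ S, c k * f k = ∑ i, x i * f ((i : ℕ) : ℤ) - s * f 0 := by
      intro f
      rw [hc]
      simp only [sub_mul]
      rw [Finset.sum_sub_distrib]
      congr 1
      · rw [hy]
        simp only [Finset.sum_mul]
        rw [Finset.sum_comm]
        refine Finset.sum_congr rfl fun i _ => ?_
        rw [Finset.sum_eq_single ((i : ℕ) : ℤ)]
        · rw [if_pos rfl]
        · intro k _ hk
          rw [if_neg (fun h => hk h.symm), zero_mul]
        · intro hk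
          exfalso
          apply hk
          rw [hS]
          exact Finset.mem_insert_of_mem (Finset.mem_image_of_mem _ (Finset.mem_univ i))
      · rw [Finset.sum_eq_single (0 : ℤ)]
        · rw [if_pos rfl]
        · intro k _ hk
          rw [if_neg hk, zero_mul]
        · intro hk
          exfalso
          exact hk (Finset.mem_insert_self _ _)
    have hzero : ∑ k ∈ S, c k = 0 := by
      have := hsum (fun _ => 1)
      simp only [mul_one] at this
      rw [this, hs]; ring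
    have key := hneg S c hzero
    have e1 : ∑ i ∈ S, ∑ j ∈ S, c i * c j * ψ (i - j) =
        ∑ i ∈ S, c i * (∑ j ∈ S, c j * ψ (i - j)) := by
      refine Finset.sum_congr rfl fun i _ => ?_
      rw [Finset.mul_sum]
      exact Finset.sum_congr rfl fun j _ => by ring
    rw [e1, hsum (fun i => ∑ j ∈ S, c j * ψ (i - j))] at key
    have e2 : ∀ i : ℤ, ∑ j ∈ S, c j * ψ (i - j) =
        ∑ j : Fin n, x j * ψ (i - ((j : ℕ) : ℤ)) - s * ψ i := by
      intro i
      have := hsum (fun j => ψ (i - j))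
      rw [this, sub_zero]
    simp only [e2] at key
    have e3 : ∑ j : Fin n, x j * ψ (0 - ((j : ℕ) : ℤ)) = ∑ j : Fin n, x j * ψ ((j : ℕ) : ℤ) := by
      refine Finset.sum_congr rfl fun j _ => ?_
      rw [zero_sub, hsymm]
    rw [e3, h0, mul_zero, sub_zero] at key
    have e4 : ∑ i : Fin n, x i * (∑ j : Fin n, x j * ψ (((i : ℕ) : ℤ) - ((j : ℕ) : ℤ)) -
        s * ψ ((i : ℕ) : ℤ)) =
        ∑ i : Fin n, ∑ j : Fin n, x i * x j * ψ (((i : ℕ) : ℤ) - ((j : ℕ) : ℤ)) -
          s * ∑ i : Fin n, x i * ψ ((i : ℕ) : ℤ) := by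
      rw [Finset.mul_sum, ← Finset.sum_sub_distrib]
      refine Finset.sum_congr rfl fun i _ => ?_
      rw [mul_sub, Finset.mul_sum]
      congr 1
      · exact Finset.sum_congr rfl fun j _ => by ring
      · ring
    rw [e4] at key
    have e5 : ∑ i : Fin n, ∑ j : Fin n, x i * x j *
        (Matrix.of fun i j : Fin n => ψ (i : ℕ) + ψ (j : ℕ) - ψ ((i : ℕ) - (j : ℕ) : ℤ)) i j =
        2 * (s * ∑ i : Fin n, x i * ψ ((i : ℕ) : ℤ)) -
          ∑ i : Fin n, ∑ j : Fin n, x i * x j * ψ (((i : ℕ) : ℤ) - ((j : ℕ) : ℤ)) := by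
      have a1 : s * ∑ i : Fin n, x i * ψ ((i : ℕ) : ℤ) =
          ∑ i : Fin n, ∑ j : Fin n, x i * x j * ψ ((j : ℕ) : ℤ) := by
        rw [hs, Finset.sum_mul_sum]
        exact Finset.sum_congr rfl fun i _ => Finset.sum_congr rfl fun j _ => by ring
      have a2 : s * ∑ i : Fin n, x i * ψ ((i : ℕ) : ℤ) =
          ∑ i : Fin n, ∑ j : Fin n, x i * x j * ψ ((i : ℕ) : ℤ) := by
        rw [a1, Finset.sum_comm]
        exact Finset.sum_congr rfl fun i _ => Finset.sum_congr rfl fun j _ => by ring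
      rw [two_mul]
      nth_rewrite 1 [a2]
      rw [a1, ← Finset.sum_add_distrib, ← Finset.sum_sub_distrib]
      refine Finset.sum_congr rfl fun i _ => ?_
      rw [← Finset.sum_add_distrib, ← Finset.sum_sub_distrib]
      refine Finset.sum_congr rfl fun j _ => ?_
      simp only [Matrix.of_apply]
      ring
    rw [e5]
    linarith

lemma cnd_natAbs {ψ : ℤ → ℝ} (h : CND ψ) (m : ℤ) : ψ (m.natAbs : ℤ) = ψ m := by
  rcases Int.natAbs_eq m with hm | hm
  · rw [← hm]
  · conv_rhs => rw [hm]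
    rw [h.2.1]

lemma cnd_pd {ψ : ℤ → ℝ} (h : CND ψ) {t : ℝ} (ht : 0 ≤ t) :
    PD (fun m : ℕ => Real.exp (-(t * ψ m))) := by
  intro N a
  have hK := cnd_kernel h N
  have h1 := exp_quad hK ht (fun i : Fin N => a i * Real.exp (-(t * ψ ((i : ℕ) : ℤ))))
  have e : ∑ i : Fin N, ∑ j : Fin N, a i * Real.exp (-(t * ψ ((i : ℕ) : ℤ))) *
      (a j * Real.exp (-(t * ψ ((j : ℕ) : ℤ)))) *
      Real.exp (t * (Matrix.of fun i j : Fin N =>
        ψ (i : ℕ) + ψ (j : ℕ) - ψ ((i : ℕ) - (j : ℕ) : ℤ)) i j) =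
      ∑ j ∈ range N, ∑ k ∈ range N, a j * a k * Real.exp (-(t * ψ (lag j k : ℕ))) := by
    rw [Finset.sum_range]
    refine Finset.sum_congr rfl fun i _ => ?_
    rw [Finset.sum_range]
    refine Finset.sum_congr rfl fun j _ => ?_
    have e1 : ψ (lag i j : ℕ) = ψ (((i : ℕ) : ℤ) - ((j : ℕ) : ℤ)) := by
      unfold lag
      exact cnd_natAbs h _
    rw [e1]
    simp only [Matrix.of_apply]
    have e2 : Real.exp (-(t * ψ (((i : ℕ) : ℤ) - ((j : ℕ) : ℤ)))) =
        Real.exp (-(t * ψ ((i : ℕ) : ℤ))) * Real.exp (-(t * ψ ((j : ℕ) : ℤ))) *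
        Real.exp (t * (ψ (i : ℕ) + ψ (j : ℕ) - ψ ((i : ℕ) - (j : ℕ) : ℤ))) := by
      rw [← Real.exp_add, ← Real.exp_add]
      congr 1
      ring
    rw [e2]
    ring
  rw [e] at h1
  exact h1

end Pool.Agent.Q190.SV
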