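import Mathlib
import Pool.Agent.Q190.SV.Neg

/-!
# Invariant measures from invariant conditionally negative definite functions
-/

set_option autoImplicit false

open MeasureTheory Finset Filter Topology

namespace Pool.Agent.Q190.SV

open Pool.Agent.H819 (TwoGen)
open Pool.Agent.H514R3 (PD lag herglotz)


lemma fourier_nsmul (m : ℤ) (p : ℕ) (x : UnitAddCircle) : fourier m (p • x) = fourier (m * p) x := by
  obtain ⟨t, rfl, _⟩ := exists_rep x
  have e : p • (t : UnitAddCircle) = ((p * t : ℝ) : UnitAddCircle) := by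
    rw [← AddCircle.coe_nsmul, nsmul_eq_mul]
  rw [e, fourier_coe_apply, fourier_coe_apply]
  congr 1
  push_cast; ring

lemma nsmul_meas (p : ℕ) : Measurable (fun x : UnitAddCircle => p • x) :=
  (continuous_const_smul p).measurable

/-- a probability measure with given real even Fourier coefficients -/
lemma exists_meas {r : ℕ → ℝ} (hr : PD r) (h0 : r 0 = 1) : ∃ μ : Measure UnitAddCircle,
    IsProbabilityMeasure μ ∧ ∀ m : ℤ, ∫ x, fourier m x ∂μ = (r m.natAbs : ℂ) := by
  obtain ⟨σ, hσ, _, hσr⟩ := herglotz r hr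
  have hmass : σ.real Set.univ = 1 := by
    have := hσr 0
    rw [h0] at this
    simpa using this.symm
  have hσp : IsProbabilityMeasure σ := by
    constructor
    have h1 : (σ Set.univ).toReal = 1 := hmass
    rw [← ENNReal.ofReal_toReal (measure_ne_top σ Set.univ), h1, ENNReal.ofReal_one]
  set f : ℝ → UnitAddCircle := fun x => ((x / (2 * Real.pi) : ℝ) : UnitAddCircle) with hf
  have hfm : Measurable f := (AddCircle.measurable_mk').comp (measurable_id.div_const _)
  set g : ℝ → UnitAddCircle := fun x => -f x with hg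
  have hgm : Measurable g := hfm.neg
  have hf1 : IsProbabilityMeasure (σ.map f) := Measure.isProbabilityMeasure_map hfm.aemeasurable
  have hg1 : IsProbabilityMeasure (σ.map g) := Measure.isProbabilityMeasure_map hgm.aemeasurable
  refine ⟨(2⁻¹ : ENNReal) • σ.map f + (2⁻¹ : ENNReal) • σ.map g, ?_, ?_⟩
  · constructor
    simp only [Measure.add_apply, Measure.smul_apply, measure_univ, smul_eq_mul, mul_one]
    exact ENNReal.inv_two_add_inv_two
  · intro m
    have hi : ∀ (ρ : Measure UnitAddCircle) [IsProbabilityMeasure ρ], Integrable (fun x => fourier m x) ρ := by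
      intro ρ _
      refine Integrable.of_bound (C := 1) (ContinuousMap.continuous _).aestronglyMeasurable ?_
      exact Eventually.of_forall fun x => by rw [fourier_apply, Circle.norm_coe]
    rw [integral_add_measure ((hi _).smul_measure (by simp)) ((hi _).smul_measure (by simp)),
      integral_smul_measure, integral_smul_measure,
      integral_map hfm.aemeasurable (ContinuousMap.continuous _).aestronglyMeasurable,
      integral_map hgm.aemeasurable (ContinuousMap.continuous _).aestronglyMeasurable]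
    have e1 : ∀ x : ℝ, fourier m (f x) = Complex.exp ((m * x : ℝ) * Complex.I) := by
      intro x
      rw [hf]
      simp only
      rw [fourier_coe_apply]
      congr 1
      push_cast
      have : (Real.pi : ℂ) ≠ 0 := by exact_mod_cast Real.pi_ne_zero
      field_simp
    have e2 : ∀ x : ℝ, fourier m (g x) = Complex.exp ((-(m * x) : ℝ) * Complex.I) := by
      intro x
      rw [hg, hf]
      simp only
      rw [← AddCircle.coe_neg, fourier_coe_apply]
      congr 1
      push_cast
      have : (Real.pi : ℂ) ≠ 0 := by exact_mod_cast Real.pi_ne_zero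
      field_simp
    simp only [e1, e2]
    have h2 : (2⁻¹ : ENNReal).toReal = 1 / 2 := by simp
    rw [h2]
    have hb : ∀ c : ℝ → ℝ, Continuous c → Integrable (fun x => Complex.exp ((c x : ℝ) * Complex.I)) σ := by
      intro c hc
      refine Integrable.of_bound (C := 1) ?_ ?_
      · exact (Complex.continuous_exp.comp
          ((Complex.continuous_ofReal.comp hc).mul continuous_const)).aestronglyMeasurable
      · exact Eventually.of_forall fun x => by rw [Complex.norm_exp_ofReal_mul_I]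
    rw [← smul_add, ← integral_add (hb _ (by fun_prop)) (hb _ (by fun_prop))]
    have e3 : ∀ x : ℝ, Complex.exp ((m * x : ℝ) * Complex.I) + Complex.exp ((-(m * x) : ℝ) * Complex.I) =
        ((2 * Real.cos (m.natAbs * x) : ℝ) : ℂ) := by
      intro x
      have hcos : Real.cos (m.natAbs * x) = Real.cos (m * x) := by
        rcases abs_choice (m : ℝ) with h | h
        · have : ((m.natAbs : ℕ) : ℝ) = m := by rw [Nat.cast_natAbs, Int.cast_abs, h]
          rw [this]
        · have : ((m.natAbs : ℕ) : ℝ) = -m := by rw [Nat.cast_natAbs, Int.cast_abs, h]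
          rw [this, neg_mul, Real.cos_neg]
      rw [hcos]
      rw [Complex.exp_mul_I, Complex.exp_mul_I]
      push_cast
      rw [Complex.cos_neg, Complex.sin_neg]
      ring
    simp only [e3]
    have e4 : ∫ x, ((2 * Real.cos (m.natAbs * x) : ℝ) : ℂ) ∂σ = ((2 * r m.natAbs : ℝ) : ℂ) := by
      rw [hσr m.natAbs, ← integral_const_mul]
      exact integral_ofReal
    rw [e4, Complex.real_smul]
    push_cast
    ring

lemma inv_of_coeff {μ : Measure UnitAddCircle} [IsProbabilityMeasure μ] {p : ℕ}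
    (h : ∀ m : ℤ, ∫ x, fourier (m * p) x ∂μ = ∫ x, fourier m x ∂μ) :
    MeasurePreserving (fun x : UnitAddCircle => p • x) μ μ := by
  refine ⟨nsmul_meas p, ?_⟩
  have : IsProbabilityMeasure (μ.map (fun x : UnitAddCircle => p • x)) :=
    Measure.isProbabilityMeasure_map (nsmul_meas p).aemeasurable
  refine Q123.CV.ext_fourier fun m => ?_
  change ∫ x, fourier m x ∂(μ.map (fun x : UnitAddCircle => p • x)) = ∫ x, fourier m x ∂μ
  rw [integral_map (nsmul_meas p).aemeasurable (ContinuousMap.continuous _).aestronglyMeasurable]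
  simp only [fourier_nsmul]
  exact h m

/-- invariant measures from invariant conditionally negative definite functions -/
theorem cnd_measure {ψ : ℤ → ℝ} (h : CND ψ) {p q : ℕ} (hp : ∀ n : ℤ, ψ (n * p) = ψ n)
    (hq : ∀ n : ℤ, ψ (n * q) = ψ n) {t : ℝ} (ht : 0 ≤ t) :
    ∃ μ : Measure UnitAddCircle, IsProbabilityMeasure μ ∧ Inv p q μ ∧
      ∀ m : ℕ, ∫ x, cosm m x ∂μ = Real.exp (-(t * ψ m)) := by
  obtain ⟨μ, hμ, hc⟩ := exists_meas (cnd_pd h ht) (by simp [h.1])
  refine ⟨μ, hμ, ⟨inv_of_coeff fun m => ?_, inv_of_coeff fun m => ?_⟩, fun m => ?_⟩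
  · rw [hc, hc, cnd_natAbs h, cnd_natAbs h, hp]
  · rw [hc, hc, cnd_natAbs h, cnd_natAbs h, hq]
  · unfold cosm
    have hi : Integrable (fun x : UnitAddCircle => fourier (m : ℤ) x) μ := by
      refine Integrable.of_bound (C := 1) (ContinuousMap.continuous _).aestronglyMeasurable ?_
      exact Eventually.of_forall fun x => by rw [fourier_apply, Circle.norm_coe]
    have h1 := hc m
    have h2 : ∫ x, (fourier (m : ℤ) x).re ∂μ = (∫ x, fourier (m : ℤ) x ∂μ).re := by
      have := integral_re hi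
      simpa using this
    rw [h2, h1, Complex.ofReal_re, Int.natAbs_natCast]

lemma cnd_nonneg {ψ : ℤ → ℝ} (h : CND ψ) (n : ℤ) : 0 ≤ ψ n := by
  classical
  obtain ⟨h0, hs, hn⟩ := h
  by_cases hn0 : n = 0
  · rw [hn0, h0]
  have := hn {0, n} (fun k => if k = 0 then 1 else -1) (by
    rw [Finset.sum_pair (fun h => hn0 h.symm)]
    simp [hn0])
  rw [Finset.sum_pair (fun h => hn0 h.symm), Finset.sum_pair (fun h => hn0 h.symm),
    Finset.sum_pair (fun h => hn0 h.symm)] at this
  simp only [if_true, if_neg hn0, sub_self, h0, zero_sub, sub_zero, hs] at this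
  linarith

/-- **Slow variation of conditionally negative definite functions** invariant under `n ↦ p n` and
`n ↦ q n`. -/
theorem cnd_slow {p q : ℕ} (h : TwoGen p q) {C ε : ℝ} (hC : 1 ≤ C) (hε : 0 < ε) :
    ∃ N0 : ℕ, 2 ≤ N0 ∧ ∀ ψ : ℤ → ℝ, CND ψ → (∀ n : ℤ, ψ (n * p) = ψ n) →
      (∀ n : ℤ, ψ (n * q) = ψ n) → ∀ N : ℕ, N0 ≤ N →
      (∀ M : ℕ, N ≤ M → (M : ℝ) ≤ (N : ℝ) ^ C →
        (1 / (M : ℝ)) * ∑ m ∈ Finset.range M, ψ ((m + 1 : ℕ) : ℤ) ≤
          (1 + ε) * ((1 / (N : ℝ)) * ∑ m ∈ Finset.range N, ψ ((m + 1 : ℕ) : ℤ))) ∧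
      (∀ n : ℕ, (n : ℝ) ≤ (N : ℝ) ^ C →
        ψ n ≤ (2 + ε) * ((1 / (N : ℝ)) * ∑ m ∈ Finset.range N, ψ ((m + 1 : ℕ) : ℤ))) := by
  obtain ⟨N0, hN0, hav⟩ := avg h hC hε
  refine ⟨N0, hN0, fun ψ hψ hp hq N hN => ?_⟩
  -- the limit of the difference quotients
  have hlim1 : ∀ a : ℝ, Tendsto (fun t : ℝ => (1 - Real.exp (-(t * a))) / t) (𝓝[>] 0) (𝓝 a) := by
    intro a
    have h1 : HasDerivAt (fun t : ℝ => 1 - Real.exp (-(t * a))) a 0 := by
      have h2a : HasDerivAt (fun t : ℝ => -(t * a)) (-(1 * a)) 0 :=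
        ((hasDerivAt_id (0 : ℝ)).mul_const a).fun_neg
      have h3 := (h2a.exp).const_sub 1
      have e : -(Real.exp (-(0 * a)) * -(1 * a)) = a := by simp
      rwa [e] at h3
    have h4 := h1.tendsto_slope_zero_right
    refine h4.congr' ?_
    filter_upwards [self_mem_nhdsWithin] with t ht
    simp only [zero_add, zero_mul, neg_zero, Real.exp_zero, sub_self, sub_zero, smul_eq_mul]
    rw [div_eq_inv_mul]
  have hsumlim : ∀ K : ℕ, Tendsto (fun t : ℝ => (1 / (K : ℝ)) *
      ∑ m ∈ Finset.range K, (1 - Real.exp (-(t * ψ ((m + 1 : ℕ) : ℤ)))) / t) (𝓝[>] 0)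
      (𝓝 ((1 / (K : ℝ)) * ∑ m ∈ Finset.range K, ψ ((m + 1 : ℕ) : ℤ))) := fun K =>
    (tendsto_finsetSum _ fun m _ => hlim1 _).const_mul _
  have hpos : ∀ t : ℝ, 0 < t → ∃ μ : Measure UnitAddCircle, IsProbabilityMeasure μ ∧ Inv p q μ ∧
      ∀ m : ℕ, ∫ x, cosm m x ∂μ = Real.exp (-(t * ψ m)) := fun t ht =>
    cnd_measure hψ hp hq ht.le
  constructor
  · intro M hM hMC
    refine le_of_tendsto_of_tendsto (hsumlim M) ((hsumlim N).const_mul (1 + ε)) ?_
    filter_upwards [self_mem_nhdsWithin] with t ht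
    have ht' : (0 : ℝ) < t := ht
    obtain ⟨μ, hμ, hinv, hc⟩ := hpos t ht'
    have key := (hav N hN μ hμ hinv).1 M hM hMC
    simp only [hc] at key
    have hd : ∀ K : ℕ, (1 / (K : ℝ)) *
        ∑ m ∈ Finset.range K, (1 - Real.exp (-(t * ψ ((m + 1 : ℕ) : ℤ)))) / t =
        ((1 / (K : ℝ)) * ∑ m ∈ Finset.range K, (1 - Real.exp (-(t * ψ ((m + 1 : ℕ) : ℤ))))) / t := by
      intro K
      rw [← Finset.sum_div]; ring
    rw [hd, hd, ← mul_div_assoc]
    exact div_le_div_of_nonneg_right key ht'.le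
  · intro n hn
    refine le_of_tendsto_of_tendsto (hlim1 (ψ n)) ((hsumlim N).const_mul (2 + ε)) ?_
    filter_upwards [self_mem_nhdsWithin] with t ht
    have ht' : (0 : ℝ) < t := ht
    obtain ⟨μ, hμ, hinv, hc⟩ := hpos t ht'
    have key := (hav N hN μ hμ hinv).2 n hn
    simp only [hc] at key
    have hd : ∀ K : ℕ, (1 / (K : ℝ)) *
        ∑ m ∈ Finset.range K, (1 - Real.exp (-(t * ψ ((m + 1 : ℕ) : ℤ)))) / t =
        ((1 / (K : ℝ)) * ∑ m ∈ Finset.range K, (1 - Real.exp (-(t * ψ ((m + 1 : ℕ) : ℤ))))) / t := by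
      intro K
      rw [← Finset.sum_div]; ring
    rw [hd, ← mul_div_assoc]
    exact div_le_div_of_nonneg_right key ht'.le

end Pool.Agent.Q190.SV
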