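import Mathlib
import Pool.Agent.Q190.SV.NegM

/-!
# Differences of independent points, and balls
-/

set_option autoImplicit false

open MeasureTheory Finset Filter Topology

namespace Pool.Agent.Q190.SV

open Pool.Agent.H819 (TwoGen)


/-- the law of the difference of two independent points -/
noncomputable def diff (μ : Measure UnitAddCircle) : Measure UnitAddCircle := (μ.prod μ).map (fun z => z.1 - z.2)

lemma diff_meas : Measurable (fun z : UnitAddCircle × UnitAddCircle => z.1 - z.2) := measurable_fst.sub measurable_snd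

instance diff_prob (μ : Measure UnitAddCircle) [IsProbabilityMeasure μ] : IsProbabilityMeasure (diff μ) :=
  Measure.isProbabilityMeasure_map diff_meas.aemeasurable

lemma diff_pres {p : ℕ} {μ : Measure UnitAddCircle} [IsProbabilityMeasure μ]
    (h : MeasurePreserving (fun x : UnitAddCircle => p • x) μ μ) :
    MeasurePreserving (fun x : UnitAddCircle => p • x) (diff μ) (diff μ) := by
  have h1 : MeasurePreserving (Prod.map (fun x : UnitAddCircle => p • x) (fun x : UnitAddCircle => p • x))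
      (μ.prod μ) (μ.prod μ) := h.prod h
  refine ⟨h.measurable, ?_⟩
  unfold diff
  rw [Measure.map_map h.measurable diff_meas]
  have e : (fun x : UnitAddCircle => p • x) ∘ (fun z : UnitAddCircle × UnitAddCircle => z.1 - z.2) =
      (fun z : UnitAddCircle × UnitAddCircle => z.1 - z.2) ∘ (Prod.map (fun x : UnitAddCircle => p • x) (fun x : UnitAddCircle => p • x)) := by
    funext z
    simp only [Function.comp_apply, Prod.map, smul_sub]
  rw [e, ← Measure.map_map diff_meas h1.measurable, h1.map_eq]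

lemma diff_inv {p q : ℕ} {μ : Measure UnitAddCircle} [IsProbabilityMeasure μ] (h : Inv p q μ) :
    Inv p q (diff μ) := ⟨diff_pres h.1, diff_pres h.2⟩

/-- the mass of an annulus, in the form `r ^ C ≤ ‖x‖ < 2 r` -/
theorem band_r {p q : ℕ} (h : TwoGen p q) {C ε : ℝ} (hC : 1 ≤ C) (hε : 0 < ε) :
    ∃ r0 : ℝ, 0 < r0 ∧ r0 ≤ 1 / 4 ∧ ∀ r : ℝ, 0 < r → r ≤ r0 → ∀ μ : Measure UnitAddCircle,
      IsProbabilityMeasure μ → Inv p q μ → μ.real {x | r ^ C ≤ ‖x‖ ∧ ‖x‖ ≤ 2 * r} ≤ ε := by
  obtain ⟨s0, hs0, hb⟩ := band h (C := 2 * C) (by linarith) hε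
  refine ⟨min (1 / 4) (Real.exp (-s0) / 2), lt_min (by norm_num) (by positivity), min_le_left _ _,
    fun r hr hr0 μ hμ hinv => ?_⟩
  have hr4 : r ≤ 1 / 4 := hr0.trans (min_le_left _ _)
  have hr2 : 2 * r ≤ Real.exp (-s0) := by
    have := hr0.trans (min_le_right _ _)
    linarith
  set s : ℝ := -Real.log (2 * r) with hs
  have h2r : 0 < 2 * r := by linarith
  have hexp : Real.exp (-s) = 2 * r := by rw [hs, neg_neg, Real.exp_log h2r]
  have hss : s0 ≤ s := by
    have := Real.log_le_log h2r hr2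
    rw [Real.log_exp] at this
    rw [hs]; linarith
  refine le_trans (measureReal_mono ?_) (hb s hss μ hμ hinv)
  rintro x ⟨h1, h2⟩
  refine ⟨?_, by rw [hexp]; exact h2⟩
  refine le_trans ?_ h1
  rw [Real.rpow_def_of_pos hr]
  apply Real.exp_le_exp.2
  have h3 : Real.log (2 * r) * 2 ≤ Real.log r := by
    have e : Real.log (2 * r) * 2 = Real.log ((2 * r) ^ 2) := by rw [Real.log_pow]; push_cast; ring
    rw [e]
    apply Real.log_le_log (by positivity)
    nlinarith
  rw [hs]
  nlinarith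

/-- **Balls**: up to mass `ε`, the mass of a ball of radius `r` lies in a ball of radius `r ^ C`. -/
theorem arcs {p q : ℕ} (h : TwoGen p q) {C ε : ℝ} (hC : 1 ≤ C) (hε : 0 < ε) :
    ∃ r0 : ℝ, 0 < r0 ∧ r0 ≤ 1 / 4 ∧ ∀ r : ℝ, 0 < r → r ≤ r0 → ∀ μ : Measure UnitAddCircle,
      IsProbabilityMeasure μ → Inv p q μ → ∀ y : UnitAddCircle, ∃ y' : UnitAddCircle, dist y' y < r ∧
        μ.real (Metric.ball y r \ Metric.ball y' (r ^ C)) ≤ ε := by
  obtain ⟨r0, hr0, hr04, hb⟩ := band_r h hC (ε := ε ^ 2 / 2) (by positivity)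
  refine ⟨r0, hr0, hr04, fun r hr hrr μ hμ hinv y => ?_⟩
  by_contra hcon
  push Not at hcon
  set B : Set UnitAddCircle := Metric.ball y r with hB
  have hBm : MeasurableSet B := Metric.isOpen_ball.measurableSet
  have hBε : ε < μ.real B := by
    have h1 := hcon y (by rw [dist_self]; exact hr)
    exact h1.trans_le (measureReal_mono Set.sdiff_subset)
  set S : Set (UnitAddCircle × UnitAddCircle) := {z | z.1 ∈ B ∧ z.2 ∈ B ∧ r ^ C ≤ dist z.2 z.1} with hS
  have hSm : MeasurableSet S := by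
    refine (measurable_fst hBm).inter ((measurable_snd hBm).inter ?_)
    exact measurableSet_le measurable_const (measurable_snd.dist measurable_fst)
  -- the upper bound
  have hup : (μ.prod μ).real S ≤ ε ^ 2 / 2 := by
    refine le_trans ?_ (hb r hr hrr (diff μ) inferInstance (diff_inv hinv))
    have hA : MeasurableSet {x : UnitAddCircle | r ^ C ≤ ‖x‖ ∧ ‖x‖ ≤ 2 * r} := (closed_ge _).inter (closed_le _)
    unfold diff
    rw [map_measureReal_apply diff_meas hA]
    refine measureReal_mono ?_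
    rintro z ⟨h1, h2, h3⟩
    change r ^ C ≤ ‖z.1 - z.2‖ ∧ ‖z.1 - z.2‖ ≤ 2 * r
    rw [← dist_eq_norm]
    refine ⟨by rw [dist_comm]; exact h3, ?_⟩
    have h4 : dist z.1 y < r := h1
    have h5 : dist z.2 y < r := h2
    have := dist_triangle_right z.1 z.2 y
    linarith
  -- the lower bound
  have hlow : ENNReal.ofReal ε * μ B ≤ (μ.prod μ) S := by
    rw [Measure.prod_apply hSm]
    calc ENNReal.ofReal ε * μ B = ∫⁻ a, B.indicator (fun _ => ENNReal.ofReal ε) a ∂μ := by
          rw [lintegral_indicator hBm, setLIntegral_const]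
      _ ≤ _ := by
          refine lintegral_mono fun a => ?_
          by_cases ha : a ∈ B
          · rw [Set.indicator_of_mem ha]
            have h1 := (hcon a ha).le
            have h2 : ENNReal.ofReal ε ≤ μ (B \ Metric.ball a (r ^ C)) := by
              rw [ENNReal.ofReal_le_iff_le_toReal (measure_ne_top _ _)]
              exact h1
            refine h2.trans (measure_mono ?_)
            intro b hb
            refine ⟨ha, hb.1, ?_⟩
            have : ¬ dist b a < r ^ C := hb.2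
            exact not_lt.1 this
          · rw [Set.indicator_of_notMem ha]
            exact zero_le
  have hlow' : ε * μ.real B ≤ (μ.prod μ).real S := by
    have h1 := ENNReal.toReal_mono (measure_ne_top _ _) hlow
    rw [ENNReal.toReal_mul, ENNReal.toReal_ofReal hε.le] at h1
    exact h1
  nlinarith

/-- **Slow variation**, in terms of the radius. -/
theorem slow_r {p q : ℕ} (h : TwoGen p q) {C ε : ℝ} (hε : 0 < ε) :
    ∃ r0 : ℝ, 0 < r0 ∧ r0 < 1 ∧ ∀ r : ℝ, 0 < r → r ≤ r0 → ∀ μ : Measure UnitAddCircle,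
      IsProbabilityMeasure μ → Inv p q μ →
        μ.real {x | r ^ C ≤ ‖x‖} ≤ (1 + ε) * μ.real {x | r ≤ ‖x‖} := by
  obtain ⟨s0, hs0, hb⟩ := slow h C hε
  refine ⟨Real.exp (-s0), Real.exp_pos _, by rw [Real.exp_lt_one_iff]; linarith,
    fun r hr hrr μ hμ hinv => ?_⟩
  have h1 : s0 ≤ -Real.log r := by
    have := Real.log_le_log hr hrr
    rw [Real.log_exp] at this
    linarith
  have h2 := hb (-Real.log r) h1 μ hμ hinv
  unfold F at h2
  have e1 : Real.exp (-(C * -Real.log r)) = r ^ C := by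
    rw [Real.rpow_def_of_pos hr]; congr 1; ring
  have e2 : Real.exp (- -Real.log r) = r := by rw [neg_neg, Real.exp_log hr]
  rwa [e1, e2] at h2

/-- **The local form**, in terms of the radius. -/
theorem local_r {p q : ℕ} (h : TwoGen p q) {ε : ℝ} (hε : 0 < ε) :
    ∃ r0 : ℝ, 0 < r0 ∧ r0 < 1 ∧ ∀ r : ℝ, 0 < r → r ≤ r0 → ∀ μ : Measure UnitAddCircle,
      IsProbabilityMeasure μ → Inv p q μ →
        Real.log (1 / r) * μ.real {x | r / 2 ≤ ‖x‖ ∧ ‖x‖ < r} ≤ ε * μ.real {x | r ≤ ‖x‖} := by
  obtain ⟨s0, hs0, hb⟩ := localForm h (b := Real.log 2) (Real.log_nonneg (by norm_num)) hε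
  refine ⟨Real.exp (-s0), Real.exp_pos _, by rw [Real.exp_lt_one_iff]; linarith,
    fun r hr hrr μ hμ hinv => ?_⟩
  have h1 : s0 ≤ -Real.log r := by
    have := Real.log_le_log hr hrr
    rw [Real.log_exp] at this
    linarith
  have h2 := hb (-Real.log r) h1 μ hμ hinv
  have e1 : Real.exp (-(-Real.log r + Real.log 2)) = r / 2 := by
    rw [neg_add, neg_neg, Real.exp_add, Real.exp_log hr, Real.exp_neg, Real.exp_log (by norm_num)]
    rfl
  have e2 : Real.exp (- -Real.log r) = r := by rw [neg_neg, Real.exp_log hr]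
  have e3 : {x : UnitAddCircle | r / 2 ≤ ‖x‖ ∧ ‖x‖ < r} = {x : UnitAddCircle | r / 2 ≤ ‖x‖} \ {x : UnitAddCircle | r ≤ ‖x‖} := by
    ext x
    simp only [Set.mem_sdiff, Set.mem_ofPred_eq, not_le]
  have hsub : {x : UnitAddCircle | r ≤ ‖x‖} ⊆ {x : UnitAddCircle | r / 2 ≤ ‖x‖} := fun x (hx : r ≤ ‖x‖) =>
    (by linarith : r / 2 ≤ r).trans hx
  rw [e3, measureReal_sdiff hsub (closed_ge _), Real.log_div one_ne_zero hr.ne', Real.log_one,
    zero_sub]
  unfold F at h2
  rwa [e1, e2] at h2

end Pool.Agent.Q190.SV
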