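import Mathlib
import Pool.Agent.Q190.SV.Arc

/-!
# One multiplier does not suffice
-/

set_option autoImplicit false

open MeasureTheory Finset Filter Topology

namespace Pool.Agent.Q190.SV


/-- the uniform probability measure on a finite set -/
noncomputable def unif (S : Finset UnitAddCircle) : Measure UnitAddCircle :=
  (S.card : ENNReal)⁻¹ • ∑ x ∈ S, Measure.dirac x

lemma unif_prob {S : Finset UnitAddCircle} (hS : S.Nonempty) : IsProbabilityMeasure (unif S) := by
  constructor
  unfold unif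
  rw [Measure.smul_apply, Measure.finsetSum_apply]
  simp only [measure_univ, Finset.sum_const, nsmul_eq_mul, mul_one, smul_eq_mul]
  have h1 : (S.card : ENNReal) ≠ 0 := by
    rw [Nat.cast_ne_zero]; exact (Finset.card_pos.2 hS).ne'
  exact ENNReal.inv_mul_cancel h1 (ENNReal.natCast_ne_top _)

open Classical in
lemma unif_real (S : Finset UnitAddCircle) {A : Set UnitAddCircle} (hA : MeasurableSet A) :
    (unif S).real A = ((S.filter fun x => x ∈ A).card : ℝ) / S.card := by
  unfold unif
  rw [measureReal_ennreal_smul_apply, ENNReal.toReal_inv, ENNReal.toReal_natCast,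
    div_eq_inv_mul]
  congr 1
  rw [Measure.real, Measure.finsetSum_apply]
  have e : ∑ x ∈ S, (Measure.dirac x) A = ((S.filter fun x => x ∈ A).card : ENNReal) := by
    rw [Finset.card_filter, Nat.cast_sum]
    refine Finset.sum_congr rfl fun x _ => ?_
    rw [Measure.dirac_apply' x hA]
    by_cases hx : x ∈ A
    · rw [Set.indicator_of_mem hx, if_pos hx]; simp
    · rw [Set.indicator_of_notMem hx, if_neg hx]; simp
  rw [e, ENNReal.toReal_natCast]

lemma unif_integral (S : Finset UnitAddCircle) {E : Type*} [NormedAddCommGroup E] [NormedSpace ℝ E]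
    [CompleteSpace E] (g : UnitAddCircle → E) (hg : StronglyMeasurable g) :
    ∫ x, g x ∂(unif S) = ((S.card : ℝ)⁻¹) • ∑ x ∈ S, g x := by
  unfold unif
  rw [integral_smul_measure, integral_finsetSum_measure]
  · rw [ENNReal.toReal_inv, ENNReal.toReal_natCast]
    congr 1
    exact Finset.sum_congr rfl fun x _ => integral_dirac' _ _ hg
  · intro x _
    exact integrable_dirac' hg (by simp)

lemma map_dirac_sum (S : Finset UnitAddCircle) {f : UnitAddCircle → UnitAddCircle} (hf : Measurable f) :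
    Measure.map f (∑ x ∈ S, Measure.dirac x) = ∑ x ∈ S, Measure.dirac (f x) := by
  ext A hA
  rw [Measure.map_apply hf hA, Measure.finsetSum_apply, Measure.finsetSum_apply]
  refine Finset.sum_congr rfl fun x _ => ?_
  rw [Measure.dirac_apply' x (hf hA), Measure.dirac_apply' (f x) hA]
  rfl

lemma unif_pres {S : Finset UnitAddCircle} {p : ℕ} (hm : ∀ x ∈ S, p • x ∈ S)
    (hinj : ∀ x ∈ S, ∀ y ∈ S, p • x = p • y → x = y) :
    MeasurePreserving (fun x : UnitAddCircle => p • x) (unif S) (unif S) := by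
  classical
  refine ⟨nsmul_meas p, ?_⟩
  unfold unif
  rw [Measure.map_smul, map_dirac_sum S (nsmul_meas p)]
  congr 1
  have himg : S.image (fun x => p • x) = S := by
    apply Finset.eq_of_subset_of_card_le
    · intro y hy
      obtain ⟨x, hx, rfl⟩ := Finset.mem_image.1 hy
      exact hm x hx
    · rw [Finset.card_image_of_injOn]
      intro x hx y hy hxy
      exact hinj x hx y hy hxy
  conv_rhs => rw [← himg]
  rw [Finset.sum_image]
  intro x hx y hy hxy
  exact hinj x hx y hy hxy

lemma norm_of_le_half {t : ℝ} (h0 : 0 ≤ t) (h : t ≤ 1 / 2) : ‖(t : UnitAddCircle)‖ = t := by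
  rw [(AddCircle.norm_coe_eq_abs_iff (1 : ℝ) one_ne_zero).2, abs_of_nonneg h0]
  rw [abs_one, abs_of_nonneg h0]
  exact h

lemma norm_of_half_le {t : ℝ} (h1 : t ≤ 1) (h : 1 / 2 ≤ t) : ‖(t : UnitAddCircle)‖ = 1 - t := by
  have e : (t : UnitAddCircle) = ((-(1 - t) : ℝ) : UnitAddCircle) := by
    have : t = -(1 - t) + 1 := by ring
    conv_lhs => rw [this]
    rw [AddCircle.coe_add]
    have : ((1 : ℝ) : UnitAddCircle) = 0 := AddCircle.coe_period 1
    rw [this, add_zero]
  rw [e, AddCircle.coe_neg, norm_neg]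
  exact norm_of_le_half (by linarith) (by linarith)

/-- **One multiplier does not suffice.** -/
theorem one_multiplier {p n : ℕ} (hp : 2 ≤ p) (hn : 2 ≤ n) :
    ∃ μ : Measure UnitAddCircle, IsProbabilityMeasure μ ∧ MeasurePreserving (fun x : UnitAddCircle => p • x) μ μ ∧
      μ.real {x | (1 / (p : ℝ) ^ n) ^ 2 ≤ ‖x‖} = 1 ∧ μ.real {x | 1 / (p : ℝ) ^ n ≤ ‖x‖} = 1 / 2 := by
  classical
  have hpR : (2 : ℝ) ≤ p := by exact_mod_cast hp
  have hp0 : (0 : ℝ) < p := by linarith
  set m : ℕ := 2 * n with hm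
  set D : ℝ := (p : ℝ) ^ m - 1 with hD
  have hpm : (4 : ℝ) ≤ (p : ℝ) ^ m := by
    calc (4 : ℝ) = 2 ^ 2 := by norm_num
      _ ≤ (p : ℝ) ^ 2 := by gcongr
      _ ≤ (p : ℝ) ^ m := pow_le_pow_right₀ (by linarith) (by omega)
  have hD0 : 0 < D := by rw [hD]; linarith
  -- the points
  set t : ℕ → ℝ := fun j => (p : ℝ) ^ j / D with ht
  set x : ℕ → UnitAddCircle := fun j => ((t j : ℝ) : UnitAddCircle) with hx
  have hlt : ∀ j, j < m → (p : ℝ) ^ j < D := by
    intro j hj
    have h1 : (p : ℝ) ^ j * p ≤ (p : ℝ) ^ m := by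
      rw [← pow_succ]; exact pow_le_pow_right₀ (by linarith) hj
    have h2 : (1 : ℝ) ≤ (p : ℝ) ^ j := one_le_pow₀ (by linarith)
    by_cases h3 : (1 : ℝ) < (p : ℝ) ^ j
    · rw [hD]; nlinarith
    · have h4 : (p : ℝ) ^ j = 1 := le_antisymm (not_lt.1 h3) h2
      rw [hD, h4]; linarith
  have ht01 : ∀ j, j < m → 0 ≤ t j ∧ t j < 1 := by
    intro j hj
    refine ⟨by positivity, ?_⟩
    rw [ht]
    simp only
    rw [div_lt_one hD0]
    exact hlt j hj
  have hinj : ∀ i j, i < m → j < m → x i = x j → i = j := by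
    intro i j hi hj hij
    have h1 := ht01 i hi
    have h2 := ht01 j hj
    have h3 : t i = t j := by
      have := (AddCircle.coe_eq_coe_iff_of_mem_Ico (p := (1 : ℝ)) (a := 0)
        (x := t i) (y := t j) ⟨h1.1, by linarith [h1.2]⟩ ⟨h2.1, by linarith [h2.2]⟩).1 hij
      exact this
    rw [ht] at h3
    simp only at h3
    rw [div_left_inj' hD0.ne'] at h3
    exact pow_right_injective₀ hp0 (by linarith) h3
  set S : Finset UnitAddCircle := (Finset.range m).image x with hS
  have hcard : S.card = m := by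
    rw [hS, Finset.card_image_of_injOn, Finset.card_range]
    intro i hi j hj hij
    exact hinj i j (Finset.mem_range.1 hi) (Finset.mem_range.1 hj) hij
  have hmpos : 0 < m := by omega
  have hSne : S.Nonempty := by
    rw [← Finset.card_pos, hcard]; exact hmpos
  have hstep : ∀ j, p • x j = x (j + 1) := by
    intro j
    rw [hx]
    simp only
    rw [← AddCircle.coe_nsmul, nsmul_eq_mul]
    congr 1
    rw [ht]
    simp only
    rw [pow_succ]; ring
  have hper : x m = x 0 := by
    rw [hx]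
    simp only
    have e : t m = t 0 + 1 := by
      rw [ht]
      simp only [pow_zero]
      rw [div_add_one hD0.ne', hD]
      congr 1; ring
    rw [e, AddCircle.coe_add]
    have : ((1 : ℝ) : UnitAddCircle) = 0 := AddCircle.coe_period 1
    rw [this, add_zero]
  have hmem : ∀ y ∈ S, p • y ∈ S := by
    intro y hy
    obtain ⟨j, hj, rfl⟩ := Finset.mem_image.1 hy
    rw [Finset.mem_range] at hj
    rw [hstep]
    by_cases h : j + 1 < m
    · exact Finset.mem_image_of_mem x (Finset.mem_range.2 h)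
    · have : j + 1 = m := by omega
      rw [this, hper]
      exact Finset.mem_image_of_mem x (Finset.mem_range.2 hmpos)
  have hinj2 : ∀ y ∈ S, ∀ z ∈ S, p • y = p • z → y = z := by
    intro y hy z hz hyz
    obtain ⟨i, hi, rfl⟩ := Finset.mem_image.1 hy
    obtain ⟨j, hj, rfl⟩ := Finset.mem_image.1 hz
    rw [Finset.mem_range] at hi hj
    rw [hstep, hstep] at hyz
    have key : ∀ i, i < m → ∃ i', i' < m ∧ x (i + 1) = x i' ∧ (i + 1 = i' ∨ (i + 1 = m ∧ i' = 0)) := by
      intro i hi
      by_cases h : i + 1 < m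
      · exact ⟨i + 1, h, rfl, Or.inl rfl⟩
      · have : i + 1 = m := by omega
        exact ⟨0, hmpos, by rw [this, hper], Or.inr ⟨this, rfl⟩⟩
    obtain ⟨i', hi', e1, c1⟩ := key i hi
    obtain ⟨j', hj', e2, c2⟩ := key j hj
    rw [e1, e2] at hyz
    have := hinj i' j' hi' hj' hyz
    have hij : i = j := by omega
    rw [hij]
  -- the norms
  have hbig : ∀ k j, 2 ≤ k → k ≤ m → j < m → m ≤ j + k → 1 / (p : ℝ) ^ k ≤ ‖x j‖ := by
    intro k j hk hkm hj hjk
    have hpk : (0 : ℝ) < (p : ℝ) ^ k := by positivity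
    have h1 : 1 / (p : ℝ) ^ k ≤ t j := by
      rw [ht]
      simp only
      rw [div_le_div_iff₀ hpk hD0, one_mul, ← pow_add]
      have : (p : ℝ) ^ m ≤ (p : ℝ) ^ (j + k) := pow_le_pow_right₀ (by linarith) hjk
      rw [hD]; linarith
    by_cases h2 : t j ≤ 1 / 2
    · rw [hx]
      simp only
      rw [norm_of_le_half (ht01 j hj).1 h2]
      exact h1
    · push Not at h2
      rw [hx]
      simp only
      rw [norm_of_half_le (ht01 j hj).2.le h2.le]
      -- `t j ≤ 2 / 3`
      have h3 : (p : ℝ) ^ j * 2 ≤ (p : ℝ) ^ m := by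
        calc (p : ℝ) ^ j * 2 ≤ (p : ℝ) ^ j * p := by gcongr
          _ = (p : ℝ) ^ (j + 1) := (pow_succ _ _).symm
          _ ≤ (p : ℝ) ^ m := pow_le_pow_right₀ (by linarith) hj
      have h4 : t j ≤ 2 / 3 := by
        rw [ht]
        simp only
        rw [div_le_div_iff₀ hD0 (by norm_num), hD]
        linarith
      have h5 : 1 / (p : ℝ) ^ k ≤ 1 / 4 := by
        apply one_div_le_one_div_of_le (by norm_num)
        calc (4 : ℝ) = 2 ^ 2 := by norm_num
          _ ≤ (p : ℝ) ^ 2 := by gcongr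
          _ ≤ (p : ℝ) ^ k := pow_le_pow_right₀ (by linarith) hk
      linarith
  have hsmall : ∀ k j, 2 ≤ k → j < m → j + k < m → ‖x j‖ < 1 / (p : ℝ) ^ k := by
    intro k j hk hj hjk
    have hpk : (0 : ℝ) < (p : ℝ) ^ k := by positivity
    have h1 : t j < 1 / (p : ℝ) ^ k := by
      rw [ht]
      simp only
      rw [div_lt_div_iff₀ hD0 hpk, one_mul, ← pow_add]
      exact hlt _ hjk
    have h5 : 1 / (p : ℝ) ^ k ≤ 1 / 4 := by
      apply one_div_le_one_div_of_le (by norm_num)
      calc (4 : ℝ) = 2 ^ 2 := by norm_num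
        _ ≤ (p : ℝ) ^ 2 := by gcongr
        _ ≤ (p : ℝ) ^ k := pow_le_pow_right₀ (by linarith) hk
    rw [hx]
    simp only
    rw [norm_of_le_half (ht01 j hj).1 (by linarith)]
    exact h1
  have hcount : ∀ k, 2 ≤ k → k ≤ m → (unif S).real {x | 1 / (p : ℝ) ^ k ≤ ‖x‖} = (k : ℝ) / m := by
    intro k hk hkm
    rw [unif_real S (closed_ge _), hcard]
    congr 2
    have e : S.filter (fun y => y ∈ {x : UnitAddCircle | 1 / (p : ℝ) ^ k ≤ ‖x‖}) =
        (Finset.Ico (m - k) m).image x := by
      ext y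
      rw [Finset.mem_filter, hS, Finset.mem_image, Finset.mem_image]
      constructor
      · rintro ⟨⟨j, hj, rfl⟩, h2⟩
        rw [Finset.mem_range] at hj
        refine ⟨j, ?_, rfl⟩
        rw [Finset.mem_Ico]
        refine ⟨?_, hj⟩
        by_contra hcon
        have h3 := hsmall k j hk hj (by omega)
        have h4 : 1 / (p : ℝ) ^ k ≤ ‖x j‖ := h2
        linarith
      · rintro ⟨j, hj, rfl⟩
        rw [Finset.mem_Ico] at hj
        exact ⟨⟨j, Finset.mem_range.2 hj.2, rfl⟩, hbig k j hk hkm hj.2 (by omega)⟩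
    rw [e, Finset.card_image_of_injOn, Nat.card_Ico]
    · omega
    · intro i hi j hj hij
      rw [Finset.mem_coe, Finset.mem_Ico] at hi hj
      exact hinj i j hi.2 hj.2 hij
  have hprob := unif_prob hSne
  refine ⟨unif S, hprob, unif_pres hmem hinj2, ?_, ?_⟩
  · have e : (1 / (p : ℝ) ^ n) ^ 2 = 1 / (p : ℝ) ^ m := by
      rw [div_pow, one_pow, ← pow_mul, hm, mul_comm]
    rw [e, hcount m (by omega) le_rfl, div_self]
    exact_mod_cast hmpos.ne'
  · rw [hcount n hn (by omega), hm]
    push_cast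
    have : (n : ℝ) ≠ 0 := by exact_mod_cast (by omega : n ≠ 0)
    field_simp

end Pool.Agent.Q190.SV
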