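import Mathlib
import Pool.Agent.Q190.SV.One

/-!
# Fourier coefficients give conditionally negative definite functions
-/

set_option autoImplicit false

open MeasureTheory Finset Filter Topology

namespace Pool.Agent.Q190.SV

open Pool.Agent.H819 (TwoGen)


lemma fourier_int (m : ℤ) (μ : Measure UnitAddCircle) [IsProbabilityMeasure μ] :
    Integrable (fun x : UnitAddCircle => fourier m x) μ := by
  refine Integrable.of_bound (C := 1) (ContinuousMap.continuous _).aestronglyMeasurable ?_
  exact Eventually.of_forall fun x => by rw [fourier_apply, Circle.norm_coe]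

/-- `1 - Re μ^` is conditionally negative definite -/
lemma cnd_one_sub (μ : Measure UnitAddCircle) [IsProbabilityMeasure μ] :
    CND (fun n => 1 - (∫ x, fourier n x ∂μ).re) := by
  classical
  refine ⟨by simp, fun n => ?_, fun S c hc => ?_⟩
  · have e : ∫ x : UnitAddCircle, fourier (-n) x ∂μ = (starRingEnd ℂ) (∫ x : UnitAddCircle, fourier n x ∂μ) := by
      rw [← integral_conj]
      refine integral_congr_ae (Eventually.of_forall fun x => ?_)
      exact fourier_neg
    simp only [e, Complex.conj_re]
  · -- the integral of a square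
    set g : UnitAddCircle → ℂ := fun x => ∑ i ∈ S, (c i : ℂ) * fourier i x with hg
    have hpt : ∀ x : UnitAddCircle, (‖g x‖ ^ 2 : ℝ) = ∑ i ∈ S, ∑ j ∈ S, c i * c j * (fourier (i - j) x).re := by
      intro x
      have h1 : ((‖g x‖ ^ 2 : ℝ) : ℂ) = g x * (starRingEnd ℂ) (g x) := by
        rw [Complex.mul_conj, Complex.normSq_eq_norm_sq]
      have h2 : g x * (starRingEnd ℂ) (g x) =
          ∑ i ∈ S, ∑ j ∈ S, ((c i * c j : ℝ) : ℂ) * fourier (i - j) x := by
        rw [hg]
        simp only
        rw [map_sum, Finset.sum_mul_sum]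
        refine Finset.sum_congr rfl fun i _ => Finset.sum_congr rfl fun j _ => ?_
        rw [map_mul, Complex.conj_ofReal, ← fourier_neg, sub_eq_add_neg, fourier_add]
        push_cast; ring
      have h3 : ((‖g x‖ ^ 2 : ℝ) : ℂ).re = (∑ i ∈ S, ∑ j ∈ S, ((c i * c j : ℝ) : ℂ) *
          fourier (i - j) x).re := by rw [h1, h2]
      rw [Complex.ofReal_re, Complex.re_sum] at h3
      rw [h3]
      refine Finset.sum_congr rfl fun i _ => ?_
      rw [Complex.re_sum]
      exact Finset.sum_congr rfl fun j _ => by rw [Complex.re_ofReal_mul]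
    have hre : ∀ m : ℤ, (∫ x, fourier m x ∂μ).re = ∫ x, (fourier m x).re ∂μ := by
      intro m
      have := integral_re (fourier_int m μ)
      simpa using this.symm
    have hint : ∀ m : ℤ, Integrable (fun x : UnitAddCircle => (fourier m x).re) μ := fun m =>
      (fourier_int m μ).re
    have hI : ∫ x, (‖g x‖ ^ 2 : ℝ) ∂μ =
        ∑ i ∈ S, ∑ j ∈ S, c i * c j * (∫ x, fourier (i - j) x ∂μ).re := by
      simp only [hpt]
      rw [integral_finsetSum _ (fun i _ => integrable_finsetSum _ fun j _ =>
        (hint (i - j)).const_mul _)]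
      refine Finset.sum_congr rfl fun i _ => ?_
      rw [integral_finsetSum _ (fun j _ => (hint (i - j)).const_mul _)]
      refine Finset.sum_congr rfl fun j _ => ?_
      rw [integral_const_mul, hre]
    have hI0 : 0 ≤ ∫ x, (‖g x‖ ^ 2 : ℝ) ∂μ := integral_nonneg fun x => by positivity
    rw [hI] at hI0
    have e : ∑ i ∈ S, ∑ j ∈ S, c i * c j * (1 - (∫ x, fourier (i - j) x ∂μ).re) =
        (∑ i ∈ S, c i) * (∑ j ∈ S, c j) -
          ∑ i ∈ S, ∑ j ∈ S, c i * c j * (∫ x, fourier (i - j) x ∂μ).re := by
      rw [Finset.sum_mul_sum, ← Finset.sum_sub_distrib]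
      refine Finset.sum_congr rfl fun i _ => ?_
      rw [← Finset.sum_sub_distrib]
      exact Finset.sum_congr rfl fun j _ => by ring
    rw [e, hc]
    linarith

lemma diff_coeff (μ : Measure UnitAddCircle) [IsProbabilityMeasure μ] (n : ℤ) :
    ∫ x, fourier n x ∂(diff μ) = ((‖∫ x, fourier n x ∂μ‖ ^ 2 : ℝ) : ℂ) := by
  unfold diff
  rw [integral_map diff_meas.aemeasurable (ContinuousMap.continuous _).aestronglyMeasurable]
  have e1 : ∀ z : UnitAddCircle × UnitAddCircle, fourier n (z.1 - z.2) = fourier n z.1 * (starRingEnd ℂ) (fourier n z.2) := by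
    intro z
    rw [fourier_apply, fourier_apply, fourier_apply, smul_sub, sub_eq_add_neg,
      AddCircle.toCircle_add, AddCircle.toCircle_neg, Circle.coe_mul, Circle.coe_inv_eq_conj]
  simp only [e1]
  have h1 := integral_prod_mul (μ := μ) (ν := μ) (fun x : UnitAddCircle => (fourier n x : ℂ))
    (fun x : UnitAddCircle => (starRingEnd ℂ) (fourier n x : ℂ))
  rw [h1, integral_conj, Complex.mul_conj, Complex.normSq_eq_norm_sq]

/-- `1 - |μ^|²` is conditionally negative definite -/
lemma cnd_one_sub_sq (μ : Measure UnitAddCircle) [IsProbabilityMeasure μ] :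
    CND (fun n => 1 - ‖∫ x, fourier n x ∂μ‖ ^ 2) := by
  have h := cnd_one_sub (diff μ)
  have e : (fun n : ℤ => 1 - (∫ x, fourier n x ∂(diff μ)).re) =
      fun n => 1 - ‖∫ x, fourier n x ∂μ‖ ^ 2 := by
    funext n
    rw [diff_coeff, Complex.ofReal_re]
  rwa [e] at h

end Pool.Agent.Q190.SV
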